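import Mathlib

/-!
Project ZLF, sequence part: the masses as real numbers, abstractly.

`b r`: mass of the cobridges of width `r`; `la i`: of the irreducible ones of width `i + 1`; `f i`: mass of the irreducible
pairs of width `i + 1` (so `b r ^ 2` is the renewal sequence of the common renewal levels); `e r`: mass of the pairs of
width `r` which keep a given order; `cc a a'`: mass of the pairs of widths `a`, `a'` without common renewal level.
-/

namespace Pool.Agent.ZLF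

open Finset

/-- The masses. -/
structure Sq where
  b : ℕ → ℝ
  la : ℕ → ℝ
  f : ℕ → ℝ
  e : ℕ → ℝ
  cc : ℕ → ℕ → ℝ
  b0 : b 0 = 1
  bnn : ∀ r, 0 ≤ b r
  b1 : ∀ r, b r ≤ 1
  lann : ∀ i, 0 ≤ la i
  bren : ∀ r, b (r + 1) = ∑ i ∈ range (r + 1), la i * b (r - i)
  lasum : ∀ N, ∑ i ∈ range N, la i ≤ 1
  fnn : ∀ i, 0 ≤ f i
  uren : ∀ r, b (r + 1) ^ 2 = ∑ i ∈ range (r + 1), f i * b (r - i) ^ 2
  fsum : ∀ N, ∑ i ∈ range N, f i ≤ 1
  e0 : e 0 = 1
  enn : ∀ r, 0 ≤ e r
  econv : ∀ r, ∑ k ∈ range (r + 1), e k * e (r - k) ≤ b r ^ 2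
  elast : ∀ r, e (r + 1) ≤ ∑ i ∈ range (r + 1), f i * e (r - i)
  ccnn : ∀ a a', 0 ≤ cc a a'
  ccdec : ∀ r s, b r * b s = ∑ l ∈ range (min r s + 1), b l ^ 2 * cc (r - l) (s - l)

namespace Sq

/-- The fold matrix (half of the mass of the pairs which keep their order). -/
noncomputable def J (S : Sq) (r s : ℕ) : ℝ := ∑ l ∈ range (min r s + 1), S.e l * S.cc (r - l) (s - l)

/-- Tail of the own blocks. -/
noncomputable def T (S : Sq) (a : ℕ) : ℝ := 1 - ∑ i ∈ range a, S.la i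

/-- Sum of the squares. -/
noncomputable def U (S : Sq) (n : ℕ) : ℝ := ∑ i ∈ range (n + 1), S.b i ^ 2

/-- Sum of the masses. -/
noncomputable def U1 (S : Sq) (n : ℕ) : ℝ := ∑ i ∈ range (n + 1), S.b i

/-- The test vector. -/
noncomputable def hh (S : Sq) (n a : ℕ) : ℝ := S.T a + (S.U1 n)⁻¹

/-- The quadratic form of the fold matrix at the test vector. -/
noncomputable def X (S : Sq) (n D : ℕ) : ℝ :=
  ∑ r ∈ range (D + 1), ∑ s ∈ range (D + 1), S.hh n (D - r) * S.hh n (D - s) * S.J r s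

/-- Middle parts with a renewal level in the middle. -/
noncomputable def mid (S : Sq) (k a a' : ℕ) : ℝ := ∑ j ∈ range k, ∑ h ∈ range k, ∑ j' ∈ range k,
  if a ≤ j ∧ a' ≤ j' ∧ j + h + j' + 1 = k then S.la j * S.b h * S.la j' else 0

/-- The coefficients of the negative part of the fold matrix. -/
noncomputable def eps (S : Sq) (j : ℕ) : ℝ := ∑ i ∈ range (j + 1), S.f i * S.e (j - i) - S.e (j + 1)

end Sq

/-- Chains of matrices. -/
noncomputable def chR (D lo : ℕ) (y : ℝ) (b : ℕ → ℝ) (G : ℕ → ℕ → ℝ) (B : ℕ → ℕ → ℕ → ℝ) : ℕ → ℕ → ℕ → ℝ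
  | 0, _, r => b r
  | K + 1, h, r => b r + ∑ d ∈ Ico lo h, y ^ d *
      ∑ a ∈ range (D + 1), ∑ a' ∈ range (D + 1), G r a * B d a a' * chR D lo y b G B K d a'

/-- The matrix of the middle parts of a strand of width `d`, times `Z`. -/
noncomputable def Bm (S : Sq) (Z : ℝ) (D d a a' : ℕ) : ℝ :=
  Z * (S.mid (d - a - a') (D - a) (D - a') + S.la (d - a - a'))

end Pool.Agent.ZLF
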