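import Pool.Agent.ZCS.GronD

/-!
Module ExpSum (analysis): the product over the dyadic scales.

PAPER PROOF. Put `x = ε * 2 ^ k`, `q = (1 - ε) ^ (2 ^ k) ≤ exp (- x)`, so `0 ≤ q ≤ q ^ (1/6) ≤ exp (- x / 6)`. For `u ≥ 0`:
`1 + u ^ 6 ≤ (1 + u) ^ 6 ≤ exp (6 u)`; with `u ^ 6 = C * 2 ^ (3 k) * q`, `u = C ^ (1/6) * √(2 ^ k) * q ^ (1/6)`. So the factor is
`≤ exp (C √(2 ^ k) q) * (1 + C 2 ^ (3 k) q) ≤ exp ((C + 6 C ^ (1/6)) * √(2 ^ k) * exp (- x / 6))` (`1 + a e ≤ e (1 + a)` for `e ≥ 1`).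
`√(2 ^ k) = √x / √ε`, and `√x * exp (- x / 6) ≤ 6 * √x / (1 + x)`
(`(1 + x) * exp (- x / 6) ≤ 6`: `1 + x ≤ 6 * (1 + x / 6) ≤ 6 * exp (x / 6)`), and `√x / (1 + x) ≤ 8 * (ψ (2 x) - ψ x)` with
`ψ x = √x / (1 + √x) ∈ [0, 1]` (`GronD_psi`, `GronD_tel` in ZCS/GronD). So `∑ k < j, √(2 ^ k) * exp (- x / 6) ≤ 48 / √ε`.
-/

namespace Pool.Agent.ZLF

open Finset

/-- one factor -/
private theorem ExpSum_factor (C : ℝ) (hC : 0 < C) (ε : ℝ) (h0 : 0 < ε) (h1 : ε ≤ 1 / 2) (k : ℕ) :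
    1 + C * 2 ^ (3 * k) * (1 - ε) ^ (2 ^ k) *
      Real.exp (C * Real.sqrt (2 ^ k) * (1 - ε) ^ (2 ^ k)) ≤
    Real.exp ((C + 6 * C ^ (1 / 6 : ℝ)) *
      (Real.sqrt (2 ^ k) * Real.exp (-(ε * 2 ^ k / 6)))) := by
  set x : ℝ := ε * 2 ^ k with hx
  have hx0 : 0 < x := by positivity
  set q : ℝ := (1 - ε) ^ (2 ^ k) with hq
  have h1e : 0 < 1 - ε := by linarith
  have hq0 : 0 < q := pow_pos h1e _
  have hqx : q ≤ Real.exp (-x) := by
    have h2 : 1 - ε ≤ Real.exp (-ε) := by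
      have := Real.add_one_le_exp (-ε)
      linarith
    calc q ≤ Real.exp (-ε) ^ (2 ^ k) := pow_le_pow_left₀ h1e.le h2 _
      _ = Real.exp (-x) := by
          rw [← Real.exp_nat_mul, hx]
          congr 1
          push_cast
          ring
  have hq6 : q ^ (1 / 6 : ℝ) ≤ Real.exp (-(x / 6)) := by
    calc q ^ (1 / 6 : ℝ) ≤ Real.exp (-x) ^ (1 / 6 : ℝ) :=
          Real.rpow_le_rpow hq0.le hqx (by norm_num)
      _ = Real.exp (-(x / 6)) := by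
          rw [← Real.exp_mul]
          congr 1
          ring
  have hq1 : q ≤ Real.exp (-(x / 6)) :=
    hqx.trans (Real.exp_le_exp.2 (by linarith))
  set s : ℝ := Real.sqrt (2 ^ k) with hs
  have hs0 : 0 < s := Real.sqrt_pos.2 (by positivity)
  have hs2 : s ^ 2 = 2 ^ k := Real.sq_sqrt (by positivity)
  set u : ℝ := C ^ (1 / 6 : ℝ) * s * q ^ (1 / 6 : ℝ) with hu
  have hc0 : 0 < C ^ (1 / 6 : ℝ) := Real.rpow_pos_of_pos hC _
  have hqq0 : 0 < q ^ (1 / 6 : ℝ) := Real.rpow_pos_of_pos hq0 _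
  have hu0 : 0 < u := by positivity
  have hroot : ∀ y : ℝ, 0 < y → (y ^ (1 / 6 : ℝ)) ^ 6 = y := by
    intro y hy
    rw [← Real.rpow_natCast, ← Real.rpow_mul hy.le]
    norm_num
  have hu6 : u ^ 6 = C * 2 ^ (3 * k) * q := by
    rw [hu, mul_pow, mul_pow, hroot C hC, hroot q hq0]
    have h6 : s ^ 6 = 2 ^ (3 * k) := by
      calc s ^ 6 = (s ^ 2) ^ 3 := by ring
        _ = (2 ^ k) ^ 3 := by rw [hs2]
        _ = 2 ^ (3 * k) := by rw [← pow_mul, mul_comm]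
    rw [h6]
  have hb : 1 + C * 2 ^ (3 * k) * q ≤ Real.exp (6 * u) := by
    rw [← hu6]
    have h3 : 1 + u ^ 6 ≤ (1 + u) ^ 6 := by
      have h4 : (1 + u) ^ 6 = 1 + u ^ 6 + (6 * u + 15 * u ^ 2 + 20 * u ^ 3 + 15 * u ^ 4 +
        6 * u ^ 5) := by ring
      rw [h4]
      have : 0 ≤ 6 * u + 15 * u ^ 2 + 20 * u ^ 3 + 15 * u ^ 4 + 6 * u ^ 5 := by positivity
      linarith
    refine h3.trans ?_
    have h5 : 1 + u ≤ Real.exp u := by
      have := Real.add_one_le_exp u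
      linarith
    calc (1 + u) ^ 6 ≤ Real.exp u ^ 6 := pow_le_pow_left₀ (by positivity) h5 _
      _ = Real.exp (6 * u) := by
          rw [← Real.exp_nat_mul]
          norm_num
  have ha : 1 ≤ Real.exp (C * s * q) := Real.one_le_exp (by positivity)
  have hb0 : 0 ≤ C * 2 ^ (3 * k) * q := by positivity
  calc 1 + C * 2 ^ (3 * k) * q * Real.exp (C * s * q)
      ≤ Real.exp (C * s * q) * (1 + C * 2 ^ (3 * k) * q) := by nlinarith
    _ ≤ Real.exp (C * s * q) * Real.exp (6 * u) :=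
        mul_le_mul_of_nonneg_left hb (Real.exp_pos _).le
    _ = Real.exp (C * s * q + 6 * u) := by rw [Real.exp_add]
    _ ≤ _ := by
        apply Real.exp_le_exp.2
        have h6 : C * s * q ≤ C * s * Real.exp (-(x / 6)) :=
          mul_le_mul_of_nonneg_left hq1 (by positivity)
        have h7 : u ≤ C ^ (1 / 6 : ℝ) * s * Real.exp (-(x / 6)) :=
          mul_le_mul_of_nonneg_left hq6 (by positivity)
        calc C * s * q + 6 * u ≤ C * s * Real.exp (-(x / 6)) +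
              6 * (C ^ (1 / 6 : ℝ) * s * Real.exp (-(x / 6))) := by linarith
          _ = _ := by ring

/-- the sum -/
private theorem ExpSum_sum (ε : ℝ) (h0 : 0 < ε) (j : ℕ) :
    ∑ k ∈ range j, Real.sqrt (2 ^ k) * Real.exp (-(ε * 2 ^ k / 6)) ≤
      48 * Real.sqrt (1 / ε) := by
  have hx : ∀ k : ℕ, 0 < ε * 2 ^ k := fun k => by positivity
  have hx2 : ∀ k : ℕ, ε * 2 ^ (k + 1) = 2 * (ε * 2 ^ k) := fun k => by ring
  have he0 : 0 ≤ Real.sqrt (1 / ε) := Real.sqrt_nonneg _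
  have hterm : ∀ k : ℕ, Real.sqrt (2 ^ k) * Real.exp (-(ε * 2 ^ k / 6)) ≤
      (48 * Real.sqrt (1 / ε)) *
        (Real.sqrt (ε * 2 ^ (k + 1)) / (1 + Real.sqrt (ε * 2 ^ (k + 1)))) -
      (48 * Real.sqrt (1 / ε)) * (Real.sqrt (ε * 2 ^ k) / (1 + Real.sqrt (ε * 2 ^ k))) := by
    intro k
    have h2 := Pool.Agent.ZCS.GronD_psi _ (hx k)
    rw [← hx2 k] at h2
    have h3 : Real.sqrt (2 ^ k) = Real.sqrt (1 / ε) * Real.sqrt (ε * 2 ^ k) := by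
      rw [← Real.sqrt_mul (by positivity)]
      congr 1
      field_simp
    have h4 : Real.exp (-(ε * 2 ^ k / 6)) ≤ 6 / (1 + ε * 2 ^ k) := by
      rw [le_div_iff₀ (by have := hx k; linarith), Real.exp_neg,
        inv_mul_le_iff₀ (Real.exp_pos _)]
      have := Real.add_one_le_exp (ε * 2 ^ k / 6)
      nlinarith [hx k]
    rw [h3]
    calc Real.sqrt (1 / ε) * Real.sqrt (ε * 2 ^ k) * Real.exp (-(ε * 2 ^ k / 6))
        ≤ Real.sqrt (1 / ε) * Real.sqrt (ε * 2 ^ k) * (6 / (1 + ε * 2 ^ k)) :=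
          mul_le_mul_of_nonneg_left h4 (by positivity)
      _ = 6 * Real.sqrt (1 / ε) * (Real.sqrt (ε * 2 ^ k) / (1 + ε * 2 ^ k)) := by ring
      _ ≤ 6 * Real.sqrt (1 / ε) *
          (8 * (Real.sqrt (ε * 2 ^ (k + 1)) / (1 + Real.sqrt (ε * 2 ^ (k + 1))) -
            Real.sqrt (ε * 2 ^ k) / (1 + Real.sqrt (ε * 2 ^ k)))) :=
          mul_le_mul_of_nonneg_left h2 (by positivity)
      _ = _ := by ring
  refine (Pool.Agent.ZCS.GronD_tel _ (fun k => (48 * Real.sqrt (1 / ε)) *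
    (Real.sqrt (ε * 2 ^ k) / (1 + Real.sqrt (ε * 2 ^ k)))) hterm j).trans ?_
  have h3 : Real.sqrt (ε * 2 ^ j) / (1 + Real.sqrt (ε * 2 ^ j)) ≤ 1 := by
    rw [div_le_one (by positivity)]; linarith
  have h4 : 0 ≤ Real.sqrt (ε * 2 ^ 0) / (1 + Real.sqrt (ε * 2 ^ 0)) := by positivity
  have h5 : 0 ≤ 48 * Real.sqrt (1 / ε) := by positivity
  nlinarith [mul_le_mul_of_nonneg_left h3 h5, mul_nonneg h5 h4]

theorem exp_sum (C : ℝ) (hC : 0 < C) : ∃ C1 : ℝ, 0 < C1 ∧ ∀ ε : ℝ, 0 < ε → ε ≤ 1 / 2 → ∀ j : ℕ,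
    ∏ k ∈ range j, (1 + C * 2 ^ (3 * k) * (1 - ε) ^ (2 ^ k) *
      Real.exp (C * Real.sqrt (2 ^ k) * (1 - ε) ^ (2 ^ k))) ≤ Real.exp (C1 * Real.sqrt (1 / ε)) := by
  have hc0 : 0 < C ^ (1 / 6 : ℝ) := Real.rpow_pos_of_pos hC _
  refine ⟨48 * (C + 6 * C ^ (1 / 6 : ℝ)), by positivity, fun ε h0 h1 j => ?_⟩
  have h1e : 0 < 1 - ε := by linarith
  calc ∏ k ∈ range j, (1 + C * 2 ^ (3 * k) * (1 - ε) ^ (2 ^ k) *
        Real.exp (C * Real.sqrt (2 ^ k) * (1 - ε) ^ (2 ^ k)))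
      ≤ ∏ k ∈ range j, Real.exp ((C + 6 * C ^ (1 / 6 : ℝ)) *
          (Real.sqrt (2 ^ k) * Real.exp (-(ε * 2 ^ k / 6)))) := by
        apply Finset.prod_le_prod
        · intro k _
          have : 0 ≤ C * 2 ^ (3 * k) * (1 - ε) ^ (2 ^ k) *
            Real.exp (C * Real.sqrt (2 ^ k) * (1 - ε) ^ (2 ^ k)) := by
            have := pow_pos h1e (2 ^ k)
            positivity
          linarith
        · intro k _
          exact ExpSum_factor C hC ε h0 h1 k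
    _ = Real.exp ((C + 6 * C ^ (1 / 6 : ℝ)) *
          ∑ k ∈ range j, Real.sqrt (2 ^ k) * Real.exp (-(ε * 2 ^ k / 6))) := by
        rw [← Real.exp_sum, Finset.mul_sum]
    _ ≤ _ := by
        apply Real.exp_le_exp.2
        calc (C + 6 * C ^ (1 / 6 : ℝ)) *
              ∑ k ∈ range j, Real.sqrt (2 ^ k) * Real.exp (-(ε * 2 ^ k / 6))
            ≤ (C + 6 * C ^ (1 / 6 : ℝ)) * (48 * Real.sqrt (1 / ε)) :=
              mul_le_mul_of_nonneg_left (ExpSum_sum ε h0 j) (by positivity)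
          _ = _ := by ring

end Pool.Agent.ZLF
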