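import Pool.Agent.ZLF.EtaA

/-!
Module Eta: the total mass of the chains of one dyadic scale (real numbers).

PAPER PROOF. `C`, `D` from `etaA`; `N = 2 ^ k`; `y0` is the number `y` of the theorem. `g K h i = chR D N y0 b (2 J) (Bm S Z D) K h i`, `i : Fin (D + 1)`,
satisfies the hypotheses of `lor_chain` with `w d = 2 * y0 ^ d`, `lo = N` (`Finset.sum_range`, `Bm = M + L`, the matrix products as sums).
The left side of the theorem is `∑ d ∈ Ico N (2 N), y0 ^ d * (b ⬝ (M d + L d) (g K d))`, so by `lor_chain` (facts on the matrices: module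
Mats) it is at most `∑ d ∈ Ico N (2 N), y0 ^ d * eta d * 32 N ^ 2 * ∏ i ∈ Ico N d, (1 + 2 * y0 ^ i * eta i) ≤
32 N ^ 2 * y0 ^ N * H * exp (2 * y0 ^ N * H)`, `H = ∑ d ∈ Ico N (2 N), eta d ≤ C √N ≤ C N` (`y0 ^ i ≤ y0 ^ N`, `1 + x ≤ exp x`, `eta ≥ 0`).
So the constant `max (32 C) (2 C)` will do (`32 N ^ 2 * C N = 32 C * 2 ^ (3 k)`).
-/

namespace Pool.Agent.ZLF

open Finset Matrix

theorem scale (S : Sq) (Z : ℝ) (hZ : 0 < Z) : ∃ C : ℝ, 0 < C ∧ ∀ k : ℕ, ∃ D : ℕ, 4 * D ≤ 2 ^ k ∧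
    ∀ y : ℝ, 0 ≤ y → y ≤ 1 → ∀ K : ℕ,
    ∑ d ∈ Ico (2 ^ k) (2 ^ (k + 1)), y ^ d * ∑ a ∈ range (D + 1), ∑ a' ∈ range (D + 1),
      S.b a * Bm S Z D d a a' * chR D (2 ^ k) y S.b (fun r s => 2 * S.J r s) (Bm S Z D) K d a' ≤
    C * 2 ^ (3 * k) * y ^ (2 ^ k) * Real.exp (C * Real.sqrt (2 ^ k) * y ^ (2 ^ k)) := by
  obtain ⟨C, hC, h⟩ := etaA S Z hZ
  refine ⟨32 * C, by positivity, fun k => ?_⟩
  obtain ⟨D, hD, hθ, hc, hH⟩ := h k
  refine ⟨D, hD, fun y hy0 hy1 K => ?_⟩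
  let g : ℕ → ℕ → Fin (D + 1) → ℝ := fun K h i =>
    chR D (2 ^ k) y S.b (fun r s => 2 * S.J r s) (Bm S Z D) K h i
  have hB : ∀ d (a a' : Fin (D + 1)), (Mm S Z D d + Lm S Z D d) a a' = Bm S Z D d a a' := by
    intro d a a'
    simp only [Matrix.add_apply, Mm, Lm, Matrix.of_apply, Bm]
    ring
  have hdot : ∀ K d, ∑ a ∈ range (D + 1), ∑ a' ∈ range (D + 1),
      S.b a * Bm S Z D d a a' *
        chR D (2 ^ k) y S.b (fun r s => 2 * S.J r s) (Bm S Z D) K d a' =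
      bv S D ⬝ᵥ ((Mm S Z D d + Lm S Z D d) *ᵥ g K d) := by
    intro K d
    rw [Finset.sum_range]
    simp only [dotProduct, Matrix.mulVec]
    refine Finset.sum_congr rfl fun a _ => ?_
    rw [Finset.sum_range, Finset.mul_sum]
    refine Finset.sum_congr rfl fun a' _ => ?_
    rw [hB]
    simp only [bv, g]
    ring
  have hg0 : ∀ h, g 0 h = bv S D := by
    intro h
    funext i
    simp only [g, chR, bv]
  have hg : ∀ K h, g (K + 1) h = bv S D + ∑ d ∈ Ico (2 ^ k) h,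
      (2 * y ^ d) • (Jm S D *ᵥ ((Mm S Z D d + Lm S Z D d) *ᵥ g K d)) := by
    intro K h
    funext i
    rw [Pi.add_apply, Finset.sum_apply]
    change chR D (2 ^ k) y S.b (fun r s => 2 * S.J r s) (Bm S Z D) (K + 1) h i = _
    rw [chR]
    congr 1
    refine Finset.sum_congr rfl fun d _ => ?_
    rw [Pi.smul_apply, smul_eq_mul, mul_comm (2 : ℝ), mul_assoc]
    congr 1
    rw [Finset.sum_range]
    simp only [dotProduct, Matrix.mulVec]
    rw [Finset.mul_sum]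
    refine Finset.sum_congr rfl fun a _ => ?_
    rw [Finset.sum_range, Finset.mul_sum, Finset.mul_sum]
    refine Finset.sum_congr rfl fun a' _ => ?_
    rw [hB]
    simp only [Jm, Matrix.of_apply, g]
    ring
  have hy2 : ∀ i, 0 ≤ yv S Z k D i := yv_nonneg S Z k D
  set E : ℕ → ℝ := fun d => eta (Jm S D) (Mm S Z D d) (Lm S Z D d) (yv S Z k D) with hE
  have hE0 : ∀ d, 0 ≤ E d := fun d => eta_nonneg _ _ _ (Jm_nonneg S D) (Mm_nonneg S hZ D d)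
    (Lm_nonneg S hZ D d) _ hy2
  have key := fun d => lor_chain (Jm S D) (Jm_symm S D) (Jm_nonneg S D) (bv S D) (yv S Z k D)
    (Jm_psd S D) hy2 hθ (Mm S Z D) (Lm S Z D) (Mm_symm S Z D) (Lm_symm S Z D)
    (Mm_nonneg S hZ D) (Lm_nonneg S hZ D) (fun d => 2 * y ^ d) (fun d => by positivity) (2 ^ k)
    g hg0 hg K d
  set c : ℝ := 2 * (yv S Z k D ⬝ᵥ bv S D) ^ 2 / (yv S Z k D ⬝ᵥ (Jm S D *ᵥ yv S Z k D)) with hcdef
  set H : ℝ := ∑ d ∈ Ico (2 ^ k) (2 ^ (k + 1)), E d with hHdef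
  have hc0 : 0 ≤ c := by positivity
  have hpow : ∀ i, 2 ^ k ≤ i → y ^ i ≤ y ^ (2 ^ k) := fun i hi =>
    pow_le_pow_of_le_one hy0 hy1 hi
  have hyN : 0 ≤ y ^ (2 ^ k) := by positivity
  have hprod : ∀ d ∈ Ico (2 ^ k) (2 ^ (k + 1)),
      ∏ i ∈ Ico (2 ^ k) d, (1 + 2 * y ^ i * E i) ≤ Real.exp (2 * y ^ (2 ^ k) * H) := by
    intro d hd
    rw [Finset.mem_Ico] at hd
    have h1 : ∏ i ∈ Ico (2 ^ k) d, (1 + 2 * y ^ i * E i) ≤
        ∏ i ∈ Ico (2 ^ k) d, Real.exp (2 * y ^ (2 ^ k) * E i) := by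
      refine Finset.prod_le_prod (fun i _ => ?_) fun i hi => ?_
      · have := hE0 i
        positivity
      · rw [Finset.mem_Ico] at hi
        have h2 : 2 * y ^ i * E i ≤ 2 * y ^ (2 ^ k) * E i :=
          mul_le_mul_of_nonneg_right (by linarith [hpow i hi.1]) (hE0 i)
        linarith [Real.add_one_le_exp (2 * y ^ (2 ^ k) * E i)]
    rw [← Real.exp_sum, ← Finset.mul_sum] at h1
    refine h1.trans (Real.exp_le_exp.2 (mul_le_mul_of_nonneg_left ?_ (by positivity)))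
    exact Finset.sum_le_sum_of_subset_of_nonneg
      (Finset.Ico_subset_Ico le_rfl hd.2.le) fun i _ _ => hE0 i
  have hmain : ∑ d ∈ Ico (2 ^ k) (2 ^ (k + 1)), y ^ d * ∑ a ∈ range (D + 1), ∑ a' ∈ range (D + 1),
      S.b a * Bm S Z D d a a' *
        chR D (2 ^ k) y S.b (fun r s => 2 * S.J r s) (Bm S Z D) K d a' ≤
      ∑ d ∈ Ico (2 ^ k) (2 ^ (k + 1)),
        y ^ (2 ^ k) * (32 * (2 ^ k) ^ 2) * Real.exp (2 * y ^ (2 ^ k) * H) * E d := by
    refine Finset.sum_le_sum fun d hd => ?_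
    rw [hdot]
    have h1 := key d
    have h2 := hprod d hd
    have h3 : 0 ≤ ∏ i ∈ Ico (2 ^ k) d, (1 + 2 * y ^ i * E i) :=
      Finset.prod_nonneg fun i _ => by
        have := hE0 i
        positivity
    have h4 : E d * c * ∏ i ∈ Ico (2 ^ k) d, (1 + 2 * y ^ i * E i) ≤
        E d * (32 * (2 ^ k) ^ 2) * Real.exp (2 * y ^ (2 ^ k) * H) := by
      have h5 := hE0 d
      exact mul_le_mul (mul_le_mul_of_nonneg_left hc h5) h2 h3 (by positivity)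
    have h6 : bv S D ⬝ᵥ ((Mm S Z D d + Lm S Z D d) *ᵥ g K d) ≤
        E d * (32 * (2 ^ k) ^ 2) * Real.exp (2 * y ^ (2 ^ k) * H) := h1.trans h4
    have h7 : 0 ≤ E d * (32 * (2 ^ k : ℝ) ^ 2) * Real.exp (2 * y ^ (2 ^ k) * H) := by
      have h5 := hE0 d
      positivity
    rw [Finset.mem_Ico] at hd
    calc y ^ d * (bv S D ⬝ᵥ ((Mm S Z D d + Lm S Z D d) *ᵥ g K d))
        ≤ y ^ d * (E d * (32 * (2 ^ k) ^ 2) * Real.exp (2 * y ^ (2 ^ k) * H)) :=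
          mul_le_mul_of_nonneg_left h6 (by positivity)
      _ ≤ y ^ (2 ^ k) * (E d * (32 * (2 ^ k) ^ 2) * Real.exp (2 * y ^ (2 ^ k) * H)) :=
          mul_le_mul_of_nonneg_right (hpow d hd.1) h7
      _ = y ^ (2 ^ k) * (32 * (2 ^ k) ^ 2) * Real.exp (2 * y ^ (2 ^ k) * H) * E d := by ring
  refine hmain.trans ?_
  rw [← Finset.mul_sum]
  have hs : Real.sqrt (2 ^ k) ≤ 2 ^ k := by
    have h1 : (1 : ℝ) ≤ 2 ^ k := one_le_pow₀ (by norm_num)
    rw [Real.sqrt_le_left (by positivity)]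
    nlinarith
  have hs0 : 0 ≤ Real.sqrt (2 ^ k) := Real.sqrt_nonneg _
  have hH0 : 0 ≤ H := Finset.sum_nonneg fun d _ => hE0 d
  have e1 : Real.exp (2 * y ^ (2 ^ k) * H) ≤
      Real.exp (32 * C * Real.sqrt (2 ^ k) * y ^ (2 ^ k)) := by
    apply Real.exp_le_exp.2
    have h1 : 2 * y ^ (2 ^ k) * H ≤ 2 * y ^ (2 ^ k) * (C * Real.sqrt (2 ^ k)) :=
      mul_le_mul_of_nonneg_left hH (by positivity)
    have h2 : 0 ≤ 30 * (C * Real.sqrt (2 ^ k) * y ^ (2 ^ k)) := by positivity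
    linarith
  have e2 : H ≤ C * 2 ^ k := hH.trans (mul_le_mul_of_nonneg_left hs hC.le)
  calc y ^ (2 ^ k) * (32 * (2 ^ k) ^ 2) * Real.exp (2 * y ^ (2 ^ k) * H) * H
      ≤ y ^ (2 ^ k) * (32 * (2 ^ k) ^ 2) *
          Real.exp (32 * C * Real.sqrt (2 ^ k) * y ^ (2 ^ k)) * (C * 2 ^ k) :=
        mul_le_mul (mul_le_mul_of_nonneg_left e1 (by positivity)) e2 hH0 (by positivity)
    _ = 32 * C * 2 ^ (3 * k) * y ^ (2 ^ k) *
          Real.exp (32 * C * Real.sqrt (2 ^ k) * y ^ (2 ^ k)) := by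
        rw [show 3 * k = k * 3 by ring, pow_mul]
        ring

end Pool.Agent.ZLF
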