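import Pool.Agent.ZLF.OwnDec
import Pool.Agent.ZCS.CrA
import Pool.Agent.ZCS.GpB

/-!
Module CDec: pairs of cobridges, decomposed at their last common renewal level.

PAPER PROOF. `cob_dec` is `pair_dec` (ZCS/PDec, copy that file) for cobridges: the map `(l, a, b) ↦ (a.1 ++ b.1, a.2 ++ b.2)` from the
disjoint union over `l ≤ min r s` of `CC t l × NCC t (r - l) (s - l)` to `CB t r × CB t s` is a bijection: `CB_append`; `l` is determined:
a common renewal level `l + i`, `i >= 1`, of the image would be a common renewal level `i` of `b` (`Rn_append`), and `i ≤ r - l` by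
`CB_split` as `b.1 ∈ CB t (r - l)`; then `Rn_unique`; every pair is in the image: take the greatest `l ≤ min r s` with
`Rn t l P ∧ Rn t l Q` and `CB_split`.
`cc_dec`: `F = 1` (`s1_one`, `gf_CB`, `sp_one`, `sp_CC_one`, `sp_const_mul`). `g2_le`: `F x x' = if Sg t r x x' then 1 else 0`;
`Sg t r (a.1 ++ b.1) (a.2 ++ b.2) ↔ Sg t l a.1 a.2` by `Sg_app` (ZCS/CrA) with `n = r`; so the term is
`gf2 (GP t l) (zc t) * cc t (r - l) (s - l)`, and `gf2 (GP t l) (zc t) <= 2 * ew t l` (`gp_le`, ZCS/GpB).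
-/

namespace Pool.Agent.ZLF

open Pool.Agent.SHP Pool.Agent.ZHW Pool.Agent.ZCS Finset
open scoped ENNReal NNReal

variable {t : Bool}

private theorem CDec_Rn_zero {P : Wd} (hP : Ri P) : Rn t 0 P :=
  ⟨[], P, rfl, by rw [CB_zero]; rfl, hP⟩

private theorem CDec_lt {r s l l' : ℕ} (hl' : l' ≤ min r s) {a b a' b' : Wd × Wd} (ha : a ∈ CC t l)
    (hb : b ∈ NCC t (r - l) (s - l)) (ha' : a' ∈ CC t l') (hb' : b' ∈ NCC t (r - l') (s - l'))
    (h1 : a.1 ++ b.1 = a'.1 ++ b'.1) (h2 : a.2 ++ b.2 = a'.2 ++ b'.2) : ¬ l < l' := by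
  intro hlt
  have hr : l' ≤ r := hl'.trans (min_le_left _ _)
  have e : l' = l + (l' - l) := by omega
  have g1 : Rn t (l + (l' - l)) (a.1 ++ b.1) := by
    rw [← e, h1]
    exact ⟨a'.1, b'.1, rfl, ha'.1, hb'.1.2.1⟩
  have g2 : Rn t (l + (l' - l)) (a.2 ++ b.2) := by
    rw [← e, h2]
    exact ⟨a'.2, b'.2, rfl, ha'.2, hb'.2.1.2.1⟩
  exact hb.2.2 (l' - l) (by omega) (by omega)
    ⟨(Rn_append ha.1 hb.1.2.1).1 g1, (Rn_append ha.2 hb.2.1.2.1).1 g2⟩

theorem cob_dec (r s : ℕ) (F : Wd → Wd → ℝ≥0∞) :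
    s1 t (CB t r) (fun x => s1 t (CB t s) (fun x' => F x x')) =
      ∑ l ∈ range (min r s + 1), sp t (CC t l) (fun a => sp t (NCC t (r - l) (s - l))
        (fun b => F (a.1 ++ b.1) (a.2 ++ b.2))) := by
  classical
  let S : Type := Σ l : Fin (min r s + 1), (CC t (l : ℕ) × NCC t (r - l) (s - l))
  have hmem : ∀ x : S, (x.2.1 : Wd × Wd).1 ++ (x.2.2 : Wd × Wd).1 ∈ CB t r ∧
      (x.2.1 : Wd × Wd).2 ++ (x.2.2 : Wd × Wd).2 ∈ CB t s := by
    rintro ⟨l, a, b⟩
    have hl : (l : ℕ) ≤ min r s := by have := l.2; omega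
    have hlr : (l : ℕ) ≤ r := hl.trans (min_le_left _ _)
    have hls : (l : ℕ) ≤ s := hl.trans (min_le_right _ _)
    have e1 : (l : ℕ) + (r - l) = r := by omega
    have e2 : (l : ℕ) + (s - l) = s := by omega
    have g1 := CB_append a.2.1 b.2.1
    have g2 := CB_append a.2.2 b.2.2.1
    rw [e1] at g1
    rw [e2] at g2
    exact ⟨g1, g2⟩
  let f : S → CB t r × CB t s := fun x => (⟨_, (hmem x).1⟩, ⟨_, (hmem x).2⟩)
  have hf : Function.Bijective f := by
    constructor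
    · rintro ⟨l, a, b⟩ ⟨l', a', b'⟩ he
      have h1 : (a : Wd × Wd).1 ++ (b : Wd × Wd).1 = (a' : Wd × Wd).1 ++ (b' : Wd × Wd).1 :=
        congrArg (fun x => (x.1 : Wd)) he
      have h2 : (a : Wd × Wd).2 ++ (b : Wd × Wd).2 = (a' : Wd × Wd).2 ++ (b' : Wd × Wd).2 :=
        congrArg (fun x => (x.2 : Wd)) he
      have hl : (l : ℕ) ≤ min r s := by have := l.2; omega
      have hl' : (l' : ℕ) ≤ min r s := by have := l'.2; omega
      have k1 := CDec_lt hl' a.2 b.2 a'.2 b'.2 h1 h2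
      have k2 := CDec_lt hl a'.2 b'.2 a.2 b.2 h1.symm h2.symm
      have hll : l = l' := Fin.ext (by omega)
      subst hll
      obtain ⟨x1, y1⟩ := Rn_unique h1 a.2.1 a'.2.1 b.2.1.2.1 b'.2.1.2.1
      obtain ⟨x2, y2⟩ := Rn_unique h2 a.2.2 a'.2.2 b.2.2.1.2.1 b'.2.2.1.2.1
      have ea : a = a' := Subtype.ext (Prod.ext x1 x2)
      have eb : b = b' := Subtype.ext (Prod.ext y1 y2)
      rw [ea, eb]
    · rintro ⟨⟨P, hP⟩, ⟨Q, hQ⟩⟩
      let p : ℕ → Prop := fun i => Rn t i P ∧ Rn t i Q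
      have h0 : p 0 := ⟨CDec_Rn_zero hP.2.1, CDec_Rn_zero hQ.2.1⟩
      have hsp : p (Nat.findGreatest p (min r s)) := Nat.findGreatest_spec (Nat.zero_le _) h0
      have hle : Nat.findGreatest p (min r s) ≤ min r s := Nat.findGreatest_le _
      have hgr : ∀ k, Nat.findGreatest p (min r s) < k → k ≤ min r s → ¬ p k := fun k hk hk' =>
        Nat.findGreatest_is_greatest hk hk'
      generalize Nat.findGreatest p (min r s) = l at hsp hle hgr
      have hlr : l ≤ r := hle.trans (min_le_left _ _)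
      have hls : l ≤ s := hle.trans (min_le_right _ _)
      obtain ⟨⟨u, v, e1, hu, hv⟩, ⟨u', v', e2, hu', hv'⟩⟩ := hsp
      have w1 := (CB_split hP e1 hu hv).2
      have w2 := (CB_split hQ e2 hu' hv').2
      have hnc : NC t (r - l) (v, v') := by
        intro i hi hin hc
        obtain ⟨x, y, e3, hx, hy⟩ := hc.2
        have his : i ≤ s - l := (CB_split w2 e3 hx hy).1
        refine hgr (l + i) (by omega) (le_min (by omega) (by omega)) ⟨?_, ?_⟩
        · rw [e1]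
          exact (Rn_append hu hv).2 hc.1
        · rw [e2]
          exact (Rn_append hu' hv').2 hc.2
      refine ⟨⟨⟨l, by omega⟩, ⟨(u, u'), hu, hu'⟩, ⟨(v, v'), w1, w2, hnc⟩⟩, ?_⟩
      exact Prod.ext (Subtype.ext e1.symm) (Subtype.ext e2.symm)
  have h1 : s1 t (CB t r) (fun P => s1 t (CB t s) (fun Q => F P Q)) =
      ∑' p : CB t r × CB t s, (zc t : ℝ≥0∞) ^ ((p.1 : Wd).length + (p.2 : Wd).length) * F p.1 p.2 := by
    unfold s1
    rw [ENNReal.tsum_prod (f := fun (P : CB t r) (Q : CB t s) =>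
      (zc t : ℝ≥0∞) ^ ((P : Wd).length + (Q : Wd).length) * F P Q)]
    refine tsum_congr fun P => ?_
    rw [← ENNReal.tsum_mul_left]
    refine tsum_congr fun Q => ?_
    rw [pow_add, mul_assoc]
  have h2 : (∑ l ∈ range (min r s + 1), sp t (CC t l) (fun a => sp t (NCC t (r - l) (s - l))
        (fun b => F (a.1 ++ b.1) (a.2 ++ b.2)))) =
      ∑' x : S, (zc t : ℝ≥0∞) ^ (((f x).1 : Wd).length + ((f x).2 : Wd).length) * F (f x).1 (f x).2 := by
    rw [ENNReal.tsum_sigma', tsum_fintype, Finset.sum_range]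
    refine Finset.sum_congr rfl fun l _ => ?_
    unfold sp
    rw [ENNReal.tsum_prod']
    refine tsum_congr fun a => ?_
    rw [← ENNReal.tsum_mul_left]
    refine tsum_congr fun b => ?_
    have e : ((f ⟨l, a, b⟩).1 : Wd).length + ((f ⟨l, a, b⟩).2 : Wd).length =
        ((a : Wd × Wd).1.length + (a : Wd × Wd).2.length) + ((b : Wd × Wd).1.length + (b : Wd × Wd).2.length) := by
      simp only [f, List.length_append]
      ring
    rw [e, ← mul_assoc, ← pow_add]
  rw [h1, h2]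
  exact ((Equiv.ofBijective f hf).tsum_eq
    (fun p : CB t r × CB t s => (zc t : ℝ≥0∞) ^ ((p.1 : Wd).length + (p.2 : Wd).length) * F p.1 p.2)).symm

private theorem CDec_sp_congr {A : Set (Wd × Wd)} {F G : Wd × Wd → ℝ≥0∞} (h : ∀ p ∈ A, F p = G p) :
    sp t A F = sp t A G := by
  unfold sp
  exact tsum_congr (fun p => by rw [h p p.2])

private theorem CDec_sp_const (A : Set (Wd × Wd)) (c : ℝ≥0∞) : sp t A (fun _ => c) = c * gf2 A (zc t) := by
  have h := sp_const_mul (t := t) A c (fun _ => 1)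
  rw [sp_one] at h
  rw [← h]
  exact CDec_sp_congr (fun _ _ => (mul_one c).symm)

open Classical in
private theorem CDec_sp_ite (r : ℕ) (T : ℝ≥0∞) :
    sp t (CC t r) (fun a => if Sg t r a.1 a.2 then T else 0) = gf2 (GP t r) (zc t) * T := by
  unfold sp gf2
  rw [← ENNReal.tsum_mul_right,
    tsum_subtype (CC t r) (fun p : Wd × Wd => (zc t : ℝ≥0∞) ^ (p.1.length + p.2.length) *
      (if Sg t r p.1 p.2 then T else 0)),
    tsum_subtype (GP t r) (fun p : Wd × Wd => (zc t : ℝ≥0∞) ^ (p.1.length + p.2.length) * T)]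
  refine tsum_congr (fun p => ?_)
  by_cases hC : p ∈ CC t r
  · by_cases hS : Sg t r p.1 p.2
    · rw [Set.indicator_of_mem hC, Set.indicator_of_mem (show p ∈ GP t r from ⟨hC, hS⟩), if_pos hS]
    · rw [Set.indicator_of_mem hC, Set.indicator_of_notMem (fun h : p ∈ GP t r => hS h.2), if_neg hS, mul_zero]
  · rw [Set.indicator_of_notMem hC, Set.indicator_of_notMem (fun h : p ∈ GP t r => hC h.1)]

theorem cc_dec (r s : ℕ) : be t (zc t) r * be t (zc t) s =
    ∑ l ∈ range (min r s + 1), (be t (zc t) l) ^ 2 * cc t (r - l) (s - l) := by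
  have h := cob_dec (t := t) r s (fun _ _ => 1)
  have h1 : s1 t (CB t r) (fun _ => s1 t (CB t s) (fun _ => 1)) = be t (zc t) r * be t (zc t) s := by
    have e : ∀ c : ℝ≥0∞, s1 t (CB t r) (fun _ => c) = gf (CB t r) (zc t) * c := by
      intro c
      unfold s1 gf
      rw [ENNReal.tsum_mul_right]
    have e' : s1 t (CB t s) (fun _ => 1) = gf (CB t s) (zc t) := by
      unfold s1 gf
      exact tsum_congr fun l => mul_one _
    rw [e, e', gf_CB, gf_CB]
  rw [h1] at h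
  rw [h]
  refine Finset.sum_congr rfl fun l _ => ?_
  rw [sp_one, CDec_sp_const, sp_CC_one, mul_comm]
  rfl

open Classical in
theorem g2_eq (r s : ℕ) : g2 t r s =
    s1 t (CB t r) (fun x => s1 t (CB t s) (fun x' => if Sg t r x x' then 1 else 0)) := by
  have h1 : s1 t (CB t r) (fun P => s1 t (CB t s) (fun Q => if Sg t r P Q then (1 : ℝ≥0∞) else 0)) =
      ∑' p : CB t r × CB t s, (zc t : ℝ≥0∞) ^ ((p.1 : Wd).length + (p.2 : Wd).length) *
        (if Sg t r p.1 p.2 then (1 : ℝ≥0∞) else 0) := by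
    unfold s1
    rw [ENNReal.tsum_prod (f := fun (P : CB t r) (Q : CB t s) =>
      (zc t : ℝ≥0∞) ^ ((P : Wd).length + (Q : Wd).length) * (if Sg t r P Q then (1 : ℝ≥0∞) else 0))]
    refine tsum_congr fun P => ?_
    rw [← ENNReal.tsum_mul_left]
    refine tsum_congr fun Q => ?_
    rw [pow_add, mul_assoc]
  have h2 : (∑' p : CB t r × CB t s, (zc t : ℝ≥0∞) ^ ((p.1 : Wd).length + (p.2 : Wd).length) *
        (if Sg t r p.1 p.2 then (1 : ℝ≥0∞) else 0)) =
      ∑' p : (CB t r ×ˢ CB t s : Set (Wd × Wd)), (zc t : ℝ≥0∞) ^ ((p : Wd × Wd).1.length + (p : Wd × Wd).2.length) *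
        (if Sg t r (p : Wd × Wd).1 (p : Wd × Wd).2 then (1 : ℝ≥0∞) else 0) := by
    exact ((Equiv.Set.prod (CB t r) (CB t s)).tsum_eq (fun p : CB t r × CB t s =>
      (zc t : ℝ≥0∞) ^ ((p.1 : Wd).length + (p.2 : Wd).length) *
        (if Sg t r p.1 p.2 then (1 : ℝ≥0∞) else 0))).symm
  rw [h1, h2]
  unfold g2 gf2
  rw [tsum_subtype (CB t r ×ˢ CB t s : Set (Wd × Wd)) (fun p : Wd × Wd =>
      (zc t : ℝ≥0∞) ^ (p.1.length + p.2.length) * (if Sg t r p.1 p.2 then (1 : ℝ≥0∞) else 0)),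
    tsum_subtype (GG t r s) (fun p : Wd × Wd => (zc t : ℝ≥0∞) ^ (p.1.length + p.2.length))]
  refine tsum_congr (fun p => ?_)
  by_cases hC : p ∈ (CB t r ×ˢ CB t s : Set (Wd × Wd))
  · by_cases hS : Sg t r p.1 p.2
    · rw [Set.indicator_of_mem hC, Set.indicator_of_mem (show p ∈ GG t r s from ⟨hC.1, hC.2, hS⟩), if_pos hS,
        mul_one]
    · rw [Set.indicator_of_mem hC, Set.indicator_of_notMem (fun h : p ∈ GG t r s => hS h.2.2), if_neg hS, mul_zero]
  · rw [Set.indicator_of_notMem hC, Set.indicator_of_notMem (fun h : p ∈ GG t r s => hC ⟨h.1, h.2.1⟩)]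

theorem g2_le (r s : ℕ) : g2 t r s ≤ 2 * ∑ l ∈ range (min r s + 1), ew t l * cc t (r - l) (s - l) := by
  classical
  rw [g2_eq, cob_dec (t := t) r s (fun x x' => if Sg t r x x' then 1 else 0), Finset.mul_sum]
  refine Finset.sum_le_sum fun l hl => ?_
  have hl' : l ≤ min r s := by
    have := Finset.mem_range.1 hl
    omega
  have hlr : l ≤ r := hl'.trans (min_le_left _ _)
  have h1 : sp t (CC t l) (fun a => sp t (NCC t (r - l) (s - l))
      (fun b => if Sg t r (a.1 ++ b.1) (a.2 ++ b.2) then (1 : ℝ≥0∞) else 0)) =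
      sp t (CC t l) (fun a => if Sg t l a.1 a.2 then cc t (r - l) (s - l) else 0) := by
    refine CDec_sp_congr (fun a ha => ?_)
    by_cases hS : Sg t l a.1 a.2
    · rw [if_pos hS]
      unfold cc
      rw [← sp_one]
      refine CDec_sp_congr (fun b hb => ?_)
      rw [if_pos ((Sg_app hlr ha.1 ha.2 hb.1.2.1 hb.2.1.2.1 hb.2.2).2 hS)]
    · rw [if_neg hS]
      have h0 : sp t (NCC t (r - l) (s - l))
          (fun b => if Sg t r (a.1 ++ b.1) (a.2 ++ b.2) then (1 : ℝ≥0∞) else 0) =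
          sp t (NCC t (r - l) (s - l)) (fun _ => 0) := by
        refine CDec_sp_congr (fun b hb => ?_)
        rw [if_neg (fun hh => hS ((Sg_app hlr ha.1 ha.2 hb.1.2.1 hb.2.1.2.1 hb.2.2).1 hh))]
      rw [h0]
      unfold sp
      simp
  rw [h1, CDec_sp_ite, ← mul_assoc]
  exact mul_le_mul_left (gp_le (zc t) l) _

end Pool.Agent.ZLF
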