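import Pool.Agent.ZLF.TwoDec
import Pool.Agent.ZLF.CDec

/-!
Module ChainM: the chains of one scale are products of matrices.

PAPER PROOF. (1) For `Y = x ++ (M ++ fl t x')`, `x ∈ CB t a`, `M ∈ MW t (d - a - a') (D - a) (D - a')`, `x' ∈ CB t a'`, `a, a' ≤ D`,
`2 * D ≤ lo ≤ d`: `fl t Y = x' ++ (fl t M ++ fl t x)` (`fl_append`, `fl_fl`), where `Ri (fl t M ++ fl t x)` and `NR t (D - a') (fl t M ++ fl t x)`
(`fl_WB`, `fl_BT`, `Rn_tail_iff` as `D - a' ≤ d - a - a'`); so `Wc t D lo y K d Y = Wc t D lo y K d (fl t x')` (`K = 0` trivial; `K + 1`: only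
the condition `Sg t D (fl t Y) Y'` at the top depends on `Y`, `Sg_near_left`, `fl_fl`). (2) Similarly for `x0 ∈ CB t r`, `r ≤ D`:
`Sg t D x0 Y ↔ Sg t D x0 x ↔ Sg t r x0 x` (`Sg_near_right` with `w = M ++ fl t x'`: `Ri`, `NR t (D - a) w` by `Rn_tail_iff`; `Sg_cut`).
(3) `chain_sm`: `two_dec` with `α = β = D`, `k = d`, (1): the term `(a, a')` is
`be a * w1 (d - a - a') (D - a) (D - a') * s1 (CB a') (x' ↦ Wc t D lo y K d (fl t x'))` (`s1_const_mul`, `s1_mul_const`, `s1_one`, `gf_CB`), then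
`chain_vec` for `r = a'`.
(4) `chain_vec`: induction on `K` for all `h`, `r`. `K = 0`: `s1_one`, `gf_CB`. `K + 1`: `Wc t D lo y (K + 1) h (fl t x0) = 1 + ∑ d ∈ Ico lo h, y ^ d *
sm t d (Y ↦ if Sg t D x0 Y then Wc K d Y else 0)` (`fl_fl`); by `two_dec`, (1), (2) the `sm` is
`∑ a a', s1 (CB a) (x ↦ if Sg t r x0 x then 1 else 0) * w1 .. * s1 (CB a') (x' ↦ Wc K d (fl t x'))`; sum over `x0 ∈ CB t r` (`g2_eq` of the
module CDec) and use the induction hypothesis for `r = a'`.
-/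

namespace Pool.Agent.ZLF

open Pool.Agent.SHP Pool.Agent.ZHW Pool.Agent.ZCS Finset
open scoped ENNReal NNReal

variable {t : Bool}

/-- The middle parts of a strand of width `d` with end parts of widths `a`, `a'`. -/
noncomputable def Wm (t : Bool) (D d a a' : ℕ) : ℝ≥0∞ := w1 t (d - a - a') (D - a) (D - a')

private theorem ChainM_Ri {u v : Wd} (hu : Ri u) (h0 : 0 ≤ u.sum.1) (hv : Ri v) : Ri (u ++ v) := by
  intro a b hab
  rcases List.append_eq_append_iff.1 hab with ⟨c, hc1, hc2⟩ | ⟨c, hc1, hc2⟩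
  · rw [hc1, List.sum_append, Prod.fst_add]
    have h1 := hv c b hc2
    omega
  · exact hu a c hc1

private theorem ChainM_tail {k r p : ℕ} {Z W : Wd} (hZ : Z ∈ WB t k) (hW : W ∈ BT t r) (hp : p ≤ k)
    (hN : NR t p Z) : Ri (Z ++ W) ∧ NR t p (Z ++ W) := by
  refine ⟨ChainM_Ri hZ.2.1 ?_ (BT_WB hW).2.1, ?_⟩
  · rw [hZ.2.2.2]
    positivity
  · intro i h1 h2 h3
    exact hN i h1 h2 ((Rn_tail_iff hZ hW (h2.trans hp)).1 h3)

private theorem ChainM_Wc {D lo : ℕ} (hD : 2 * D ≤ lo) (y : ℝ≥0∞) (K : ℕ) {d a a' : ℕ} (hd : lo ≤ d)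
    (ha : a ≤ D) (ha' : a' ≤ D) {x M x' : Wd} (hx : x ∈ CB t a) (hM : M ∈ MW t (d - a - a') (D - a) (D - a'))
    (hx' : x' ∈ CB t a') : Wc t D lo y K d (x ++ (M ++ fl t x')) = Wc t D lo y K d (fl t x') := by
  classical
  cases K with
  | zero => rfl
  | succ K =>
    have hk : fl t (x ++ (M ++ fl t x')) = x' ++ (fl t M ++ fl t x) := by
      rw [fl_append, fl_append, fl_fl, List.append_assoc]
    obtain ⟨h1, h2⟩ := ChainM_tail (p := D - a') (fl_WB hM.1) (fl_BT hx) (by omega) hM.2.2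
    have hS : ∀ Y : Wd, Sg t D (fl t (x ++ (M ++ fl t x'))) Y ↔ Sg t D (fl t (fl t x')) Y := by
      intro Y
      rw [hk, fl_fl]
      exact Sg_near_left Y ha' hx' h1 h2
    simp only [Wc]
    refine congrArg _ (Finset.sum_congr rfl fun e _ => congrArg _ (sm_congr fun Y _ => ?_))
    exact if_congr (hS Y) rfl rfl

private theorem ChainM_Sg {D lo d a a' r : ℕ} (hD : 2 * D ≤ lo) (hd : lo ≤ d)
    (ha : a ≤ D) (ha' : a' ≤ D) (hr : r ≤ D) {x M x' x0 : Wd} (hx : x ∈ CB t a)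
    (hM : M ∈ MW t (d - a - a') (D - a) (D - a'))
    (hx' : x' ∈ CB t a') (hx0 : x0 ∈ CB t r) : Sg t D x0 (x ++ (M ++ fl t x')) ↔ Sg t r x0 x := by
  obtain ⟨h1, h2⟩ := ChainM_tail (p := D - a) hM.1 (fl_BT hx') (by omega) hM.2.1
  exact (Sg_near_right x0 ha hx h1 h2).trans (Sg_cut x hr hx0)

private theorem s1_const_mul_one_ChainM (A : Set Wd) (c : ℝ≥0∞) : s1 t A (fun _ => c) = gf A (zc t) * c := by
  have h := s1_mul_const (t := t) A c (fun _ => 1)
  simp only [one_mul] at h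
  rw [h, s1_one]

theorem chain_vec {D lo : ℕ} (hD : 2 * D ≤ lo) (y : ℝ≥0∞) (K h r : ℕ) (hr : r ≤ D) :
    s1 t (CB t r) (fun x => Wc t D lo y K h (fl t x)) ≤ ch D lo y (be t (zc t)) (g2 t) (Wm t D) K h r := by
  classical
  induction K generalizing h r with
  | zero =>
    simp only [Wc, ch]
    rw [s1_one, gf_CB]
  | succ K ih =>
    simp only [Wc, ch, fl_fl]
    rw [s1_add, s1_one, gf_CB, s1_sum]
    refine add_le_add le_rfl (Finset.sum_le_sum fun d hd => ?_)
    rw [Finset.mem_Ico] at hd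
    rw [s1_const_mul]
    refine mul_le_mul_right ?_ _
    have key : ∀ x0 ∈ CB t r, sm t d (fun Y => if Sg t D x0 Y then Wc t D lo y K d Y else 0) =
        ∑ a ∈ range (D + 1), ∑ a' ∈ range (D + 1),
          s1 t (CB t a) (fun x => if Sg t r x0 x then 1 else 0) *
            (Wm t D d a a' * s1 t (CB t a') (fun x' => Wc t D lo y K d (fl t x'))) := by
      intro x0 hx0
      rw [two_dec (k := d) (α := D) (β := D) (by omega)]
      refine Finset.sum_congr rfl fun a ha => Finset.sum_congr rfl fun a' ha' => ?_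
      rw [Finset.mem_range] at ha ha'
      rw [← s1_mul_const]
      refine s1_congr fun x hx => ?_
      have h2 : ∀ M ∈ MW t (d - a - a') (D - a) (D - a'),
          s1 t (CB t a') (fun x' => if Sg t D x0 (x ++ (M ++ fl t x')) then
            Wc t D lo y K d (x ++ (M ++ fl t x')) else 0) =
          (if Sg t r x0 x then 1 else 0) * s1 t (CB t a') (fun x' => Wc t D lo y K d (fl t x')) := by
        intro M hM
        rw [← s1_const_mul]
        refine s1_congr fun x' hx' => ?_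
        rw [ChainM_Wc hD y K hd.1 (by omega) (by omega) hx hM hx']
        simp only [ChainM_Sg hD hd.1 (by omega : a ≤ D) (by omega : a' ≤ D) hr hx hM hx' hx0]
        split_ifs <;> simp
      rw [s1_congr h2, s1_const_mul_one_ChainM]
      unfold Wm w1
      ring
    rw [s1_congr key, s1_sum]
    refine Finset.sum_le_sum fun a ha => ?_
    rw [s1_sum]
    refine Finset.sum_le_sum fun a' ha' => ?_
    rw [Finset.mem_range] at ha ha'
    rw [s1_mul_const, ← g2_eq, ← mul_assoc]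
    exact mul_le_mul_right (ih d a' (by omega)) _

theorem chain_sm {D lo : ℕ} (hD : 2 * D ≤ lo) (y : ℝ≥0∞) (K d : ℕ) (hd : lo ≤ d) :
    sm t d (Wc t D lo y K d) ≤ ∑ a ∈ range (D + 1), ∑ a' ∈ range (D + 1),
      be t (zc t) a * Wm t D d a a' * ch D lo y (be t (zc t)) (g2 t) (Wm t D) K d a' := by
  rw [two_dec (k := d) (α := D) (β := D) (by omega)]
  refine Finset.sum_le_sum fun a ha => Finset.sum_le_sum fun a' ha' => ?_
  rw [Finset.mem_range] at ha ha'
  have h1 : s1 t (CB t a) (fun x => s1 t (MW t (d - a - a') (D - a) (D - a')) (fun M =>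
      s1 t (CB t a') (fun x' => Wc t D lo y K d (x ++ (M ++ fl t x'))))) =
      be t (zc t) a * Wm t D d a a' * s1 t (CB t a') (fun x' => Wc t D lo y K d (fl t x')) := by
    have h2 : ∀ x ∈ CB t a, s1 t (MW t (d - a - a') (D - a) (D - a')) (fun M =>
        s1 t (CB t a') (fun x' => Wc t D lo y K d (x ++ (M ++ fl t x')))) =
        Wm t D d a a' * s1 t (CB t a') (fun x' => Wc t D lo y K d (fl t x')) := by
      intro x hx
      have h3 : ∀ M ∈ MW t (d - a - a') (D - a) (D - a'),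
          s1 t (CB t a') (fun x' => Wc t D lo y K d (x ++ (M ++ fl t x'))) =
          s1 t (CB t a') (fun x' => Wc t D lo y K d (fl t x')) := fun M hM =>
        s1_congr fun x' hx' => ChainM_Wc hD y K hd (by omega) (by omega) hx hM hx'
      rw [s1_congr h3, s1_const_mul_one_ChainM]
      rfl
    rw [s1_congr h2, s1_const_mul_one_ChainM, gf_CB, mul_assoc]
  rw [h1]
  exact mul_le_mul_right (chain_vec hD y K d a' (by omega)) _

end Pool.Agent.ZLF
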