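import Pool.Agent.ZLF.Defs
import Pool.Agent.ZCS.LadC
import Pool.Agent.ZCS.GpB
import Pool.Agent.ZCS.RenGe

/-!
Module Ew: the masses of the positive block sequences.

PAPER PROOF. Put `c i δ = gf2 (IPd t i δ) (zc t)`. `ew_zero`: `gw_zero`. `ew_conv`: `lad_conv` (ZCS/LadC) with `u r = (be t (zc t) r) ^ 2`
(`be_zero`, `ren_eq`, `ipd_sum`, `ipd_symm`). `ew_last`: for all `r`, `x`: `gw c (r + 1) x ≤ ∑ i ≤ r, C i * gw c (r - i) x` with `C i = ∑' δ, c i δ`
(remove the last block), by strong induction on `r`: `gw_succ`; the term `i = r` of `gw c (r + 1) x` is `≤ C r = C r * gw c 0 x`; for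
`i < r`, `0 < x + δ`: `gw c (r - i) (x + δ) ≤ ∑ j ≤ r - i - 1, C j * gw c (r - i - 1 - j) (x + δ)` by induction, and exchanging the
sums, for `j ≤ r - 1` the factor of `C j` is `∑ i ≤ r - 1 - j, ∑' δ, [0 < x + δ] c i δ * gw c (r - 1 - j - i) (x + δ) = gw c (r - j) x`
(`gw_succ` with `r - j = (r - 1 - j) + 1`).
-/

namespace Pool.Agent.ZLF

open Pool.Agent.SHP Pool.Agent.ZHW Pool.Agent.ZCS Finset
open scoped ENNReal NNReal

variable {t : Bool}

theorem ew_zero : ew t 0 = 1 := gw_zero _ _

theorem ew_conv (r : ℕ) : ∑ k ∈ range (r + 1), ew t k * ew t (r - k) ≤ (be t (zc t) r) ^ 2 := by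
  have h := lad_conv (fun i δ => gf2 (IPd t i δ) (zc t)) (fun i δ => ipd_symm (zc t) i δ)
    (fun r => (be t (zc t) r) ^ 2) (by simp only [be_zero, one_pow])
    (fun r => by
      simp only [ipd_sum]
      exact ren_eq (zc t) r) r
  exact h

private theorem Ew_tri (f : ℕ → ℕ → ℝ≥0∞) (r : ℕ) :
    ∑ i ∈ range (r + 1), ∑ j ∈ range (r - i + 1), f i j =
      ∑ j ∈ range (r + 1), ∑ i ∈ range (r - j + 1), f i j := by
  rw [Finset.sum_sigma', Finset.sum_sigma']
  refine Finset.sum_bij' (fun p _ => ⟨p.2, p.1⟩) (fun p _ => ⟨p.2, p.1⟩) ?_ ?_ ?_ ?_ ?_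
  · rintro ⟨i, j⟩ h
    simp only [Finset.mem_sigma, Finset.mem_range] at h ⊢
    omega
  · rintro ⟨i, j⟩ h
    simp only [Finset.mem_sigma, Finset.mem_range] at h ⊢
    omega
  · rintro ⟨i, j⟩ _
    rfl
  · rintro ⟨i, j⟩ _
    rfl
  · rintro ⟨i, j⟩ _
    rfl

private theorem Ew_last (c : ℕ → ℤ → ℝ≥0∞) (r : ℕ) : ∀ x : ℤ,
    gw c (r + 1) x ≤ ∑ i ∈ range (r + 1), (∑' δ : ℤ, c i δ) * gw c (r - i) x := by
  induction r using Nat.strong_induction_on with
  | _ r ih =>
    intro x
    cases r with
    | zero =>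
      rw [gw_succ, Finset.sum_range_one, Finset.sum_range_one, Nat.sub_zero, gw_zero, mul_one]
      refine ENNReal.tsum_le_tsum fun δ => ?_
      by_cases h : 0 < x + δ
      · rw [if_pos h, gw_zero, mul_one]
      · rw [if_neg h]
        exact zero_le
    | succ r =>
      rw [gw_succ, Finset.sum_range_succ, Finset.sum_range_succ _ (r + 1)]
      refine add_le_add ?_ ?_
      · have h1 : ∀ i ∈ range (r + 1), (∑' δ : ℤ, if 0 < x + δ then
            c i δ * gw c (r + 1 - i) (x + δ) else 0) ≤
            ∑ j ∈ range (r - i + 1), (∑' d : ℤ, c j d) * ∑' δ : ℤ, if 0 < x + δ then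
              c i δ * gw c (r - i - j) (x + δ) else 0 := by
          intro i hi
          rw [Finset.mem_range] at hi
          have e1 : r + 1 - i = r - i + 1 := by omega
          rw [e1]
          calc (∑' δ : ℤ, if 0 < x + δ then c i δ * gw c (r - i + 1) (x + δ) else 0)
              ≤ ∑' δ : ℤ, ∑ j ∈ range (r - i + 1), (∑' d : ℤ, c j d) *
                  (if 0 < x + δ then c i δ * gw c (r - i - j) (x + δ) else 0) := by
                refine ENNReal.tsum_le_tsum fun δ => ?_
                by_cases h : 0 < x + δ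
                · simp only [h, if_true]
                  refine (mul_le_mul_right (ih (r - i) (by omega) (x + δ)) _).trans (le_of_eq ?_)
                  rw [Finset.mul_sum]
                  refine Finset.sum_congr rfl fun j _ => ?_
                  ring
                · simp [h]
            _ = _ := by
                rw [Summable.tsum_finsetSum (fun i _ => ENNReal.summable)]
                refine Finset.sum_congr rfl fun j _ => ?_
                rw [ENNReal.tsum_mul_left]
        refine (Finset.sum_le_sum h1).trans (le_of_eq ?_)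
        rw [Ew_tri (fun i j => (∑' d : ℤ, c j d) * ∑' δ : ℤ, if 0 < x + δ then
              c i δ * gw c (r - i - j) (x + δ) else 0) r]
        refine Finset.sum_congr rfl fun j hj => ?_
        rw [Finset.mem_range] at hj
        have e1 : r + 1 - j = r - j + 1 := by omega
        rw [e1, gw_succ, Finset.mul_sum]
        refine Finset.sum_congr rfl fun i _ => ?_
        have e2 : r - i - j = r - j - i := by omega
        rw [e2]
      · rw [Nat.sub_self, gw_zero, mul_one]
        refine ENNReal.tsum_le_tsum fun δ => ?_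
        by_cases h : 0 < x + δ
        · rw [if_pos h, gw_zero, mul_one]
        · rw [if_neg h]
          exact zero_le

theorem ew_last (r : ℕ) : ew t (r + 1) ≤ ∑ i ∈ range (r + 1), gf2 (IP t i) (zc t) * ew t (r - i) := by
  have h := Ew_last (fun i δ => gf2 (IPd t i δ) (zc t)) r 0
  simp only [ipd_sum] at h
  exact h

end Pool.Agent.ZLF
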