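import Pool.Agent.ZLF.OwnDec
import Pool.Agent.ZLF.CDec
import Pool.Agent.ZLF.Ew
import Pool.Agent.ZLF.RDefs

/-!
Module DatZ: the masses as real numbers; chains of matrices in `ℝ≥0∞` and in `ℝ`.

PAPER PROOF. `dat`: `S.b r = (be t (zc t) r).toReal` etc., `S.f i = (gf2 (IP t i) (zc t)).toReal`. All masses are finite: `be ≤ 1`
(`be_le_one`), `la i ≤ ∑ ≤ 1` (`la_sum`), `gf2 (IP t i) ≤ 1` (`irr_sum`), `ew r = ew r * ew 0 ≤ be r ^ 2 ≤ 1` (`ew_conv`, `ew_zero`),
`cc r s = be 0 ^ 2 * cc r s ≤ be r * be s ≤ 1` (`cc_dec`, `be_zero`). The fields are `be_zero`, `la_ren`, `la_sum`, `ren_eq` (ZCS/RenGe),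
`irr_sum` (ZHW/Ren), `ew_zero`, `ew_conv`, `ew_last`, `cc_dec` under `ENNReal.toReal` (`ENNReal.toReal_sum`, `ENNReal.toReal_mul`, ..).
`ch_le`: induction on `K` for all `h`, `r ≤ D`; all real numbers are nonnegative (`ENNReal.ofReal_add`, `ENNReal.ofReal_mul`,
`ENNReal.ofReal_sum_of_nonneg`, `ENNReal.ofReal_pow`); `chR_nonneg` likewise.
-/

namespace Pool.Agent.ZLF

open Pool.Agent.SHP Pool.Agent.ZHW Pool.Agent.ZCS Finset
open scoped ENNReal NNReal

private theorem DatZ_be (t : Bool) (r : ℕ) : be t (zc t) r ≤ 1 := be_le_one r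

private theorem DatZ_be_ne (t : Bool) (r : ℕ) : be t (zc t) r ≠ ∞ :=
  ne_top_of_le_ne_top ENNReal.one_ne_top (DatZ_be t r)

private theorem DatZ_la (t : Bool) (i : ℕ) : la t i ≤ 1 :=
  (Finset.single_le_sum (f := fun i => la t i) (fun _ _ => zero_le) (Finset.self_mem_range_succ i)).trans
    (la_sum (i + 1))

private theorem DatZ_la_ne (t : Bool) (i : ℕ) : la t i ≠ ∞ :=
  ne_top_of_le_ne_top ENNReal.one_ne_top (DatZ_la t i)

private theorem DatZ_f (t : Bool) (i : ℕ) : gf2 (IP t i) (zc t) ≤ 1 :=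
  (Finset.single_le_sum (f := fun i => gf2 (IP t i) (zc t)) (fun _ _ => zero_le)
    (Finset.self_mem_range_succ i)).trans (irr_sum (i + 1))

private theorem DatZ_f_ne (t : Bool) (i : ℕ) : gf2 (IP t i) (zc t) ≠ ∞ :=
  ne_top_of_le_ne_top ENNReal.one_ne_top (DatZ_f t i)

private theorem DatZ_ew (t : Bool) (r : ℕ) : ew t r ≤ 1 := by
  have h := (Finset.single_le_sum (f := fun k => ew t k * ew t (r - k)) (fun _ _ => zero_le)
    (Finset.self_mem_range_succ r)).trans (ew_conv (t := t) r)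
  simp only [Nat.sub_self, ew_zero, mul_one] at h
  exact h.trans (pow_le_one₀ zero_le (DatZ_be t r))

private theorem DatZ_ew_ne (t : Bool) (r : ℕ) : ew t r ≠ ∞ :=
  ne_top_of_le_ne_top ENNReal.one_ne_top (DatZ_ew t r)

private theorem DatZ_cc (t : Bool) (a a' : ℕ) : cc t a a' ≤ 1 := by
  have h0 := cc_dec (t := t) a a'
  have h := Finset.single_le_sum (f := fun l => (be t (zc t) l) ^ 2 * cc t (a - l) (a' - l))
    (fun _ _ => zero_le) (Finset.mem_range.2 (Nat.succ_pos (min a a')))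
  simp only [Nat.sub_zero, be_zero, one_pow, one_mul] at h
  rw [← h0] at h
  exact h.trans (mul_le_one' (DatZ_be t a) (DatZ_be t a'))

private theorem DatZ_cc_ne (t : Bool) (a a' : ℕ) : cc t a a' ≠ ∞ :=
  ne_top_of_le_ne_top ENNReal.one_ne_top (DatZ_cc t a a')

private theorem DatZ_le_one {x : ℝ≥0∞} (h : x ≤ 1) : x.toReal ≤ 1 := by
  have := ENNReal.toReal_mono ENNReal.one_ne_top h
  simpa using this

theorem dat (t : Bool) : ∃ S : Sq, (∀ r, be t (zc t) r = ENNReal.ofReal (S.b r)) ∧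
    (∀ i, la t i = ENNReal.ofReal (S.la i)) ∧ (∀ l, ew t l = ENNReal.ofReal (S.e l)) ∧
    ∀ a a', cc t a a' = ENNReal.ofReal (S.cc a a') := by
  refine ⟨{ b := fun r => (be t (zc t) r).toReal
            la := fun i => (la t i).toReal
            f := fun i => (gf2 (IP t i) (zc t)).toReal
            e := fun r => (ew t r).toReal
            cc := fun a a' => (cc t a a').toReal
            b0 := by simp [be_zero]
            bnn := fun r => ENNReal.toReal_nonneg
            b1 := fun r => DatZ_le_one (DatZ_be t r)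
            lann := fun i => ENNReal.toReal_nonneg
            bren := ?_
            lasum := ?_
            fnn := fun i => ENNReal.toReal_nonneg
            uren := ?_
            fsum := ?_
            e0 := by simp [ew_zero]
            enn := fun r => ENNReal.toReal_nonneg
            econv := ?_
            elast := ?_
            ccnn := fun a a' => ENNReal.toReal_nonneg
            ccdec := ?_ }, ?_, ?_, ?_, ?_⟩
  · intro r
    rw [la_ren r, ENNReal.toReal_sum (fun i _ => ENNReal.mul_ne_top (DatZ_la_ne t i) (DatZ_be_ne t _))]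
    exact Finset.sum_congr rfl fun i _ => ENNReal.toReal_mul
  · intro N
    rw [← ENNReal.toReal_sum (fun i _ => DatZ_la_ne t i)]
    exact DatZ_le_one (la_sum N)
  · intro r
    rw [← ENNReal.toReal_pow, ren_eq (zc t) r, ENNReal.toReal_sum (fun i _ =>
      ENNReal.mul_ne_top (DatZ_f_ne t i) (ENNReal.pow_ne_top (DatZ_be_ne t _)))]
    exact Finset.sum_congr rfl fun i _ => by rw [ENNReal.toReal_mul, ENNReal.toReal_pow]
  · intro N
    rw [← ENNReal.toReal_sum (fun i _ => DatZ_f_ne t i)]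
    exact DatZ_le_one (irr_sum N)
  · intro r
    have h := ENNReal.toReal_mono (ENNReal.pow_ne_top (DatZ_be_ne t r)) (ew_conv (t := t) r)
    rw [ENNReal.toReal_pow, ENNReal.toReal_sum (fun k _ =>
      ENNReal.mul_ne_top (DatZ_ew_ne t k) (DatZ_ew_ne t _))] at h
    refine le_trans (le_of_eq ?_) h
    exact Finset.sum_congr rfl fun i _ => by rw [ENNReal.toReal_mul]
  · intro r
    have h := ENNReal.toReal_mono (ENNReal.sum_ne_top.2 fun i _ =>
      ENNReal.mul_ne_top (DatZ_f_ne t i) (DatZ_ew_ne t _)) (ew_last (t := t) r)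
    rw [ENNReal.toReal_sum (fun k _ =>
      ENNReal.mul_ne_top (DatZ_f_ne t k) (DatZ_ew_ne t _))] at h
    refine h.trans (le_of_eq ?_)
    exact Finset.sum_congr rfl fun i _ => by rw [ENNReal.toReal_mul]
  · intro r s
    rw [← ENNReal.toReal_mul, cc_dec (t := t) r s, ENNReal.toReal_sum (fun l _ =>
      ENNReal.mul_ne_top (ENNReal.pow_ne_top (DatZ_be_ne t _)) (DatZ_cc_ne t _ _))]
    exact Finset.sum_congr rfl fun i _ => by rw [ENNReal.toReal_mul, ENNReal.toReal_pow]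
  · exact fun r => (ENNReal.ofReal_toReal (DatZ_be_ne t r)).symm
  · exact fun r => (ENNReal.ofReal_toReal (DatZ_la_ne t r)).symm
  · exact fun r => (ENNReal.ofReal_toReal (DatZ_ew_ne t r)).symm
  · exact fun a a' => (ENNReal.ofReal_toReal (DatZ_cc_ne t a a')).symm

theorem chR_nonneg {D lo : ℕ} {y : ℝ} (hy : 0 ≤ y) {b : ℕ → ℝ} {G : ℕ → ℕ → ℝ} {B : ℕ → ℕ → ℕ → ℝ}
    (hb : ∀ r, 0 ≤ b r) (hG : ∀ r a, 0 ≤ G r a) (hB : ∀ d a a', 0 ≤ B d a a') (K h r : ℕ) :
    0 ≤ chR D lo y b G B K h r := by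
  induction K generalizing h r with
  | zero => exact hb r
  | succ K ih =>
    rw [chR]
    refine add_nonneg (hb r) (Finset.sum_nonneg fun d _ => mul_nonneg (pow_nonneg hy d) ?_)
    exact Finset.sum_nonneg fun a _ => Finset.sum_nonneg fun a' _ =>
      mul_nonneg (mul_nonneg (hG r a) (hB d a a')) (ih d a')

theorem ch_le {D lo : ℕ} {y : ℝ} (hy : 0 ≤ y) {b : ℕ → ℝ} {G : ℕ → ℕ → ℝ} {B : ℕ → ℕ → ℕ → ℝ}
    (hb : ∀ r, 0 ≤ b r) (hG : ∀ r a, 0 ≤ G r a) (hB : ∀ d a a', 0 ≤ B d a a')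
    {b' : ℕ → ℝ≥0∞} {G' : ℕ → ℕ → ℝ≥0∞} {B' : ℕ → ℕ → ℕ → ℝ≥0∞}
    (hb' : ∀ r, b' r ≤ ENNReal.ofReal (b r)) (hG' : ∀ r a, G' r a ≤ ENNReal.ofReal (G r a))
    (hB' : ∀ d, lo ≤ d → ∀ a a', B' d a a' ≤ ENNReal.ofReal (B d a a')) (K h r : ℕ) :
    ch D lo (ENNReal.ofReal y) b' G' B' K h r ≤ ENNReal.ofReal (chR D lo y b G B K h r) := by
  induction K generalizing h r with
  | zero => exact hb' r
  | succ K ih =>
    have hterm : ∀ d a a', 0 ≤ G r a * B d a a' * chR D lo y b G B K d a' := fun d a a' =>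
      mul_nonneg (mul_nonneg (hG r a) (hB d a a')) (chR_nonneg hy hb hG hB K d a')
    have hin : ∀ d a, 0 ≤ ∑ a' ∈ range (D + 1), G r a * B d a a' * chR D lo y b G B K d a' := fun d a =>
      Finset.sum_nonneg fun a' _ => hterm d a a'
    have hmid : ∀ d, 0 ≤ ∑ a ∈ range (D + 1), ∑ a' ∈ range (D + 1),
        G r a * B d a a' * chR D lo y b G B K d a' := fun d => Finset.sum_nonneg fun a _ => hin d a
    have hout : ∀ d, 0 ≤ y ^ d * ∑ a ∈ range (D + 1), ∑ a' ∈ range (D + 1),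
        G r a * B d a a' * chR D lo y b G B K d a' := fun d => mul_nonneg (pow_nonneg hy d) (hmid d)
    rw [ch, chR, ENNReal.ofReal_add (hb r) (Finset.sum_nonneg fun d _ => hout d),
      ENNReal.ofReal_sum_of_nonneg fun d _ => hout d]
    refine add_le_add (hb' r) (Finset.sum_le_sum fun d hd => ?_)
    have hlo : lo ≤ d := (Finset.mem_Ico.1 hd).1
    rw [ENNReal.ofReal_mul (pow_nonneg hy d), ENNReal.ofReal_pow hy,
      ENNReal.ofReal_sum_of_nonneg fun a _ => hin d a]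
    refine mul_le_mul' le_rfl (Finset.sum_le_sum fun a _ => ?_)
    rw [ENNReal.ofReal_sum_of_nonneg fun a' _ => hterm d a a']
    refine Finset.sum_le_sum fun a' _ => ?_
    rw [ENNReal.ofReal_mul (mul_nonneg (hG r a) (hB d a a')), ENNReal.ofReal_mul (hG r a)]
    exact mul_le_mul' (mul_le_mul' (hG' r a) (hB' d hlo a a')) (ih d a')

end Pool.Agent.ZLF
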