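import Pool.Agent.ZCS.Defs

/-!
Project ZLF (note 2967, helper47). Self-avoiding walks of the square (`t = false`) and of the triangular (`t = true`)
lattice: `a_k <= mu ^ k * exp (C * k ^ (1 / 3))` for every `k` (no logarithm).

Word part. A strand of width `d` is cut at its last own renewal level `<= D` seen from each of its two ends:
`x ++ (M ++ fl t x')`, `x`, `x'` cobridges of widths `a, a' <= D`, `M` a middle part. The sign condition of a fold only
depends on the two end parts of the fold, so that the chains of one dyadic scale are products of matrices: `g2` (folds)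
and `w1` (middle parts), with indices the widths `a <= D` of the end parts.
-/

namespace Pool.Agent.ZLF

open Pool.Agent.SHP Pool.Agent.ZHW Pool.Agent.ZCS Finset
open scoped ENNReal NNReal

/-- Weighted sum over a set of words (`sm t d F` is `s1 t (WB t d) F`). -/
noncomputable def s1 (t : Bool) (A : Set Wd) (F : Wd → ℝ≥0∞) : ℝ≥0∞ :=
  ∑' l : A, (zc t : ℝ≥0∞) ^ (l : Wd).length * F l

/-- No (own) renewal level among `1, ..., n`. -/
def NR (t : Bool) (n : ℕ) (P : Wd) : Prop := ∀ i : ℕ, 1 ≤ i → i ≤ n → ¬ Rn t i P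

/-- Weak bridges of width `k` without renewal level among `1, ..., m`. -/
def NB (t : Bool) (k m : ℕ) : Set Wd := {B | B ∈ WB t k ∧ NR t m B}

/-- Middle parts: weak bridges of width `k` without renewal level among the first `a` and (seen from the end) among the
first `a'`. -/
def MW (t : Bool) (k a a' : ℕ) : Set Wd := {M | M ∈ WB t k ∧ NR t a M ∧ NR t a' (fl t M)}

/-- Irreducible cobridges of width `i + 1`. -/
def IC (t : Bool) (i : ℕ) : Set Wd := {l | l ∈ CB t (i + 1) ∧ NR t i l}

/-- Mass of the middle parts. -/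
noncomputable def w1 (t : Bool) (k a a' : ℕ) : ℝ≥0∞ := gf (MW t k a a') (zc t)

/-- Mass of the irreducible cobridges of width `i + 1`. -/
noncomputable def la (t : Bool) (i : ℕ) : ℝ≥0∞ := gf (IC t i) (zc t)

/-- Pairs of cobridges of widths `a`, `a'` without common renewal level `>= 1`. -/
def NCC (t : Bool) (a a' : ℕ) : Set (Wd × Wd) := {p | p.1 ∈ CB t a ∧ p.2 ∈ CB t a' ∧ NC t a p}

/-- Mass of these pairs. -/
noncomputable def cc (t : Bool) (a a' : ℕ) : ℝ≥0∞ := gf2 (NCC t a a') (zc t)

/-- Pairs of cobridges of widths `a`, `a'` which keep their order at the common renewal levels. -/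
def GG (t : Bool) (a a' : ℕ) : Set (Wd × Wd) := {p | p.1 ∈ CB t a ∧ p.2 ∈ CB t a' ∧ Sg t a p.1 p.2}

/-- The fold matrix. -/
noncomputable def g2 (t : Bool) (a a' : ℕ) : ℝ≥0∞ := gf2 (GG t a a') (zc t)

/-- Mass of the positive block sequences of width `l`. -/
noncomputable def ew (t : Bool) (l : ℕ) : ℝ≥0∞ := gw (fun i δ => gf2 (IPd t i δ) (zc t)) l 0

open Classical in
/-- Chains of strands of widths `>= lo`, all folds with the sign condition with cutoff `D`. -/
noncomputable def Wc (t : Bool) (D lo : ℕ) (y : ℝ≥0∞) : ℕ → ℕ → Wd → ℝ≥0∞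
  | 0, _, _ => 1
  | K + 1, h, X => 1 + ∑ d ∈ Ico lo h, y ^ d *
      sm t d (fun Y => if Sg t D (fl t X) Y then Wc t D lo y K d Y else 0)

/-- Chains of matrices. -/
noncomputable def ch (D lo : ℕ) (y : ℝ≥0∞) (b : ℕ → ℝ≥0∞) (G : ℕ → ℕ → ℝ≥0∞) (B : ℕ → ℕ → ℕ → ℝ≥0∞) :
    ℕ → ℕ → ℕ → ℝ≥0∞
  | 0, _, r => b r
  | K + 1, h, r => b r + ∑ d ∈ Ico lo h, y ^ d *
      ∑ a ∈ range (D + 1), ∑ a' ∈ range (D + 1), G r a * B d a a' * ch D lo y b G B K d a'

end Pool.Agent.ZLF
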