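import Pool.Agent.ZLF.RU

/-!
Module RAvg: the choice of the cutoff `D ≤ n`.

PAPER PROOF. Let `h a = hh n a = T a + 1 / U1 n` and `s m = ∑ a, a' ≤ m, cc a a' * h (m - a) * h (m - a') ≥ 0`. Inserting the definition of
`J` in `X n D` (`r = l + a`, `s = l + a'`): `X n D = ∑ l ≤ D, e l * s (D - l)` (the triples `(l, r, s)` with `l ≤ min r s`, `r, s ≤ D`). In the same
way, by `ccdec`, `∑ l ≤ D, b l ^ 2 * s (D - l) = ∑ r, s ≤ D, b r * b s * h (D - r) * h (D - s) = (∑ r ≤ D, b r * h (D - r)) ^ 2 =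
(1 + U1 D / U1 n) ^ 2 ≤ 9` for `D ≤ 2 n` (`bT`, `U1_sub` with `K = 2`). Let `E = ∑ l ≤ n, e l`, `W = ∑ m ≤ n, s m`. Then
`∑ D ≤ n, X n D ≤ E * W`, and `U n * W ≤ ∑ D ≤ 2 n, ∑ l ≤ D, b l ^ 2 * s (D - l) ≤ 9 * (2 n + 1)`, and `E ^ 2 ≤ U (2 n) ≤ 2 * U n`
(`E_sq`, `U_sub`). So `(∑ D ≤ n, X n D) ^ 2 * U n ≤ 2 * (U n * W) ^ 2 ≤ 162 * (2 n + 1) ^ 2 ≤ 648 * (n + 1) ^ 2`, and for the `D ≤ n`
with the smallest `X n D ≥ 0`: `(n + 1) * X n D ≤ ∑ D ≤ n, X n D`.
-/

namespace Pool.Agent.ZLF.Sq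

open Finset

variable (S : Sq)

private theorem RAvg_shift (l D : ℕ) (hl : l ≤ D) (g : ℕ → ℝ) :
    ∑ r ∈ range (D + 1), (if l ≤ r then g r else 0) = ∑ a ∈ range (D - l + 1), g (l + a) := by
  obtain ⟨k, rfl⟩ := Nat.exists_eq_add_of_le hl
  rw [show l + k + 1 = l + (k + 1) by ring, Finset.sum_range_add]
  have h1 : ∑ x ∈ range l, (if l ≤ x then g x else 0) = 0 := by
    apply Finset.sum_eq_zero
    intro x hx
    rw [Finset.mem_range] at hx
    rw [if_neg (by omega)]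
  rw [h1, zero_add, Nat.add_sub_cancel_left]
  apply Finset.sum_congr rfl
  intro x _
  rw [if_pos (by omega)]

private noncomputable def RAvg_s (h : ℕ → ℝ) (cc : ℕ → ℕ → ℝ) (m : ℕ) : ℝ :=
  ∑ a ∈ range (m + 1), ∑ a' ∈ range (m + 1), cc a a' * h (m - a) * h (m - a')

private theorem RAvg_id (h w : ℕ → ℝ) (cc : ℕ → ℕ → ℝ) (D : ℕ) :
    ∑ r ∈ range (D + 1), ∑ s ∈ range (D + 1), h (D - r) * h (D - s) *
        (∑ l ∈ range (min r s + 1), w l * cc (r - l) (s - l)) =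
      ∑ l ∈ range (D + 1), w l * RAvg_s h cc (D - l) := by
  have h1 : ∀ r ∈ range (D + 1), ∀ s ∈ range (D + 1), h (D - r) * h (D - s) *
        (∑ l ∈ range (min r s + 1), w l * cc (r - l) (s - l)) =
      ∑ l ∈ range (D + 1), (if l ≤ r then (if l ≤ s then
        h (D - r) * h (D - s) * (w l * cc (r - l) (s - l)) else 0) else 0) := by
    intro r hr s hs
    rw [Finset.mem_range] at hr hs
    have h2 : range (min r s + 1) = (range (D + 1)).filter (fun l => l ≤ r ∧ l ≤ s) := by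
      ext l
      simp only [Finset.mem_range, Finset.mem_filter]
      omega
    rw [h2, Finset.sum_filter, Finset.mul_sum]
    apply Finset.sum_congr rfl
    intro l _
    by_cases h3 : l ≤ r
    · by_cases h4 : l ≤ s
      · simp [h3, h4]
      · simp [h4]
    · simp [h3]
  rw [Finset.sum_congr rfl (fun r hr => Finset.sum_congr rfl (h1 r hr))]
  rw [Finset.sum_congr rfl (fun r _ => Finset.sum_comm), Finset.sum_comm]
  apply Finset.sum_congr rfl
  intro l hl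
  rw [Finset.mem_range] at hl
  have hlD : l ≤ D := by omega
  have h5 : ∀ r ∈ range (D + 1), ∑ s ∈ range (D + 1), (if l ≤ r then (if l ≤ s then
        h (D - r) * h (D - s) * (w l * cc (r - l) (s - l)) else 0) else 0) =
      (if l ≤ r then ∑ a' ∈ range (D - l + 1),
        h (D - r) * h (D - (l + a')) * (w l * cc (r - l) (l + a' - l)) else 0) := by
    intro r _
    by_cases h3 : l ≤ r
    · simp only [h3, if_true]
      exact RAvg_shift l D hlD (fun s => h (D - r) * h (D - s) * (w l * cc (r - l) (s - l)))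
    · simp [h3]
  rw [Finset.sum_congr rfl h5, RAvg_shift l D hlD (fun r => ∑ a' ∈ range (D - l + 1),
        h (D - r) * h (D - (l + a')) * (w l * cc (r - l) (l + a' - l)))]
  unfold RAvg_s
  rw [Finset.mul_sum]
  apply Finset.sum_congr rfl
  intro a _
  rw [Finset.mul_sum]
  apply Finset.sum_congr rfl
  intro a' _
  rw [Nat.add_sub_cancel_left, Nat.add_sub_cancel_left, Nat.sub_add_eq, Nat.sub_add_eq]
  ring

private theorem RAvg_hh_nonneg (n a : ℕ) : 0 ≤ S.hh n a := by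
  unfold hh
  have h1 := S.T_nonneg a
  have h2 := S.one_le_U1 n
  positivity

private theorem RAvg_s_nonneg (n m : ℕ) : 0 ≤ RAvg_s (S.hh n) S.cc m := by
  unfold RAvg_s
  refine Finset.sum_nonneg (fun a _ => Finset.sum_nonneg (fun a' _ => ?_))
  exact mul_nonneg (mul_nonneg (S.ccnn _ _) (RAvg_hh_nonneg S _ _)) (RAvg_hh_nonneg S _ _)

private theorem RAvg_X (n D : ℕ) : S.X n D =
    ∑ l ∈ range (D + 1), S.e l * RAvg_s (S.hh n) S.cc (D - l) := by
  unfold X J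
  exact RAvg_id (S.hh n) S.e S.cc D

private theorem RAvg_B (n D : ℕ) : ∑ l ∈ range (D + 1), S.b l ^ 2 * RAvg_s (S.hh n) S.cc (D - l) =
    (∑ r ∈ range (D + 1), S.b r * S.hh n (D - r)) ^ 2 := by
  rw [← RAvg_id (S.hh n) (fun l => S.b l ^ 2) S.cc D, sq, Finset.sum_mul_sum]
  apply Finset.sum_congr rfl
  intro r _
  apply Finset.sum_congr rfl
  intro s _
  rw [← S.ccdec r s]
  ring

private theorem RAvg_B_le (n D : ℕ) (hD : D ≤ 2 * n) :
    ∑ l ∈ range (D + 1), S.b l ^ 2 * RAvg_s (S.hh n) S.cc (D - l) ≤ 9 := by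
  rw [RAvg_B]
  have h1 : ∑ r ∈ range (D + 1), S.b r * S.hh n (D - r) = 1 + S.U1 D * (S.U1 n)⁻¹ := by
    unfold hh
    rw [Finset.sum_congr rfl (fun r _ => mul_add (S.b r) (S.T (D - r)) (S.U1 n)⁻¹),
      Finset.sum_add_distrib, S.bT D, ← Finset.sum_mul]
    rfl
  have h2 : 1 ≤ S.U1 n := S.one_le_U1 n
  have h3 : 1 ≤ S.U1 D := S.one_le_U1 D
  have h4 : S.U1 D ≤ (2 : ℕ) * S.U1 n := S.U1_sub (by omega)
  have h5 : S.U1 D * (S.U1 n)⁻¹ ≤ 2 := by
    rw [← div_eq_mul_inv, div_le_iff₀ (by linarith)]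
    push_cast at h4
    exact h4
  have h6 : 0 ≤ S.U1 D * (S.U1 n)⁻¹ := by positivity
  rw [h1]
  nlinarith

private theorem RAvg_swap (N : ℕ) (w s : ℕ → ℝ) :
    ∑ D ∈ range (N + 1), ∑ l ∈ range (D + 1), w l * s (D - l) =
      ∑ l ∈ range (N + 1), w l * ∑ m ∈ range (N - l + 1), s m := by
  have h1 : ∀ D ∈ range (N + 1), ∑ l ∈ range (D + 1), w l * s (D - l) =
      ∑ l ∈ range (N + 1), (if l ≤ D then w l * s (D - l) else 0) := by
    intro D hD
    rw [Finset.mem_range] at hD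
    have h2 : range (D + 1) = (range (N + 1)).filter (fun l => l ≤ D) := by
      ext l
      simp only [Finset.mem_range, Finset.mem_filter]
      omega
    rw [h2, Finset.sum_filter]
  rw [Finset.sum_congr rfl h1, Finset.sum_comm]
  apply Finset.sum_congr rfl
  intro l hl
  rw [Finset.mem_range] at hl
  rw [RAvg_shift l N (by omega) (fun D => w l * s (D - l)), Finset.mul_sum]
  apply Finset.sum_congr rfl
  intro m _
  simp

theorem X_nonneg (n D : ℕ) : 0 ≤ S.X n D := by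
  unfold X
  refine Finset.sum_nonneg (fun r _ => Finset.sum_nonneg (fun s _ => ?_))
  exact mul_nonneg (mul_nonneg (RAvg_hh_nonneg S _ _) (RAvg_hh_nonneg S _ _)) (S.J_nonneg _ _)

private theorem RAvg_mono_range {s : ℕ → ℝ} (hs : ∀ m, 0 ≤ s m) {a b : ℕ} (h : a ≤ b) :
    ∑ m ∈ range a, s m ≤ ∑ m ∈ range b, s m :=
  Finset.sum_le_sum_of_subset_of_nonneg (Finset.range_mono h) (fun i _ _ => hs i)

theorem avg (n : ℕ) : ∃ D : ℕ, D ≤ n ∧ S.X n D ^ 2 * S.U n ≤ 648 := by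
  obtain ⟨s, hs⟩ : ∃ s : ℕ → ℝ, s = RAvg_s (S.hh n) S.cc := ⟨_, rfl⟩
  have hs0 : ∀ m, 0 ≤ s m := by intro m; rw [hs]; exact RAvg_s_nonneg S n m
  obtain ⟨E, hE⟩ : ∃ E : ℝ, E = ∑ l ∈ range (n + 1), S.e l := ⟨_, rfl⟩
  obtain ⟨W, hW⟩ : ∃ W : ℝ, W = ∑ m ∈ range (n + 1), s m := ⟨_, rfl⟩
  obtain ⟨Q, hQ⟩ : ∃ Q : ℝ, Q = ∑ D ∈ range (n + 1), S.X n D := ⟨_, rfl⟩
  have hE0 : 0 ≤ E := by rw [hE]; exact Finset.sum_nonneg (fun l _ => S.enn l)
  have hW0 : 0 ≤ W := by rw [hW]; exact Finset.sum_nonneg (fun m _ => hs0 m)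
  have hQ0 : 0 ≤ Q := by rw [hQ]; exact Finset.sum_nonneg (fun D _ => S.X_nonneg n D)
  have hU : 1 ≤ S.U n := S.one_le_U n
  have h1 : Q ≤ E * W := by
    rw [hQ, Finset.sum_congr rfl (fun D _ => RAvg_X S n D), ← hs, RAvg_swap n S.e s, hE,
      Finset.sum_mul]
    apply Finset.sum_le_sum
    intro l _
    apply mul_le_mul_of_nonneg_left _ (S.enn l)
    rw [hW]
    exact RAvg_mono_range hs0 (by omega)
  have h2 : S.U n * W ≤ 9 * (2 * n + 1) := by
    have h3 : S.U n * W ≤ ∑ D ∈ range (2 * n + 1), ∑ l ∈ range (D + 1), S.b l ^ 2 * s (D - l) := by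
      rw [RAvg_swap (2 * n) (fun l => S.b l ^ 2) s]
      unfold U
      rw [Finset.sum_mul]
      calc ∑ i ∈ range (n + 1), S.b i ^ 2 * W
          ≤ ∑ i ∈ range (n + 1), S.b i ^ 2 * ∑ m ∈ range (2 * n - i + 1), s m := by
            apply Finset.sum_le_sum
            intro l hl
            rw [Finset.mem_range] at hl
            apply mul_le_mul_of_nonneg_left _ (sq_nonneg _)
            rw [hW]
            exact RAvg_mono_range hs0 (by omega)
        _ ≤ ∑ l ∈ range (2 * n + 1), S.b l ^ 2 * ∑ m ∈ range (2 * n - l + 1), s m := by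
            apply RAvg_mono_range _ (by omega)
            intro m
            exact mul_nonneg (sq_nonneg _) (Finset.sum_nonneg (fun m _ => hs0 m))
    have h4 : ∑ D ∈ range (2 * n + 1), ∑ l ∈ range (D + 1), S.b l ^ 2 * s (D - l) ≤
        ∑ D ∈ range (2 * n + 1), (9 : ℝ) := by
      apply Finset.sum_le_sum
      intro D hD
      rw [Finset.mem_range] at hD
      rw [hs]
      exact RAvg_B_le S n D (by omega)
    rw [Finset.sum_const, Finset.card_range, nsmul_eq_mul] at h4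
    push_cast at h4
    linarith
  have h5 : E ^ 2 ≤ 2 * S.U n := by
    have h6 := S.E_sq n
    rw [← hE] at h6
    have h7 : S.U (2 * n) ≤ (2 : ℕ) * S.U n := S.U_sub (by omega)
    push_cast at h7
    linarith
  have hn : (0 : ℝ) ≤ n := Nat.cast_nonneg n
  have h8 : Q ^ 2 * S.U n ≤ 648 * ((n : ℝ) + 1) ^ 2 := by
    have h9 : Q ^ 2 ≤ E ^ 2 * W ^ 2 := by
      rw [← mul_pow]
      exact pow_le_pow_left₀ hQ0 h1 2
    have h10 : E ^ 2 * W ^ 2 ≤ 2 * S.U n * W ^ 2 := mul_le_mul_of_nonneg_right h5 (sq_nonneg W)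
    have h11 : (S.U n * W) ^ 2 ≤ (9 * (2 * n + 1)) ^ 2 :=
      pow_le_pow_left₀ (mul_nonneg (by linarith) hW0) h2 2
    calc Q ^ 2 * S.U n ≤ (2 * S.U n * W ^ 2) * S.U n :=
          mul_le_mul_of_nonneg_right (h9.trans h10) (by linarith)
      _ = 2 * (S.U n * W) ^ 2 := by ring
      _ ≤ 2 * (9 * (2 * n + 1)) ^ 2 := by linarith
      _ ≤ 648 * ((n : ℝ) + 1) ^ 2 := by nlinarith
  have hn1 : (0 : ℝ) < (n : ℝ) + 1 := by positivity
  obtain ⟨D, hD, hXD⟩ : ∃ D ∈ range (n + 1), S.X n D ≤ Q / ((n : ℝ) + 1) := by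
    apply Finset.exists_le_of_sum_le (Finset.nonempty_range_iff.mpr (by omega))
    rw [← hQ, Finset.sum_const, Finset.card_range, nsmul_eq_mul]
    push_cast
    rw [mul_div_cancel₀ _ hn1.ne']
  refine ⟨D, by rw [Finset.mem_range] at hD; omega, ?_⟩
  have h12 : S.X n D ^ 2 ≤ (Q / ((n : ℝ) + 1)) ^ 2 :=
    pow_le_pow_left₀ (S.X_nonneg n D) hXD 2
  calc S.X n D ^ 2 * S.U n ≤ (Q / ((n : ℝ) + 1)) ^ 2 * S.U n :=
        mul_le_mul_of_nonneg_right h12 (by linarith)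
    _ = (Q ^ 2 * S.U n) / ((n : ℝ) + 1) ^ 2 := by rw [div_pow]; ring
    _ ≤ 648 := by
        rw [div_le_iff₀ (by positivity)]
        exact h8

end Pool.Agent.ZLF.Sq
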