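import Pool.Agent.ZLF.RQuad

/-!
Module RSum: sums over the widths `m ∈ [N, 2 N)` of the strands.

PAPER PROOF. Always `r + s ≤ 2 D ≤ N ≤ m`. `sumB`: for `mid`: the triples `(j, h, j')` with `j ≥ D - r`, `j' ≥ D - s`,
`j + h + j' + 1 = m - r - s` belong to one `m` each, and `j, h, j' < 2 N`, so the sum is at most
`(∑ j ∈ Ico (D - r) (2 N), la j) * (∑ h < 2 N, b h) * (∑ j' ∈ Ico (D - s) (2 N), la j') ≤ T (D - r) * U1 (2 N) * T (D - s)` (`la_win`); for `la`: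
`∑ m ∈ [N, 2 N), la (m - r - s) ≤ ∑ i ∈ Ico (N - r - s) (2 N), la i ≤ T (N - r - s) ≤ T (N - 2 D)` (`la_win`, `T_anti`).
`sumM`: for fixed `r1 .. r4`: `∑ m, mid (m - r1 - r2) .. * mid (m - r3 - r4) ..` is a sum over `j1, j2, j3, j4` (`j1 ≥ D - r1`, ..) of
`la j1 * la j2 * la j3 * la j4 * ∑ m, b h * b h'` with `h = m - r1 - r2 - j1 - j2 - 1`, `h' = m - r3 - r4 - j3 - j4 - 1` (terms with both
defined) and `∑ m, b h * b h' ≤ ∑ m, (b h ^ 2 + b h' ^ 2) / 2 ≤ U (2 N)`; so it is `≤ T (D - r1) * T (D - r2) * T (D - r3) * T (D - r4) * U (2 N)`. Sum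
over `r1 .. r4` with the weight `J r2 r3 * J r4 r1 ≥ 0`.
`sumL`: with `j = m - r1 - r2`, `j' = m - r3 - r4` (both in `[N - 2 D, 2 N)`; `m` is determined by `j`, `r1`, `r2`) the sum is at most
`∑ j j' ∈ Ico (N - 2 D) (2 N), la j * la j' * ∑ r1 .. r4, [r1 + r2 + j = r3 + r4 + j'] J r2 r3 * J r4 r1 ≤ T (N - 2 D) ^ 2 * 16 * U1 D ^ 2` (`quad`).
-/

namespace Pool.Agent.ZLF.Sq

open Finset

private theorem RSum_shift (g : ℕ → ℝ) (hg : ∀ i, 0 ≤ g i) (N M c : ℕ) :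
    ∑ m ∈ Ico N M, (if c ≤ m then g (m - c) else 0) ≤ ∑ h ∈ range M, g h := by
  have h0 : ∀ m, 0 ≤ (if c ≤ m then g (m - c) else 0) := by
    intro m
    split_ifs
    · exact hg _
    · exact le_rfl
  have h1 : ∑ m ∈ Ico N M, (if c ≤ m then g (m - c) else 0) ≤
      ∑ m ∈ range M, (if c ≤ m then g (m - c) else 0) := by
    refine Finset.sum_le_sum_of_subset_of_nonneg ?_ fun m _ _ => h0 m
    intro m hm
    exact Finset.mem_range.2 (Finset.mem_Ico.1 hm).2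
  refine le_trans h1 ?_
  rw [← Finset.sum_filter]
  have h2 : (range M).filter (fun m => c ≤ m) = Ico c M := by
    ext m
    simp only [mem_filter, mem_range, mem_Ico]
    omega
  rw [h2, Finset.sum_Ico_eq_sum_range]
  have h3 : ∑ k ∈ range (M - c), g (c + k - c) = ∑ k ∈ range (M - c), g k := by
    refine Finset.sum_congr rfl fun k _ => ?_
    rw [Nat.add_sub_cancel_left]
  rw [h3]
  exact Finset.sum_le_sum_of_subset_of_nonneg (Finset.range_mono (Nat.sub_le M c)) fun i _ _ => hg i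

private theorem RSum_two {ι κ : Type*} (M : Finset ℕ) (A : Finset ι) (B : Finset κ) (w : ι → ℝ)
    (w' : κ → ℝ) (hw : ∀ p, 0 ≤ w p) (hw' : ∀ q, 0 ≤ w' q) (f : ι → ℕ → ℝ) (g : κ → ℕ → ℝ) (U : ℝ)
    (hf : ∀ p, ∑ m ∈ M, f p m ^ 2 ≤ U) (hg : ∀ q, ∑ m ∈ M, g q m ^ 2 ≤ U) :
    ∑ m ∈ M, (∑ p ∈ A, w p * f p m) * (∑ q ∈ B, w' q * g q m) ≤
      U * ((∑ p ∈ A, w p) * ∑ q ∈ B, w' q) := by
  have h1 : ∀ p q, ∑ m ∈ M, f p m * g q m ≤ U := by
    intro p q
    have h2 : ∑ m ∈ M, f p m * g q m ≤ ∑ m ∈ M, (f p m ^ 2 / 2 + g q m ^ 2 / 2) := by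
      refine Finset.sum_le_sum fun m _ => ?_
      have := sq_nonneg (f p m - g q m)
      linarith
    rw [Finset.sum_add_distrib, ← Finset.sum_div, ← Finset.sum_div] at h2
    have h3 := hf p
    have h4 := hg q
    linarith
  have h5 : ∑ m ∈ M, (∑ p ∈ A, w p * f p m) * (∑ q ∈ B, w' q * g q m) =
      ∑ p ∈ A, ∑ q ∈ B, w p * w' q * ∑ m ∈ M, f p m * g q m := by
    simp only [Finset.sum_mul_sum]
    rw [Finset.sum_comm]
    refine Finset.sum_congr rfl fun p _ => ?_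
    rw [Finset.sum_comm]
    refine Finset.sum_congr rfl fun q _ => ?_
    rw [Finset.mul_sum]
    refine Finset.sum_congr rfl fun m _ => ?_
    ring
  rw [h5, Finset.sum_mul_sum, Finset.mul_sum]
  refine Finset.sum_le_sum fun p _ => ?_
  rw [Finset.mul_sum]
  refine Finset.sum_le_sum fun q _ => ?_
  rw [mul_comm U]
  exact mul_le_mul_of_nonneg_left (h1 p q) (mul_nonneg (hw p) (hw' q))

variable (S : Sq)

/-- The cobridge in the middle. -/
private noncomputable def RSum_bt (k i : ℕ) : ℝ := if i ≤ k then S.b (k - i) else 0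

private theorem RSum_bt_nonneg (k i : ℕ) : 0 ≤ RSum_bt S k i := by
  unfold RSum_bt
  split_ifs
  · exact S.bnn _
  · exact le_rfl

private theorem RSum_mid_nonneg (k a a' : ℕ) : 0 ≤ S.mid k a a' := by
  unfold mid
  refine Finset.sum_nonneg fun j _ => Finset.sum_nonneg fun h _ => Finset.sum_nonneg fun j' _ => ?_
  split_ifs
  · exact mul_nonneg (mul_nonneg (S.lann _) (S.bnn _)) (S.lann _)
  · exact le_rfl

private theorem RSum_mid_le (k a a' K : ℕ) (hK : k ≤ K) : S.mid k a a' ≤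
    ∑ p ∈ Ico a K ×ˢ Ico a' K, S.la p.1 * S.la p.2 * RSum_bt S k (p.1 + p.2 + 1) := by
  have h1 : S.mid k a a' = ∑ j ∈ range k, ∑ j' ∈ range k, ∑ h ∈ range k,
      (if a ≤ j ∧ a' ≤ j' ∧ j + h + j' + 1 = k then S.la j * S.b h * S.la j' else 0) := by
    unfold mid
    exact Finset.sum_congr rfl fun j _ => Finset.sum_comm
  have h2 : ∀ j j' : ℕ, ∑ h ∈ range k,
      (if a ≤ j ∧ a' ≤ j' ∧ j + h + j' + 1 = k then S.la j * S.b h * S.la j' else 0) ≤
      if a ≤ j ∧ a' ≤ j' then S.la j * S.la j' * RSum_bt S k (j + j' + 1) else 0 := by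
    intro j j'
    by_cases hc : a ≤ j ∧ a' ≤ j' ∧ j + j' + 1 ≤ k
    · obtain ⟨hc1, hc2, hc3⟩ := hc
      rw [if_pos ⟨hc1, hc2⟩]
      rw [Finset.sum_eq_single (k - (j + j' + 1))]
      · rw [if_pos ⟨hc1, hc2, by omega⟩]
        unfold RSum_bt
        rw [if_pos hc3]
        exact le_of_eq (by ring)
      · intro h _ hne
        rw [if_neg]
        rintro ⟨_, _, h3⟩
        exact hne (by omega)
      · intro hn
        exact absurd (Finset.mem_range.2 (by omega)) hn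
    · rw [Finset.sum_eq_zero]
      · split_ifs
        · exact mul_nonneg (mul_nonneg (S.lann _) (S.lann _)) (RSum_bt_nonneg S _ _)
        · exact le_rfl
      · intro h _
        rw [if_neg]
        rintro ⟨h3, h4, h5⟩
        exact hc ⟨h3, h4, by omega⟩
  rw [h1]
  refine le_trans (Finset.sum_le_sum fun j _ => Finset.sum_le_sum fun j' _ => h2 j j') ?_
  rw [← Finset.sum_product', ← Finset.sum_filter]
  refine Finset.sum_le_sum_of_subset_of_nonneg ?_ fun p _ _ =>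
    mul_nonneg (mul_nonneg (S.lann _) (S.lann _)) (RSum_bt_nonneg S _ _)
  intro p hp
  simp only [mem_filter, mem_product, mem_range, mem_Ico] at hp ⊢
  omega

private theorem RSum_lala (a a' K : ℕ) :
    ∑ p ∈ Ico a K ×ˢ Ico a' K, S.la p.1 * S.la p.2 ≤ S.T a * S.T a' := by
  rw [Finset.sum_product, ← Finset.sum_mul_sum]
  exact mul_le_mul (la_win S a K) (la_win S a' K) (Finset.sum_nonneg fun _ _ => S.lann _) (T_nonneg S a)

private theorem RSum_lala_nonneg (a a' K : ℕ) :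
    0 ≤ ∑ p ∈ Ico a K ×ˢ Ico a' K, S.la p.1 * S.la p.2 :=
  Finset.sum_nonneg fun _ _ => mul_nonneg (S.lann _) (S.lann _)

private theorem RSum_bt_sum (N t i : ℕ) (ht : t ≤ N) :
    ∑ m ∈ Ico N (2 * N), RSum_bt S (m - t) i ≤ S.U1 (2 * N) := by
  have h1 : ∑ m ∈ Ico N (2 * N), RSum_bt S (m - t) i =
      ∑ m ∈ Ico N (2 * N), (if t + i ≤ m then S.b (m - (t + i)) else 0) := by
    refine Finset.sum_congr rfl fun m hm => ?_
    have hm' := Finset.mem_Ico.1 hm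
    unfold RSum_bt
    by_cases h : t + i ≤ m
    · rw [if_pos h, if_pos (by omega), show m - t - i = m - (t + i) by omega]
    · rw [if_neg h, if_neg (by omega)]
  rw [h1]
  refine le_trans (RSum_shift S.b S.bnn N (2 * N) (t + i)) ?_
  unfold U1
  exact Finset.sum_le_sum_of_subset_of_nonneg (Finset.range_mono (Nat.le_succ _)) fun i _ _ => S.bnn i

private theorem RSum_bt_sq (N t i : ℕ) (ht : t ≤ N) :
    ∑ m ∈ Ico N (2 * N), RSum_bt S (m - t) i ^ 2 ≤ S.U (2 * N) := by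
  have h1 : ∑ m ∈ Ico N (2 * N), RSum_bt S (m - t) i ^ 2 =
      ∑ m ∈ Ico N (2 * N), (if t + i ≤ m then (fun h => S.b h ^ 2) (m - (t + i)) else 0) := by
    refine Finset.sum_congr rfl fun m hm => ?_
    have hm' := Finset.mem_Ico.1 hm
    unfold RSum_bt
    by_cases h : t + i ≤ m
    · rw [if_pos h, if_pos (by omega), show m - t - i = m - (t + i) by omega]
    · rw [if_neg h, if_neg (by omega)]
      simp
  rw [h1]
  refine le_trans (RSum_shift (fun h => S.b h ^ 2) (fun h => sq_nonneg _) N (2 * N) (t + i)) ?_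
  unfold U
  exact Finset.sum_le_sum_of_subset_of_nonneg (Finset.range_mono (Nat.le_succ _))
    fun i _ _ => sq_nonneg _

theorem sumB {N D r s : ℕ} (hD : 2 * D ≤ N) (hr : r ≤ D) (hs : s ≤ D) :
    ∑ m ∈ Ico N (2 * N), (S.mid (m - r - s) (D - r) (D - s) + S.la (m - r - s)) ≤
      S.T (D - r) * S.T (D - s) * S.U1 (2 * N) + S.T (N - 2 * D) := by
  rw [Finset.sum_add_distrib]
  refine add_le_add ?_ ?_
  · have h1 : ∑ m ∈ Ico N (2 * N), S.mid (m - r - s) (D - r) (D - s) ≤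
        ∑ m ∈ Ico N (2 * N), ∑ p ∈ Ico (D - r) (2 * N) ×ˢ Ico (D - s) (2 * N),
          S.la p.1 * S.la p.2 * RSum_bt S (m - r - s) (p.1 + p.2 + 1) := by
      refine Finset.sum_le_sum fun m hm => ?_
      have hm' := Finset.mem_Ico.1 hm
      exact RSum_mid_le S (m - r - s) (D - r) (D - s) (2 * N) (by omega)
    refine le_trans h1 ?_
    rw [Finset.sum_comm]
    have h2 : ∑ p ∈ Ico (D - r) (2 * N) ×ˢ Ico (D - s) (2 * N), ∑ m ∈ Ico N (2 * N),
        S.la p.1 * S.la p.2 * RSum_bt S (m - r - s) (p.1 + p.2 + 1) ≤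
        ∑ p ∈ Ico (D - r) (2 * N) ×ˢ Ico (D - s) (2 * N), S.la p.1 * S.la p.2 * S.U1 (2 * N) := by
      refine Finset.sum_le_sum fun p _ => ?_
      rw [← Finset.mul_sum]
      refine mul_le_mul_of_nonneg_left ?_ (mul_nonneg (S.lann _) (S.lann _))
      have h3 := RSum_bt_sum S N (r + s) (p.1 + p.2 + 1) (by omega)
      have h4 : ∑ m ∈ Ico N (2 * N), RSum_bt S (m - r - s) (p.1 + p.2 + 1) =
          ∑ m ∈ Ico N (2 * N), RSum_bt S (m - (r + s)) (p.1 + p.2 + 1) :=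
        Finset.sum_congr rfl fun m _ => by rw [Nat.sub_sub]
      rw [h4]
      exact h3
    refine le_trans h2 ?_
    rw [← Finset.sum_mul]
    exact mul_le_mul_of_nonneg_right (RSum_lala S _ _ _)
      (le_trans zero_le_one (one_le_U1 S _))
  · have h1 : ∑ m ∈ Ico N (2 * N), S.la (m - r - s) =
        ∑ i ∈ Ico (N - (r + s)) (2 * N - (r + s)), S.la i := by
      rw [Finset.sum_Ico_eq_sum_range, Finset.sum_Ico_eq_sum_range]
      have h2 : 2 * N - (r + s) - (N - (r + s)) = 2 * N - N := by omega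
      rw [h2]
      refine Finset.sum_congr rfl fun i _ => ?_
      rw [show N + i - r - s = N - (r + s) + i by omega]
    rw [h1]
    exact le_trans (la_win S _ _) (T_anti S (by omega))

private theorem RSum_mm {N D r1 r2 r3 r4 : ℕ} (hD : 2 * D ≤ N) (h1 : r1 ≤ D) (h2 : r2 ≤ D)
    (h3 : r3 ≤ D) (h4 : r4 ≤ D) :
    ∑ m ∈ Ico N (2 * N), S.mid (m - r1 - r2) (D - r1) (D - r2) *
      S.mid (m - r3 - r4) (D - r3) (D - r4) ≤
      S.U (2 * N) * (S.T (D - r1) * S.T (D - r2) * (S.T (D - r3) * S.T (D - r4))) := by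
  have h5 : ∑ m ∈ Ico N (2 * N), S.mid (m - r1 - r2) (D - r1) (D - r2) *
      S.mid (m - r3 - r4) (D - r3) (D - r4) ≤
      ∑ m ∈ Ico N (2 * N), (∑ p ∈ Ico (D - r1) (2 * N) ×ˢ Ico (D - r2) (2 * N),
        S.la p.1 * S.la p.2 * RSum_bt S (m - (r1 + r2)) (p.1 + p.2 + 1)) *
        (∑ p ∈ Ico (D - r3) (2 * N) ×ˢ Ico (D - r4) (2 * N),
        S.la p.1 * S.la p.2 * RSum_bt S (m - (r3 + r4)) (p.1 + p.2 + 1)) := by
    refine Finset.sum_le_sum fun m hm => ?_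
    have hm' := Finset.mem_Ico.1 hm
    have h6 := RSum_mid_le S (m - r1 - r2) (D - r1) (D - r2) (2 * N) (by omega)
    have h7 := RSum_mid_le S (m - r3 - r4) (D - r3) (D - r4) (2 * N) (by omega)
    rw [Nat.sub_sub] at h6 h7
    rw [Nat.sub_sub, Nat.sub_sub]
    refine mul_le_mul h6 h7 (RSum_mid_nonneg S _ _ _) ?_
    exact Finset.sum_nonneg fun p _ =>
      mul_nonneg (mul_nonneg (S.lann _) (S.lann _)) (RSum_bt_nonneg S _ _)
  refine le_trans h5 ?_
  have h8 := RSum_two (Ico N (2 * N)) (Ico (D - r1) (2 * N) ×ˢ Ico (D - r2) (2 * N))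
    (Ico (D - r3) (2 * N) ×ˢ Ico (D - r4) (2 * N)) (fun p => S.la p.1 * S.la p.2)
    (fun p => S.la p.1 * S.la p.2) (fun p => mul_nonneg (S.lann _) (S.lann _))
    (fun p => mul_nonneg (S.lann _) (S.lann _))
    (fun p m => RSum_bt S (m - (r1 + r2)) (p.1 + p.2 + 1))
    (fun p m => RSum_bt S (m - (r3 + r4)) (p.1 + p.2 + 1)) (S.U (2 * N))
    (fun p => RSum_bt_sq S N (r1 + r2) (p.1 + p.2 + 1) (by omega))
    (fun p => RSum_bt_sq S N (r3 + r4) (p.1 + p.2 + 1) (by omega))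
  refine le_trans h8 ?_
  refine mul_le_mul_of_nonneg_left ?_ (le_trans zero_le_one (one_le_U S _))
  exact mul_le_mul (RSum_lala S _ _ _) (RSum_lala S _ _ _) (RSum_lala_nonneg S _ _ _)
    (mul_nonneg (T_nonneg S _) (T_nonneg S _))

theorem sumM {N D : ℕ} (hD : 2 * D ≤ N) :
    ∑ m ∈ Ico N (2 * N), ∑ r1 ∈ range (D + 1), ∑ r2 ∈ range (D + 1), ∑ r3 ∈ range (D + 1), ∑ r4 ∈ range (D + 1),
      S.mid (m - r1 - r2) (D - r1) (D - r2) * S.J r2 r3 * S.mid (m - r3 - r4) (D - r3) (D - r4) * S.J r4 r1 ≤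
      S.U (2 * N) * (∑ r ∈ range (D + 1), ∑ s ∈ range (D + 1), S.T (D - r) * S.T (D - s) * S.J r s) ^ 2 := by
  have h1 : S.U (2 * N) * (∑ r ∈ range (D + 1), ∑ s ∈ range (D + 1),
      S.T (D - r) * S.T (D - s) * S.J r s) ^ 2 =
      ∑ r1 ∈ range (D + 1), ∑ r2 ∈ range (D + 1), ∑ r3 ∈ range (D + 1), ∑ r4 ∈ range (D + 1),
        S.U (2 * N) * (S.T (D - r1) * S.T (D - r2) * (S.T (D - r3) * S.T (D - r4))) *
          (S.J r2 r3 * S.J r4 r1) := by
    have h2 : ∀ F : ℕ → ℕ → ℕ → ℕ → ℝ, ∑ r1 ∈ range (D + 1), ∑ r2 ∈ range (D + 1),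
        ∑ r3 ∈ range (D + 1), ∑ r4 ∈ range (D + 1), F r1 r2 r3 r4 =
        ∑ r2 ∈ range (D + 1), ∑ r3 ∈ range (D + 1), ∑ r4 ∈ range (D + 1),
          ∑ r1 ∈ range (D + 1), F r1 r2 r3 r4 := by
      intro F
      rw [Finset.sum_comm]
      refine Finset.sum_congr rfl fun r2 _ => ?_
      rw [Finset.sum_comm]
      refine Finset.sum_congr rfl fun r3 _ => ?_
      rw [Finset.sum_comm]
    rw [h2, sq, Finset.sum_mul, Finset.mul_sum]
    refine Finset.sum_congr rfl fun r2 _ => ?_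
    rw [Finset.sum_mul, Finset.mul_sum]
    refine Finset.sum_congr rfl fun r3 _ => ?_
    rw [Finset.mul_sum, Finset.mul_sum]
    refine Finset.sum_congr rfl fun r4 _ => ?_
    rw [Finset.mul_sum, Finset.mul_sum]
    refine Finset.sum_congr rfl fun r1 _ => ?_
    ring
  rw [h1, Finset.sum_comm]
  refine Finset.sum_le_sum fun r1 h1' => ?_
  rw [Finset.sum_comm]
  refine Finset.sum_le_sum fun r2 h2' => ?_
  rw [Finset.sum_comm]
  refine Finset.sum_le_sum fun r3 h3' => ?_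
  rw [Finset.sum_comm]
  refine Finset.sum_le_sum fun r4 h4' => ?_
  have e1 := Nat.lt_succ_iff.1 (Finset.mem_range.1 h1')
  have e2 := Nat.lt_succ_iff.1 (Finset.mem_range.1 h2')
  have e3 := Nat.lt_succ_iff.1 (Finset.mem_range.1 h3')
  have e4 := Nat.lt_succ_iff.1 (Finset.mem_range.1 h4')
  have h5 := RSum_mm S hD e1 e2 e3 e4
  have h6 := mul_le_mul_of_nonneg_right h5 (mul_nonneg (J_nonneg S r2 r3) (J_nonneg S r4 r1))
  refine le_trans (le_of_eq ?_) h6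
  rw [Finset.sum_mul]
  refine Finset.sum_congr rfl fun m _ => ?_
  ring

theorem sumL {N D : ℕ} (hD : 2 * D ≤ N) :
    ∑ m ∈ Ico N (2 * N), ∑ r1 ∈ range (D + 1), ∑ r2 ∈ range (D + 1), ∑ r3 ∈ range (D + 1), ∑ r4 ∈ range (D + 1),
      S.la (m - r1 - r2) * S.J r2 r3 * S.la (m - r3 - r4) * S.J r4 r1 ≤
      S.T (N - 2 * D) ^ 2 * (16 * S.U1 D ^ 2) := by
  have hI : ∀ m ∈ Ico N (2 * N), ∀ t, t ≤ 2 * D → S.la (m - t) =
      ∑ j ∈ Ico (N - 2 * D) (2 * N), if t + j = m then S.la j else 0 := by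
    intro m hm t ht
    have hm' := Finset.mem_Ico.1 hm
    rw [Finset.sum_eq_single (m - t)]
    · rw [if_pos (by omega)]
    · intro j _ hne
      rw [if_neg]
      intro h
      exact hne (by omega)
    · intro hn
      exact absurd (Finset.mem_Ico.2 (by omega)) hn
  have h1 : ∀ r1 ∈ range (D + 1), ∀ r2 ∈ range (D + 1), ∀ r3 ∈ range (D + 1), ∀ r4 ∈ range (D + 1),
      ∑ m ∈ Ico N (2 * N), S.la (m - r1 - r2) * S.J r2 r3 * S.la (m - r3 - r4) * S.J r4 r1 ≤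
      ∑ j ∈ Ico (N - 2 * D) (2 * N), ∑ j' ∈ Ico (N - 2 * D) (2 * N), S.la j * S.la j' *
        (if r1 + r2 + j = r3 + r4 + j' then S.J r2 r3 * S.J r4 r1 else 0) := by
    intro r1 h1' r2 h2' r3 h3' r4 h4'
    have e1 := Nat.lt_succ_iff.1 (Finset.mem_range.1 h1')
    have e2 := Nat.lt_succ_iff.1 (Finset.mem_range.1 h2')
    have e3 := Nat.lt_succ_iff.1 (Finset.mem_range.1 h3')
    have e4 := Nat.lt_succ_iff.1 (Finset.mem_range.1 h4')
    have hJ := mul_nonneg (J_nonneg S r2 r3) (J_nonneg S r4 r1)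
    have h5 : ∑ m ∈ Ico N (2 * N), S.la (m - r1 - r2) * S.J r2 r3 * S.la (m - r3 - r4) * S.J r4 r1 =
        ∑ j ∈ Ico (N - 2 * D) (2 * N), ∑ j' ∈ Ico (N - 2 * D) (2 * N), ∑ m ∈ Ico N (2 * N),
          (if r1 + r2 + j = m then S.la j else 0) * (if r3 + r4 + j' = m then S.la j' else 0) *
            (S.J r2 r3 * S.J r4 r1) := by
      have h6 : ∀ m ∈ Ico N (2 * N), S.la (m - r1 - r2) * S.J r2 r3 * S.la (m - r3 - r4) * S.J r4 r1 =
          ∑ j ∈ Ico (N - 2 * D) (2 * N), ∑ j' ∈ Ico (N - 2 * D) (2 * N),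
          (if r1 + r2 + j = m then S.la j else 0) * (if r3 + r4 + j' = m then S.la j' else 0) *
            (S.J r2 r3 * S.J r4 r1) := by
        intro m hm
        rw [Nat.sub_sub, Nat.sub_sub, hI m hm (r1 + r2) (by omega), hI m hm (r3 + r4) (by omega)]
        rw [show ∀ a b c d : ℝ, a * b * c * d = a * c * (b * d) from fun a b c d => by ring,
          Finset.sum_mul_sum, Finset.sum_mul]
        exact Finset.sum_congr rfl fun j _ => Finset.sum_mul _ _ _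
      rw [Finset.sum_congr rfl h6, Finset.sum_comm]
      exact Finset.sum_congr rfl fun j _ => Finset.sum_comm
    rw [h5]
    refine Finset.sum_le_sum fun j _ => Finset.sum_le_sum fun j' _ => ?_
    have hl := mul_nonneg (S.lann j) (S.lann j')
    by_cases hc : r1 + r2 + j = r3 + r4 + j'
    · rw [if_pos hc]
      have h7 : ∀ m ∈ Ico N (2 * N),
          (if r1 + r2 + j = m then S.la j else 0) * (if r3 + r4 + j' = m then S.la j' else 0) *
            (S.J r2 r3 * S.J r4 r1) =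
          if r1 + r2 + j = m then S.la j * S.la j' * (S.J r2 r3 * S.J r4 r1) else 0 := by
        intro m _
        by_cases hm : r1 + r2 + j = m
        · rw [if_pos hm, if_pos (hc ▸ hm), if_pos hm]
        · rw [if_neg hm, if_neg hm, zero_mul, zero_mul]
      rw [Finset.sum_congr rfl h7, Finset.sum_ite_eq]
      split_ifs
      · exact le_rfl
      · exact mul_nonneg hl hJ
    · rw [if_neg hc, mul_zero]
      refine le_of_eq (Finset.sum_eq_zero fun m _ => ?_)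
      by_cases hm : r1 + r2 + j = m
      · rw [if_neg (show ¬ r3 + r4 + j' = m by omega), mul_zero, zero_mul]
      · rw [if_neg hm, zero_mul, zero_mul]
  have h2 : ∑ m ∈ Ico N (2 * N), ∑ r1 ∈ range (D + 1), ∑ r2 ∈ range (D + 1), ∑ r3 ∈ range (D + 1),
      ∑ r4 ∈ range (D + 1), S.la (m - r1 - r2) * S.J r2 r3 * S.la (m - r3 - r4) * S.J r4 r1 ≤
      ∑ r1 ∈ range (D + 1), ∑ r2 ∈ range (D + 1), ∑ r3 ∈ range (D + 1), ∑ r4 ∈ range (D + 1),
      ∑ j ∈ Ico (N - 2 * D) (2 * N), ∑ j' ∈ Ico (N - 2 * D) (2 * N), S.la j * S.la j' *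
        (if r1 + r2 + j = r3 + r4 + j' then S.J r2 r3 * S.J r4 r1 else 0) := by
    rw [Finset.sum_comm]
    refine Finset.sum_le_sum fun r1 h1' => ?_
    rw [Finset.sum_comm]
    refine Finset.sum_le_sum fun r2 h2' => ?_
    rw [Finset.sum_comm]
    refine Finset.sum_le_sum fun r3 h3' => ?_
    rw [Finset.sum_comm]
    refine Finset.sum_le_sum fun r4 h4' => ?_
    exact h1 r1 h1' r2 h2' r3 h3' r4 h4'
  refine le_trans h2 ?_
  have h3 : ∑ r1 ∈ range (D + 1), ∑ r2 ∈ range (D + 1), ∑ r3 ∈ range (D + 1), ∑ r4 ∈ range (D + 1),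
      ∑ j ∈ Ico (N - 2 * D) (2 * N), ∑ j' ∈ Ico (N - 2 * D) (2 * N), S.la j * S.la j' *
        (if r1 + r2 + j = r3 + r4 + j' then S.J r2 r3 * S.J r4 r1 else 0) =
      ∑ j ∈ Ico (N - 2 * D) (2 * N), ∑ j' ∈ Ico (N - 2 * D) (2 * N), S.la j * S.la j' *
      ∑ r1 ∈ range (D + 1), ∑ r2 ∈ range (D + 1), ∑ r3 ∈ range (D + 1), ∑ r4 ∈ range (D + 1),
        (if r1 + r2 + j = r3 + r4 + j' then S.J r2 r3 * S.J r4 r1 else 0) := by
    have h4 : ∀ F : ℕ → ℕ → ℕ → ℕ → ℕ → ℕ → ℝ, ∑ r1 ∈ range (D + 1), ∑ r2 ∈ range (D + 1),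
        ∑ r3 ∈ range (D + 1), ∑ r4 ∈ range (D + 1),
        ∑ j ∈ Ico (N - 2 * D) (2 * N), ∑ j' ∈ Ico (N - 2 * D) (2 * N), F r1 r2 r3 r4 j j' =
        ∑ j ∈ Ico (N - 2 * D) (2 * N), ∑ j' ∈ Ico (N - 2 * D) (2 * N),
        ∑ r1 ∈ range (D + 1), ∑ r2 ∈ range (D + 1),
        ∑ r3 ∈ range (D + 1), ∑ r4 ∈ range (D + 1), F r1 r2 r3 r4 j j' := by
      intro F
      have h5 : ∀ (G : ℕ → ℕ → ℕ → ℕ → ℕ → ℝ) (I : Finset ℕ), ∑ r1 ∈ range (D + 1), ∑ r2 ∈ range (D + 1),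
          ∑ r3 ∈ range (D + 1), ∑ r4 ∈ range (D + 1), ∑ j ∈ I, G r1 r2 r3 r4 j =
          ∑ j ∈ I, ∑ r1 ∈ range (D + 1), ∑ r2 ∈ range (D + 1),
          ∑ r3 ∈ range (D + 1), ∑ r4 ∈ range (D + 1), G r1 r2 r3 r4 j := by
        intro G I
        symm
        rw [Finset.sum_comm]
        refine Finset.sum_congr rfl fun r1 _ => ?_
        rw [Finset.sum_comm]
        refine Finset.sum_congr rfl fun r2 _ => ?_
        rw [Finset.sum_comm]
        refine Finset.sum_congr rfl fun r3 _ => ?_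
        rw [Finset.sum_comm]
      rw [h5 (fun r1 r2 r3 r4 j => ∑ j' ∈ Ico (N - 2 * D) (2 * N), F r1 r2 r3 r4 j j')]
      refine Finset.sum_congr rfl fun j _ => ?_
      rw [h5 (fun r1 r2 r3 r4 j' => F r1 r2 r3 r4 j j')]
    rw [h4]
    refine Finset.sum_congr rfl fun j _ => Finset.sum_congr rfl fun j' _ => ?_
    simp only [Finset.mul_sum]
  rw [h3]
  have h6 : ∀ j j', S.la j * S.la j' *
      ∑ r1 ∈ range (D + 1), ∑ r2 ∈ range (D + 1), ∑ r3 ∈ range (D + 1), ∑ r4 ∈ range (D + 1),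
        (if r1 + r2 + j = r3 + r4 + j' then S.J r2 r3 * S.J r4 r1 else 0) ≤
      S.la j * S.la j' * (16 * S.U1 D ^ 2) := fun j j' =>
    mul_le_mul_of_nonneg_left (quad S D j j') (mul_nonneg (S.lann _) (S.lann _))
  refine le_trans (Finset.sum_le_sum fun j _ => Finset.sum_le_sum fun j' _ => h6 j j') ?_
  simp only [← Finset.sum_mul, ← Finset.mul_sum]
  have h7 := la_win S (N - 2 * D) (2 * N)
  have h8 : 0 ≤ ∑ j ∈ Ico (N - 2 * D) (2 * N), S.la j := Finset.sum_nonneg fun j _ => S.lann j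
  refine mul_le_mul_of_nonneg_right ?_ (by positivity)
  rw [sq]
  exact mul_le_mul h7 h7 h8 (T_nonneg S _)

end Pool.Agent.ZLF.Sq
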