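import Pool.Agent.ZLF.Mats
import Pool.Agent.ZLF.RAvg
import Pool.Agent.ZLF.RSum

/-!
Module EtaA: the sum of the norms of the strands of one dyadic scale.

PAPER PROOF. Let `N = 2 ^ k`, `n = N / 4` (integer part), `D ≤ n` from `avg`, `4 D ≤ N`. `C` denotes constants which depend on `Z` only.
Numbers: `2 N + 1 ≤ 9 (n + 1)`, so `U (2 N) ≤ 9 U n`; `T (N - 2 D) ≤ T n ≤ 1 / U1 n` (`N - 2 D ≥ n`, `T_anti`, `T_U1`), `U1 D ≤ U1 n`,
`U1 n ≤ U1 (2 N)`, `U1 (2 N) ^ 2 ≤ (2 N + 1) U (2 N) ≤ 3 N * 9 * U n`. `y = yv S Z k D`, `J = Jm S D`, `M d = Mm S Z D d`, `L d = Lm S Z D d`.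
(1) `θ = y ⬝ J y = Z * U1 (2 N) * X n D` (`Finset.sum_range`), so `θ ^ 2 ≤ Z ^ 2 * 27 * N * U n * X n D ^ 2 ≤ 27 * 648 * Z ^ 2 * N`: `θ ≤ C √N`.
(2) `θ ≥ y 0 ^ 2 * J 0 0 ≥ Z * U1 (2 N) / (U1 n) ^ 2 > 0` (`J_zero`, all terms `≥ 0`, `hh n D ≥ 1 / U1 n`).
(3) `y ⬝ b = √(Z * U1 (2 N)) * (1 + U1 D / U1 n) ≤ 2 √(Z * U1 (2 N))` (`bT`). So `2 (y ⬝ b) ^ 2 / θ ≤ 8 (U1 n) ^ 2 ≤ 8 (n + 1) ^ 2 ≤ 32 N ^ 2`.
(4) `∑ d ∈ Ico N (2 N), (M d + L d) i j ≤ Z * (T (D - i) * T (D - j) * U1 (2 N) + T (N - 2 D)) ≤ y i * y j` (`sumB`;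
`T (N - 2 D) ≤ 1 / U1 n ≤ U1 (2 N) / (U1 n) ^ 2`). With `p = J y ≥ 0`: `∑ d, 2 (p ⬝ (M d + L d) p) / θ ≤ 2 (p ⬝ y) ^ 2 / θ = 2 θ`.
(5) `∑ d, trace (M d J M d J) = Z ^ 2 * (left side of sumM) ≤ Z ^ 2 * U (2 N) * X n D ^ 2 ≤ 9 * 648 * Z ^ 2` (`trM`, `T ≤ hh`), and
`∑ d, trace (L d J L d J) ≤ Z ^ 2 * T (N - 2 D) ^ 2 * 16 * U1 D ^ 2 ≤ 16 Z ^ 2` (`trL`, `sumL`); by Cauchy-Schwarz over the `N` values of `d` the
sums of the square roots are `≤ C √N`. So (6) `∑ d ∈ Ico N (2 N), eta J (M d) (L d) y ≤ C √N`.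
-/

namespace Pool.Agent.ZLF

open Finset Matrix

private theorem EtaA_hh_nonneg (S : Sq) (n a : ℕ) : 0 ≤ S.hh n a := by
  unfold Sq.hh
  have h1 := S.T_nonneg a
  have h2 := S.one_le_U1 n
  positivity

private theorem EtaA_a (S : Sq) {Z : ℝ} (hZ : 0 < Z) (m : ℕ) : 0 < Z * S.U1 m := by
  have h2 := S.one_le_U1 m
  positivity

private theorem EtaA_theta (S : Sq) {Z : ℝ} (hZ : 0 < Z) (k D : ℕ) :
    yv S Z k D ⬝ᵥ (Jm S D *ᵥ yv S Z k D) = Z * S.U1 (2 * 2 ^ k) * S.X (2 ^ k / 4) D := by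
  have h := Real.mul_self_sqrt (EtaA_a S hZ (2 * 2 ^ k)).le
  unfold Sq.X
  rw [Finset.sum_range, Finset.mul_sum]
  simp only [dotProduct, mulVec]
  refine Finset.sum_congr rfl fun i _ => ?_
  rw [Finset.sum_range, Finset.mul_sum, Finset.mul_sum]
  refine Finset.sum_congr rfl fun j _ => ?_
  simp only [yv, Jm, Matrix.of_apply]
  linear_combination (S.hh (2 ^ k / 4) (D - i) * S.J i j * S.hh (2 ^ k / 4) (D - j)) * h

private theorem EtaA_X_low (S : Sq) (n D : ℕ) : ((S.U1 n)⁻¹) ^ 2 ≤ S.X n D := by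
  have h1 : S.hh n (D - 0) * S.hh n (D - 0) * S.J 0 0 ≤ S.X n D := by
    unfold Sq.X
    have hnn : ∀ r s, 0 ≤ S.hh n (D - r) * S.hh n (D - s) * S.J r s := fun r s =>
      mul_nonneg (mul_nonneg (EtaA_hh_nonneg S _ _) (EtaA_hh_nonneg S _ _)) (S.J_nonneg _ _)
    refine le_trans ?_ (Finset.single_le_sum (f := fun r => ∑ s ∈ range (D + 1),
      S.hh n (D - r) * S.hh n (D - s) * S.J r s) (fun r _ => Finset.sum_nonneg fun s _ => hnn r s)
      (Finset.mem_range.2 (Nat.succ_pos D)))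
    exact Finset.single_le_sum (f := fun s => S.hh n (D - 0) * S.hh n (D - s) * S.J 0 s)
      (fun s _ => hnn 0 s) (Finset.mem_range.2 (Nat.succ_pos D))
  rw [S.J_zero, mul_one] at h1
  have h2 : (S.U1 n)⁻¹ ≤ S.hh n (D - 0) := by
    unfold Sq.hh
    have := S.T_nonneg (D - 0)
    linarith
  have h3 : 0 ≤ (S.U1 n)⁻¹ := inv_nonneg.mpr (le_trans zero_le_one (S.one_le_U1 n))
  nlinarith

private theorem EtaA_yb (S : Sq) {Z : ℝ} (k D : ℕ) :
    yv S Z k D ⬝ᵥ bv S D = Real.sqrt (Z * S.U1 (2 * 2 ^ k)) * (1 + S.U1 D * (S.U1 (2 ^ k / 4))⁻¹) := by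
  have h1 : ∑ r ∈ range (D + 1), S.b r * S.hh (2 ^ k / 4) (D - r) = 1 + S.U1 D * (S.U1 (2 ^ k / 4))⁻¹ := by
    unfold Sq.hh
    rw [Finset.sum_congr rfl (fun r _ => mul_add (S.b r) (S.T (D - r)) (S.U1 (2 ^ k / 4))⁻¹),
      Finset.sum_add_distrib, S.bT D, ← Finset.sum_mul]
    rfl
  rw [← h1, Finset.sum_range, Finset.mul_sum]
  simp only [dotProduct]
  refine Finset.sum_congr rfl fun i _ => ?_
  simp only [yv, bv]
  ring

private theorem EtaA_cs (a b : ℕ) (t : ℕ → ℝ) (ht : ∀ d, 0 ≤ t d) {B : ℝ}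
    (hB : ∑ d ∈ Ico a b, t d ≤ B) : (∑ d ∈ Ico a b, Real.sqrt (t d)) ^ 2 ≤ ((b - a : ℕ) : ℝ) * B := by
  have h := Finset.sum_mul_sq_le_sq_mul_sq (Ico a b) (fun _ => (1 : ℝ)) (fun d => Real.sqrt (t d))
  simp only [one_mul, one_pow, Finset.sum_const, Nat.card_Ico, nsmul_eq_mul, mul_one] at h
  have h2 : ∑ d ∈ Ico a b, Real.sqrt (t d) ^ 2 = ∑ d ∈ Ico a b, t d :=
    Finset.sum_congr rfl fun d _ => Real.sq_sqrt (ht d)
  rw [h2] at h
  exact le_trans h (mul_le_mul_of_nonneg_left hB (Nat.cast_nonneg _))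

private theorem EtaA_four (a b : ℕ → ℕ → ℝ) (J : ℕ → ℕ → ℝ) (D : ℕ) (ha : ∀ i j, 0 ≤ a i j) (hb : ∀ i j, 0 ≤ b i j)
    (hJ : ∀ i j, 0 ≤ J i j) : 0 ≤ ∑ r1 ∈ range (D + 1), ∑ r2 ∈ range (D + 1), ∑ r3 ∈ range (D + 1),
      ∑ r4 ∈ range (D + 1), a r1 r2 * J r2 r3 * b r3 r4 * J r4 r1 := by
  refine Finset.sum_nonneg fun _ _ => Finset.sum_nonneg fun _ _ => Finset.sum_nonneg fun _ _ =>
    Finset.sum_nonneg fun _ _ => ?_
  exact mul_nonneg (mul_nonneg (mul_nonneg (ha _ _) (hJ _ _)) (hb _ _)) (hJ _ _)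

theorem etaA (S : Sq) (Z : ℝ) (hZ : 0 < Z) : ∃ C : ℝ, 0 < C ∧ ∀ k : ℕ, ∃ D : ℕ, 4 * D ≤ 2 ^ k ∧
    0 < yv S Z k D ⬝ᵥ (Jm S D *ᵥ yv S Z k D) ∧
    2 * (yv S Z k D ⬝ᵥ bv S D) ^ 2 / (yv S Z k D ⬝ᵥ (Jm S D *ᵥ yv S Z k D)) ≤ 32 * (2 ^ k) ^ 2 ∧
    ∑ d ∈ Ico (2 ^ k) (2 ^ (k + 1)), eta (Jm S D) (Mm S Z D d) (Lm S Z D d) (yv S Z k D) ≤
      C * Real.sqrt (2 ^ k) := by
  refine ⟨347 * Z, by positivity, fun k => ?_⟩
  obtain ⟨N, hN⟩ : ∃ N : ℕ, N = 2 ^ k := ⟨_, rfl⟩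
  have hN1 : 1 ≤ N := by rw [hN]; exact Nat.one_le_two_pow
  obtain ⟨n, hn⟩ : ∃ n : ℕ, n = 2 ^ k / 4 := ⟨_, rfl⟩
  have hnN : n = N / 4 := by rw [hn, hN]
  obtain ⟨D, hD, hX⟩ := S.avg n
  have hNR : ((N : ℕ) : ℝ) = 2 ^ k := by rw [hN]; push_cast; rfl
  have hN1R : (1 : ℝ) ≤ N := by exact_mod_cast hN1
  have h4D : 4 * D ≤ N := by omega
  have hth := EtaA_theta S hZ k D
  rw [← hN, ← hnN] at hth
  have hXl := EtaA_X_low S n D
  have hU1n := S.one_le_U1 n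
  have hU1N := S.one_le_U1 (2 * N)
  have hU1D := S.one_le_U1 D
  have hUn := S.one_le_U n
  have hinv : 0 < (S.U1 n)⁻¹ := inv_pos.mpr (by linarith)
  have hXpos : 0 < S.X n D := lt_of_lt_of_le (by positivity) hXl
  have ha : 0 < Z * S.U1 (2 * N) := EtaA_a S hZ _
  have hthpos : 0 < Z * S.U1 (2 * N) * S.X n D := mul_pos ha hXpos
  have hDn : S.U1 D ≤ S.U1 n := S.U1_mono hD
  have hnN2 : S.U1 n ≤ S.U1 (2 * N) := S.U1_mono (by omega)
  have hU9 : S.U (2 * N) ≤ (9 : ℕ) * S.U n := S.U_sub (by omega)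
  push_cast at hU9
  have hT1 : S.T (N - 2 * D) ≤ (S.U1 n)⁻¹ := by
    refine le_trans (S.T_anti (show n ≤ N - 2 * D by omega)) ?_
    rw [← one_div, le_div_iff₀ (by linarith)]
    exact S.T_U1 n
  have hT0 : 0 ≤ S.T (N - 2 * D) := S.T_nonneg _
  obtain ⟨θ, hθ⟩ : ∃ θ : ℝ, θ = Z * S.U1 (2 * N) * S.X n D := ⟨_, rfl⟩
  have hθpos : 0 < θ := by rw [hθ]; exact hthpos
  have hth' : yv S Z k D ⬝ᵥ (Jm S D *ᵥ yv S Z k D) = θ := by rw [hth, hθ]
  refine ⟨D, by omega, ?_, ?_, ?_⟩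
  · rw [hth']
    exact hθpos
  · rw [hth', div_le_iff₀ hθpos]
    have hyb := EtaA_yb S (Z := Z) k D
    rw [← hN, ← hnN] at hyb
    have h5 : S.U1 D * (S.U1 n)⁻¹ ≤ 1 := by
      rw [← div_eq_mul_inv, div_le_iff₀ (by linarith)]
      linarith
    have h6 : 0 ≤ S.U1 D * (S.U1 n)⁻¹ := by positivity
    have hsq := Real.sq_sqrt ha.le
    have h7 : (yv S Z k D ⬝ᵥ bv S D) ^ 2 ≤ 4 * (Z * S.U1 (2 * N)) := by
      rw [hyb, mul_pow, hsq]
      have h8 : (1 + S.U1 D * (S.U1 n)⁻¹) ^ 2 ≤ 4 := by nlinarith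
      nlinarith
    have h9 : S.U1 n ≤ (n : ℝ) + 1 := S.U1_le n
    have h10 : (n : ℝ) + 1 ≤ 2 * (N : ℝ) := by
      have : n + 1 ≤ 2 * N := by omega
      exact_mod_cast this
    have h11 : S.U1 n * S.U1 n ≤ 4 * (N : ℝ) ^ 2 := by nlinarith
    have h12 : 1 ≤ S.U1 n ^ 2 * S.X n D := by
      have h13 : S.U1 n ^ 2 * ((S.U1 n)⁻¹) ^ 2 = 1 := by
        rw [← mul_pow, mul_inv_cancel₀ (by linarith), one_pow]
      calc (1 : ℝ) = S.U1 n ^ 2 * ((S.U1 n)⁻¹) ^ 2 := h13.symm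
        _ ≤ S.U1 n ^ 2 * S.X n D := mul_le_mul_of_nonneg_left hXl (by positivity)
    have h14 : 1 ≤ 4 * (N : ℝ) ^ 2 * S.X n D := by
      refine le_trans h12 (mul_le_mul_of_nonneg_right ?_ hXpos.le)
      rw [sq]
      exact h11
    rw [← hNR, hθ]
    calc 2 * (yv S Z k D ⬝ᵥ bv S D) ^ 2 ≤ 8 * (Z * S.U1 (2 * N)) * 1 := by linarith
      _ ≤ 8 * (Z * S.U1 (2 * N)) * (4 * (N : ℝ) ^ 2 * S.X n D) :=
          mul_le_mul_of_nonneg_left h14 (by positivity)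
      _ = 32 * (N : ℝ) ^ 2 * (Z * S.U1 (2 * N) * S.X n D) := by ring
  · have hpow : 2 ^ (k + 1) = 2 * N := by rw [hN]; ring
    rw [hpow, ← hN, ← hNR]
    have hsN := Real.sq_sqrt (show (0 : ℝ) ≤ N by linarith)
    have hsN0 := Real.sqrt_nonneg (N : ℝ)
    -- (1)
    have hθle : θ ≤ 133 * Z * Real.sqrt N := by
      refine le_of_sq_le_sq ?_ (by positivity)
      rw [mul_pow, mul_pow, hsN, hθ, mul_pow, mul_pow]
      have h1 : S.U1 (2 * N) ^ 2 ≤ (((2 * N : ℕ) : ℝ) + 1) * S.U (2 * N) := S.U1_sq (2 * N)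
      push_cast at h1
      have h2 : (2 * (N : ℝ) + 1) * S.U (2 * N) ≤ 3 * N * (9 * S.U n) := by
        have h3 : 0 ≤ S.U (2 * N) := le_trans zero_le_one (S.one_le_U _)
        nlinarith
      have h4 : S.U1 (2 * N) ^ 2 * S.X n D ^ 2 ≤ 17496 * (N : ℝ) := by
        calc S.U1 (2 * N) ^ 2 * S.X n D ^ 2 ≤ (3 * N * (9 * S.U n)) * S.X n D ^ 2 :=
              mul_le_mul_of_nonneg_right (le_trans h1 h2) (sq_nonneg _)
          _ = 27 * N * (S.X n D ^ 2 * S.U n) := by ring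
          _ ≤ 27 * N * 648 := mul_le_mul_of_nonneg_left hX (by positivity)
          _ = 17496 * (N : ℝ) := by ring
      have h5 : 0 < Z ^ 2 := by positivity
      calc Z ^ 2 * S.U1 (2 * N) ^ 2 * S.X n D ^ 2 = Z ^ 2 * (S.U1 (2 * N) ^ 2 * S.X n D ^ 2) := by ring
        _ ≤ Z ^ 2 * (17496 * (N : ℝ)) := mul_le_mul_of_nonneg_left h4 h5.le
        _ ≤ 133 ^ 2 * Z ^ 2 * N := by nlinarith [mul_pos h5 (show (0 : ℝ) < N by linarith)]
    -- (5)
    have hM : (∑ d ∈ Ico N (2 * N), Real.sqrt ((Mm S Z D d * Jm S D * Mm S Z D d * Jm S D).trace)) ≤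
        77 * Z * Real.sqrt N := by
      refine le_of_sq_le_sq ?_ (by positivity)
      have h0 : ∀ d, 0 ≤ (Mm S Z D d * Jm S D * Mm S Z D d * Jm S D).trace := by
        intro d
        rw [trM]
        refine mul_nonneg (sq_nonneg _) ?_
        exact EtaA_four (fun i j => S.mid (d - i - j) (D - i) (D - j)) (fun i j => S.mid (d - i - j) (D - i) (D - j))
          S.J D (fun _ _ => mid_nonneg S _ _ _) (fun _ _ => mid_nonneg S _ _ _) S.J_nonneg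
      have h1 : ∑ d ∈ Ico N (2 * N), (Mm S Z D d * Jm S D * Mm S Z D d * Jm S D).trace ≤ 5832 * Z ^ 2 := by
        rw [Finset.sum_congr rfl fun d _ => trM S Z D d, ← Finset.mul_sum]
        have h2 := S.sumM (N := N) (D := D) (by omega)
        have h3 : 0 ≤ ∑ r ∈ range (D + 1), ∑ s ∈ range (D + 1), S.T (D - r) * S.T (D - s) * S.J r s :=
          Finset.sum_nonneg fun _ _ => Finset.sum_nonneg fun _ _ =>
            mul_nonneg (mul_nonneg (S.T_nonneg _) (S.T_nonneg _)) (S.J_nonneg _ _)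
        have h4 : ∑ r ∈ range (D + 1), ∑ s ∈ range (D + 1), S.T (D - r) * S.T (D - s) * S.J r s ≤ S.X n D := by
          unfold Sq.X
          refine Finset.sum_le_sum fun r _ => Finset.sum_le_sum fun s _ => ?_
          have hr : S.T (D - r) ≤ S.hh n (D - r) := by unfold Sq.hh; linarith
          have hs : S.T (D - s) ≤ S.hh n (D - s) := by unfold Sq.hh; linarith
          exact mul_le_mul_of_nonneg_right (mul_le_mul hr hs (S.T_nonneg _) (EtaA_hh_nonneg S _ _)) (S.J_nonneg _ _)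
        have h5 : S.U (2 * N) * (∑ r ∈ range (D + 1), ∑ s ∈ range (D + 1), S.T (D - r) * S.T (D - s) * S.J r s) ^ 2 ≤
            5832 := by
          have h6 : (∑ r ∈ range (D + 1), ∑ s ∈ range (D + 1), S.T (D - r) * S.T (D - s) * S.J r s) ^ 2 ≤
              S.X n D ^ 2 := pow_le_pow_left₀ h3 h4 2
          calc _ ≤ (9 * S.U n) * S.X n D ^ 2 :=
                mul_le_mul hU9 h6 (sq_nonneg _) (by linarith)
            _ = 9 * (S.X n D ^ 2 * S.U n) := by ring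
            _ ≤ 9 * 648 := mul_le_mul_of_nonneg_left hX (by norm_num)
            _ = 5832 := by norm_num
        calc _ ≤ Z ^ 2 * 5832 := mul_le_mul_of_nonneg_left (le_trans h2 h5) (sq_nonneg _)
          _ = 5832 * Z ^ 2 := by ring
      have h7 := EtaA_cs N (2 * N) _ h0 h1
      rw [show 2 * N - N = N by omega] at h7
      rw [mul_pow, mul_pow, hsN]
      refine le_trans h7 ?_
      nlinarith [mul_pos (show (0 : ℝ) < Z ^ 2 by positivity) (show (0 : ℝ) < N by linarith)]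
    have hL : (∑ d ∈ Ico N (2 * N), Real.sqrt ((Lm S Z D d * Jm S D * Lm S Z D d * Jm S D).trace)) ≤
        4 * Z * Real.sqrt N := by
      refine le_of_sq_le_sq ?_ (by positivity)
      have h0 : ∀ d, 0 ≤ (Lm S Z D d * Jm S D * Lm S Z D d * Jm S D).trace := by
        intro d
        rw [trL]
        refine mul_nonneg (sq_nonneg _) ?_
        exact EtaA_four (fun i j => S.la (d - i - j)) (fun i j => S.la (d - i - j))
          S.J D (fun _ _ => S.lann _) (fun _ _ => S.lann _) S.J_nonneg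
      have h1 : ∑ d ∈ Ico N (2 * N), (Lm S Z D d * Jm S D * Lm S Z D d * Jm S D).trace ≤ 16 * Z ^ 2 := by
        rw [Finset.sum_congr rfl fun d _ => trL S Z D d, ← Finset.mul_sum]
        have h2 := S.sumL (N := N) (D := D) (by omega)
        have h5 : S.T (N - 2 * D) ^ 2 * (16 * S.U1 D ^ 2) ≤ 16 := by
          have h6 : S.T (N - 2 * D) * S.U1 D ≤ 1 := by
            calc S.T (N - 2 * D) * S.U1 D ≤ (S.U1 n)⁻¹ * S.U1 n :=
                  mul_le_mul hT1 hDn (by linarith) hinv.le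
              _ = 1 := inv_mul_cancel₀ (by linarith)
          have h7 : 0 ≤ S.T (N - 2 * D) * S.U1 D := mul_nonneg hT0 (by linarith)
          have h8 : (S.T (N - 2 * D) * S.U1 D) ^ 2 ≤ 1 := pow_le_one₀ h7 h6
          nlinarith
        calc _ ≤ Z ^ 2 * 16 := mul_le_mul_of_nonneg_left (le_trans h2 h5) (sq_nonneg _)
          _ = 16 * Z ^ 2 := by ring
      have h7 := EtaA_cs N (2 * N) _ h0 h1
      rw [show 2 * N - N = N by omega] at h7
      rw [mul_pow, mul_pow, hsN]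
      refine le_trans h7 ?_
      nlinarith [mul_pos (show (0 : ℝ) < Z ^ 2 by positivity) (show (0 : ℝ) < N by linarith)]
    -- (4)
    obtain ⟨p, hp⟩ : ∃ p : Fin (D + 1) → ℝ, p = Jm S D *ᵥ yv S Z k D := ⟨_, rfl⟩
    have hp0 : ∀ i, 0 ≤ p i := by
      intro i
      rw [hp]
      simp only [mulVec, dotProduct]
      exact Finset.sum_nonneg fun j _ => mul_nonneg (Jm_nonneg S D _ _) (yv_nonneg S Z k D _)
    have hB : ∀ i j : Fin (D + 1), ∑ d ∈ Ico N (2 * N), (Mm S Z D d + Lm S Z D d) i j ≤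
        yv S Z k D i * yv S Z k D j := by
      intro i j
      have h1 := S.sumB (N := N) (D := D) (r := i) (s := j) (by omega) (by omega) (by omega)
      have h2 : ∑ d ∈ Ico N (2 * N), (Mm S Z D d + Lm S Z D d) i j =
          Z * ∑ m ∈ Ico N (2 * N), (S.mid (m - i - j) (D - i) (D - j) + S.la (m - i - j)) := by
        rw [Finset.mul_sum]
        refine Finset.sum_congr rfl fun d _ => ?_
        simp only [Matrix.add_apply, Mm, Lm, Matrix.of_apply]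
        ring
      rw [h2]
      have h3 : yv S Z k D i * yv S Z k D j = Z * (S.U1 (2 * N) * (S.hh n (D - i) * S.hh n (D - j))) := by
        have h := Real.mul_self_sqrt ha.le
        simp only [yv]
        rw [← hN, ← hnN]
        linear_combination (S.hh n (D - i) * S.hh n (D - j)) * h
      rw [h3]
      refine mul_le_mul_of_nonneg_left (le_trans h1 ?_) hZ.le
      have h4 : S.T (N - 2 * D) ≤ S.U1 (2 * N) * ((S.U1 n)⁻¹ * (S.U1 n)⁻¹) := by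
        have h5 : (1 : ℝ) ≤ S.U1 (2 * N) * (S.U1 n)⁻¹ := by
          calc (1 : ℝ) = S.U1 n * (S.U1 n)⁻¹ := (mul_inv_cancel₀ (by linarith)).symm
            _ ≤ _ := mul_le_mul_of_nonneg_right hnN2 hinv.le
        nlinarith
      have hTi := S.T_nonneg (D - i)
      have hTj := S.T_nonneg (D - j)
      have h6 : S.hh n (D - i) * S.hh n (D - j) = S.T (D - i) * S.T (D - j) + (S.U1 n)⁻¹ * (S.U1 n)⁻¹ +
          (S.T (D - i) * (S.U1 n)⁻¹ + (S.U1 n)⁻¹ * S.T (D - j)) := by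
        unfold Sq.hh
        ring
      rw [h6]
      have h7 : 0 ≤ S.U1 (2 * N) * (S.T (D - i) * (S.U1 n)⁻¹ + (S.U1 n)⁻¹ * S.T (D - j)) := by positivity
      nlinarith
    have hQ : ∑ d ∈ Ico N (2 * N), p ⬝ᵥ ((Mm S Z D d + Lm S Z D d) *ᵥ p) ≤ θ ^ 2 := by
      have h1 : ∑ d ∈ Ico N (2 * N), p ⬝ᵥ ((Mm S Z D d + Lm S Z D d) *ᵥ p) =
          ∑ i, ∑ j, p i * p j * ∑ d ∈ Ico N (2 * N), (Mm S Z D d + Lm S Z D d) i j := by
        simp only [dotProduct, mulVec, Finset.mul_sum]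
        rw [Finset.sum_comm]
        refine Finset.sum_congr rfl fun i _ => ?_
        rw [Finset.sum_comm]
        refine Finset.sum_congr rfl fun j _ => Finset.sum_congr rfl fun d _ => ?_
        ring
      have h2 : p ⬝ᵥ yv S Z k D = θ := by
        rw [hp, dotProduct_comm]
        exact hth'
      have h3 : θ ^ 2 = ∑ i, ∑ j, p i * p j * (yv S Z k D i * yv S Z k D j) := by
        rw [← h2, sq]
        simp only [dotProduct]
        rw [Finset.sum_mul_sum]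
        refine Finset.sum_congr rfl fun i _ => Finset.sum_congr rfl fun j _ => ?_
        ring
      rw [h1, h3]
      exact Finset.sum_le_sum fun i _ => Finset.sum_le_sum fun j _ =>
        mul_le_mul_of_nonneg_left (hB i j) (mul_nonneg (hp0 i) (hp0 j))
    have hE : ∑ d ∈ Ico N (2 * N), eta (Jm S D) (Mm S Z D d) (Lm S Z D d) (yv S Z k D) =
        2 * (∑ d ∈ Ico N (2 * N), p ⬝ᵥ ((Mm S Z D d + Lm S Z D d) *ᵥ p)) / θ +
          (∑ d ∈ Ico N (2 * N), Real.sqrt ((Mm S Z D d * Jm S D * Mm S Z D d * Jm S D).trace)) +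
          (∑ d ∈ Ico N (2 * N), Real.sqrt ((Lm S Z D d * Jm S D * Lm S Z D d * Jm S D).trace)) := by
      rw [Finset.mul_sum, Finset.sum_div, ← Finset.sum_add_distrib, ← Finset.sum_add_distrib]
      refine Finset.sum_congr rfl fun d _ => ?_
      rw [eta, hth', ← hp]
    rw [hE]
    have h1 : 2 * (∑ d ∈ Ico N (2 * N), p ⬝ᵥ ((Mm S Z D d + Lm S Z D d) *ᵥ p)) / θ ≤ 2 * θ := by
      rw [div_le_iff₀ hθpos]
      nlinarith
    nlinarith

end Pool.Agent.ZLF
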