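import Pool.Agent.ZLF.MainF
import Pool.Agent.SHP.Crit
import Pool.Agent.SHP.Cut
import Pool.Agent.ZHW.Split

/-!
Module FinF: the theorem.

PAPER PROOF. Copy ZCS/FinC and ZCS/FinalC (private lemmas included), with `X = k ^ (1/3)` and `ε = X / (2 k) = k ^ (-2/3) / 2 ≤ 1 / 2` for
`k ≥ 1`: `2 ε (k + 2) ≤ 3 X` and `√(1 / ε) = √2 * k ^ (1/3) ≤ 2 X`.
-/

namespace Pool.Agent.ZLF

open Pool.Agent.SHP Pool.Agent.SHP.Plane Pool.Agent.ZHW
open scoped ENNReal NNReal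

private theorem FinF_halfs (t : Bool) (z : ℝ≥0) (B : ℝ≥0∞) (hHT : ∀ m : ℕ, gf (HT t m) z ≤ B) :
    gf (halfs t) z ≤ B := by
  classical
  have h1 : ∀ A : Set (List (ℤ × ℤ)), gf A z =
      ∑' l : List (ℤ × ℤ), A.indicator (fun l : List (ℤ × ℤ) => (z : ℝ≥0∞) ^ l.length) l := by
    intro A
    unfold gf
    rw [tsum_subtype A (fun l : List (ℤ × ℤ) => (z : ℝ≥0∞) ^ l.length)]
  rw [h1, ENNReal.tsum_eq_iSup_sum]
  apply iSup_le
  intro F
  let T := F.sup List.length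
  refine le_trans ?_ (hHT T)
  rw [h1]
  refine le_trans ?_ (ENNReal.sum_le_tsum F)
  apply Finset.sum_le_sum
  intro l hl
  by_cases hh : l ∈ halfs t
  · have h2 : l ∈ HT t T := halfs_mem_HT hh (Finset.le_sup (f := List.length) hl)
    rw [Set.indicator_of_mem hh, Set.indicator_of_mem h2]
  · rw [Set.indicator_of_notMem hh]
    exact zero_le

private theorem FinF_saws (t : Bool) (z : ℝ≥0) :
    (z : ℝ≥0∞) ^ 2 * gf (saws t) z ≤ gf (halfs t) z ^ 2 := by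
  have h1 : gf (saws t) z ≤ gf (chalfs t) z * gf (chalfs t) z := by
    refine (saws_le_disj z).trans ?_
    have h2 : disjPairs t ⊆ (chalfs t) ×ˢ (chalfs t) := by
      rintro ⟨u, v⟩ ⟨hu, hv, _⟩
      exact ⟨hu, hv⟩
    refine (gf2_mono_set h2 z).trans ?_
    rw [gf2_prod]
  calc (z : ℝ≥0∞) ^ 2 * gf (saws t) z ≤ (z : ℝ≥0∞) ^ 2 * (gf (chalfs t) z * gf (chalfs t) z) := by
        gcongr
    _ = ((z : ℝ≥0∞) * gf (chalfs t) z) ^ 2 := by ring
    _ ≤ gf (halfs t) z ^ 2 := by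
        gcongr
        exact chalfs_le z

private theorem FinF_cnt (t : Bool) (z : ℝ≥0) (n : ℕ) (b : ℝ) (hb : 0 ≤ b)
    (h : gf (halfs t) z ≤ ENNReal.ofReal b) :
    (z : ℝ) ^ (n + 2) * (cnt (saws t) n : ℝ) ≤ b ^ 2 := by
  have h1 : (cnt (saws t) n : ℝ≥0∞) * (z : ℝ≥0∞) ^ n ≤ gf (saws t) z := by
    rw [gf_eq_cnt (t := t) (fun l hl => hl.1) z]
    exact ENNReal.le_tsum (f := fun n : ℕ => (cnt (saws t) n : ℝ≥0∞) * (z : ℝ≥0∞) ^ n) n
  have h2 : (z : ℝ≥0∞) ^ (n + 2) * (cnt (saws t) n : ℝ≥0∞) ≤ ENNReal.ofReal (b ^ 2) := by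
    calc (z : ℝ≥0∞) ^ (n + 2) * (cnt (saws t) n : ℝ≥0∞)
        = (z : ℝ≥0∞) ^ 2 * ((cnt (saws t) n : ℝ≥0∞) * (z : ℝ≥0∞) ^ n) := by ring
      _ ≤ (z : ℝ≥0∞) ^ 2 * gf (saws t) z := by gcongr
      _ ≤ gf (halfs t) z ^ 2 := FinF_saws t z
      _ ≤ (ENNReal.ofReal b) ^ 2 := by gcongr
      _ = ENNReal.ofReal (b ^ 2) := by rw [ENNReal.ofReal_pow hb]
  have h3 : (z : ℝ≥0∞) ^ (n + 2) * (cnt (saws t) n : ℝ≥0∞) =
      ENNReal.ofReal ((z : ℝ) ^ (n + 2) * (cnt (saws t) n : ℝ)) := by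
    rw [ENNReal.ofReal_mul (by positivity), ENNReal.ofReal_pow (by positivity),
      ENNReal.ofReal_coe_nnreal, ENNReal.ofReal_natCast]
  rw [h3] at h2
  exact (ENNReal.ofReal_le_ofReal_iff (by positivity)).1 h2

private theorem FinF_zero (t : Bool) : (cnt (saws t) 0 : ℝ) ≤ 1 := by
  have h : cnt (saws t) 0 ≤ 1 := by
    unfold cnt
    refine (Set.ncard_le_ncard (t := {([] : List (ℤ × ℤ))}) ?_ (Set.finite_singleton _)).trans ?_
    · rintro l ⟨_, hl⟩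
      exact List.eq_nil_of_length_eq_zero hl
    · rw [Set.ncard_singleton]
  exact_mod_cast h

private theorem FinF_inv (ε : ℝ) (h0 : 0 < ε) (h1 : ε ≤ 1 / 2) (m : ℕ) :
    1 ≤ (1 - ε) ^ m * Real.exp (2 * ε * m) := by
  have h2 : (1 : ℝ) ≤ (1 - ε) * Real.exp (2 * ε) := by
    have h3 : (0 : ℝ) < 1 - ε := by linarith
    have h4 : 1 + 2 * ε ≤ Real.exp (2 * ε) := by
      have := Real.add_one_le_exp (2 * ε)
      linarith
    have h5 : (1 : ℝ) ≤ (1 - ε) * (1 + 2 * ε) := by nlinarith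
    calc (1 : ℝ) ≤ (1 - ε) * (1 + 2 * ε) := h5
      _ ≤ (1 - ε) * Real.exp (2 * ε) := by gcongr
  calc (1 : ℝ) ≤ ((1 - ε) * Real.exp (2 * ε)) ^ m := one_le_pow₀ h2
    _ = (1 - ε) ^ m * Real.exp (2 * ε * m) := by
        rw [mul_pow, ← Real.exp_nat_mul]
        congr 2
        ring

/-- The numbers: `ε = X / (2 k)` with `X ^ 3 = k`. -/
private theorem FinF_eps (k : ℕ) (hk : 0 < k) : ∃ ε X : ℝ, 0 < ε ∧ ε ≤ 1 / 2 ∧ 1 ≤ X ∧
    X = (k : ℝ) ^ (1 / 3 : ℝ) ∧ 2 * ε * ((k + 2 : ℕ) : ℝ) ≤ 3 * X ∧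
    Real.sqrt (1 / ε) ≤ 2 * X := by
  have hk1 : (1 : ℝ) ≤ (k : ℝ) := by exact_mod_cast hk
  set x : ℝ := (k : ℝ) with hx
  set X : ℝ := x ^ (1 / 3 : ℝ) with hX
  have hX1 : 1 ≤ X := Real.one_le_rpow hk1 (by norm_num)
  have hX3 : X ^ 3 = x := by
    rw [hX, ← Real.rpow_natCast, ← Real.rpow_mul (by linarith)]
    norm_num
  have hx0 : 0 < x := by linarith
  have hX0 : 0 < X := by linarith
  have hX2 : X ≤ x := by
    rw [← hX3]
    exact le_self_pow₀ hX1 (by norm_num)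
  refine ⟨X / (2 * x), X, by positivity, ?_, hX1, rfl, ?_, ?_⟩
  · rw [div_le_iff₀ (by positivity)]
    linarith
  · have h1 : 2 * (X / (2 * x)) * ((k + 2 : ℕ) : ℝ) = X * ((x + 2) / x) := by
      push_cast
      rw [← hx]
      field_simp
    rw [h1]
    have h2 : (x + 2) / x ≤ 3 := by
      rw [div_le_iff₀ (by positivity)]
      linarith
    nlinarith
  · have h4 : 1 / (X / (2 * x)) ≤ (2 * X) ^ 2 := by
      rw [one_div, inv_div, div_le_iff₀ hX0]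
      have h5 : (2 * X) ^ 2 * X = 4 * X ^ 3 := by ring
      rw [h5, hX3]
      linarith
    exact (Real.sqrt_le_sqrt h4).trans (le_of_eq (Real.sqrt_sq (by positivity)))

theorem cnt_le (t : Bool) : ∃ C : ℝ, 0 < C ∧ ∀ k : ℕ, (cnt (saws t) k : ℝ) ≤
    mu t ^ k * Real.exp (C * (k : ℝ) ^ (1 / 3 : ℝ)) := by
  obtain ⟨C, hC, hS⟩ := main_S t
  have hmu := one_le_mu t
  refine ⟨3 + 2 * mu t + 4 * C, by positivity, ?_⟩
  intro n
  rcases Nat.eq_zero_or_pos n with hn | hn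
  · subst hn
    have h := FinF_zero t
    rw [Nat.cast_zero, Real.zero_rpow (by norm_num), mul_zero, Real.exp_zero, pow_zero, mul_one]
    exact h
  · obtain ⟨ε, X, hε0, hε1, hX1, hXd, hεn, hε2⟩ := FinF_eps n hn
    rw [← hXd]
    set b : ℝ := Real.exp (C * Real.sqrt (1 / ε)) with hb
    have hb0 : 0 ≤ b := (Real.exp_pos _).le
    have h1 := FinF_cnt t (Real.toNNReal (1 - ε) * zc t) n b hb0
      (FinF_halfs t _ _ (hS ε hε0 hε1))
    have hz : ((Real.toNNReal (1 - ε) * zc t : ℝ≥0) : ℝ) = (1 - ε) * (zc t : ℝ) := by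
      rw [NNReal.coe_mul, Real.coe_toNNReal _ (by linarith)]
    rw [hz] at h1
    have hzm := zc_mul_mu t
    have h2 : b ^ 2 ≤ Real.exp (4 * C * X) := by
      rw [hb, ← Real.exp_nat_mul]
      apply Real.exp_le_exp.mpr
      have := mul_le_mul_of_nonneg_left hε2 hC.le
      push_cast
      nlinarith
    have h3 := FinF_inv ε hε0 hε1 (n + 2)
    have h4 : Real.exp (2 * ε * ((n + 2 : ℕ) : ℝ)) ≤ Real.exp (3 * X) :=
      Real.exp_le_exp.mpr hεn
    have h5 : mu t ^ 2 ≤ Real.exp (2 * mu t * X) := by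
      have h6 : mu t ≤ Real.exp (mu t) := by
        have := Real.add_one_le_exp (mu t)
        linarith
      calc mu t ^ 2 ≤ (Real.exp (mu t)) ^ 2 := by gcongr
        _ = Real.exp (2 * mu t) := by
            rw [← Real.exp_nat_mul]
            norm_num
        _ ≤ Real.exp (2 * mu t * X) := by
            apply Real.exp_le_exp.mpr
            have : 0 ≤ 2 * mu t := by positivity
            nlinarith
    set a : ℝ := (cnt (saws t) n : ℝ) with ha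
    have ha0 : 0 ≤ a := Nat.cast_nonneg _
    have hmu0 : 0 < mu t := by linarith
    calc a = (((zc t : ℝ) * mu t) ^ (n + 2)) * a := by rw [hzm, one_pow, one_mul]
      _ ≤ (((zc t : ℝ) * mu t) ^ (n + 2)) * a *
          ((1 - ε) ^ (n + 2) * Real.exp (2 * ε * ((n + 2 : ℕ) : ℝ))) := by
            rw [hzm, one_pow, one_mul]
            nlinarith
      _ = (((1 - ε) * (zc t : ℝ)) ^ (n + 2) * a) * mu t ^ (n + 2) *
          Real.exp (2 * ε * ((n + 2 : ℕ) : ℝ)) := by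
            rw [mul_pow, mul_pow]
            ring
      _ ≤ b ^ 2 * mu t ^ (n + 2) * Real.exp (2 * ε * ((n + 2 : ℕ) : ℝ)) := by
            gcongr
      _ ≤ Real.exp (4 * C * X) * mu t ^ (n + 2) * Real.exp (3 * X) := by
            gcongr
      _ = mu t ^ n * (Real.exp (4 * C * X) * Real.exp (3 * X) * mu t ^ 2) := by ring
      _ ≤ mu t ^ n * (Real.exp (4 * C * X) * Real.exp (3 * X) * Real.exp (2 * mu t * X)) := by
            gcongr
      _ = mu t ^ n * Real.exp ((3 + 2 * mu t + 4 * C) * X) := by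
            rw [← Real.exp_add, ← Real.exp_add]
            congr 2
            ring

private theorem FinF_lat (t : Bool) : ∃ C : ℝ, 0 < C ∧ ∀ k : ℕ,
    a (lat t) k ≤ muL (lat t) ^ k * Real.exp (C * (k : ℝ) ^ (1 / 3 : ℝ)) ∧
    Real.exp (-(C * (k : ℝ) ^ (1 / 3 : ℝ))) ≤ P (lat t) k := by
  obtain ⟨C, hC, h⟩ := Pool.Agent.ZLF.cnt_le t
  refine ⟨2 * C, by positivity, fun n => ?_⟩
  have hmu : 0 < mu t := lt_of_lt_of_le one_pos (one_le_mu t)
  have hx : 0 ≤ (n : ℝ) ^ (1 / 3 : ℝ) := by positivity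
  have h1 := h n
  set x : ℝ := (n : ℝ) ^ (1 / 3 : ℝ)
  have hmun : 0 < mu t ^ n := pow_pos hmu n
  constructor
  · rw [a_eq, muL_eq]
    refine h1.trans (mul_le_mul_of_nonneg_left (Real.exp_le_exp.2 ?_) hmun.le)
    nlinarith
  · have h2 := mu_pow_le t (2 * n)
    have h3 := pairs_ge t n
    have ha : 0 < (cnt (saws t) n : ℝ) := lt_of_lt_of_le hmun (mu_pow_le t n)
    unfold P
    rw [a_eq, le_div_iff₀ (by positivity)]
    have h4 : (cnt (saws t) n : ℝ) ^ 2 ≤ (mu t ^ n * Real.exp (C * x)) ^ 2 :=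
      pow_le_pow_left₀ ha.le h1 2
    calc Real.exp (-(2 * C * x)) * (cnt (saws t) n : ℝ) ^ 2
        ≤ Real.exp (-(2 * C * x)) * (mu t ^ n * Real.exp (C * x)) ^ 2 :=
          mul_le_mul_of_nonneg_left h4 (Real.exp_pos _).le
      _ = mu t ^ (2 * n) * (Real.exp (-(2 * C * x)) * (Real.exp (C * x)) ^ 2) := by
          rw [mul_pow, ← pow_mul, mul_comm n 2]; ring
      _ = mu t ^ (2 * n) := by
          rw [← Real.exp_nat_mul, ← Real.exp_add]
          have : -(2 * C * x) + ((2 : ℕ) : ℝ) * (C * x) = 0 := by push_cast; ring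
          rw [this, Real.exp_zero, mul_one]
      _ ≤ _ := h2.trans h3

theorem final (L : Set ℂ) (hL : L = square ∨ L = triangular) : ∃ C : ℝ, 0 < C ∧ ∀ k : ℕ,
    a L k ≤ muL L ^ k * Real.exp (C * (k : ℝ) ^ (1 / 3 : ℝ)) ∧
    Real.exp (-(C * (k : ℝ) ^ (1 / 3 : ℝ))) ≤ P L k := by
  rcases hL with h | h
  · have := FinF_lat false
    simpa [lat, h] using this
  · have := FinF_lat true
    simpa [lat, h] using this

end Pool.Agent.ZLF
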