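import Mathlib

/-!
Module LorA (linear algebra): a symmetric matrix `J` with nonnegative entries and at most one positive eigenvalue.

PAPER PROOF. `p = J y`, `θ = y ⬝ p > 0`, `Q = (2 / θ) p p^T - J`. For `x` put `α = (x ⬝ p) / θ`, `x0 = x - α y`: `x0 ⬝ p = 0`, so
`x ⬝ J x' = α α' θ + x0 ⬝ J x0'`, `x ⬝ Q x = α ^ 2 θ - x0 ⬝ J x0`. With `R = b b^T - J` (positive semidefinite) and
`z = (b ⬝ y) x0 - (b ⬝ x0) y`: `b ⬝ z = 0`, so `0 ≥ - z ⬝ R z = z ⬝ J z = (b ⬝ y) ^ 2 * (x0 ⬝ J x0) + (b ⬝ x0) ^ 2 * θ`, and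
`0 ≤ y ⬝ R y = (b ⬝ y) ^ 2 - θ`, so `(b ⬝ y) ^ 2 ≥ θ > 0`: (*) `(b ⬝ y) ^ 2 * (- x0 ⬝ J x0) ≥ (b ⬝ x0) ^ 2 * θ ≥ 0`. Hence `Q` is positive
semidefinite; `Q = A^T A` (`Matrix.posSemidef_iff_eq_conjTranspose_mul_self`, `ℝ`). Cauchy-Schwarz for the form `- J` on the `x0`'s (it is
nonnegative there) and for `ℝ ^ 2` gives `(x ⬝ J x') ^ 2 ≤ (x ⬝ Q x) (x' ⬝ Q x')`; and `x ⬝ b = α (y ⬝ b) + x0 ⬝ b`,
`(x ⬝ b) ^ 2 ≤ 2 α ^ 2 (y ⬝ b) ^ 2 + 2 (x0 ⬝ b) ^ 2 ≤ 2 ((y ⬝ b) ^ 2 / θ) (x ⬝ Q x)` by (*).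
`hs_bound`: the `i`-th coordinate of `A (X v)` is `x_i ⬝ v` with `x_i = X^T (A^T e_i)`, so its square is `≤ c ^ 2 |A x_i| ^ 2`, and
`∑ i, |A (X^T (A^T e_i))| ^ 2` is the sum of the squares of the entries of `A X^T A^T`, which is `trace (X (A^T A) X (A^T A))` for `X^T = X`.
`tr_bound`: `trace (X Q X Q) = (4 / θ ^ 2) (p ⬝ X p) ^ 2 - (4 / θ) (p ⬝ X J X p) + trace (X J X J)` (cyclicity, symmetry), the middle term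
is `≤ 0` since all entries are `≥ 0`, and `a ^ 2 + t ≤ (a + √t) ^ 2` for `a = 2 (p ⬝ X p) / θ ≥ 0`, `t ≥ 0`.
-/

namespace Pool.Agent.ZLF

open Matrix

variable {ι : Type*} [Fintype ι] [DecidableEq ι]

omit [DecidableEq ι] in
private theorem LorA_nonneg (J : Matrix ι ι ℝ) (b : ι → ℝ) (hR : (vecMulVec b b - J).PosSemidef) (z : ι → ℝ) :
    z ⬝ᵥ (J *ᵥ z) ≤ (b ⬝ᵥ z) ^ 2 := by
  have h := hR.dotProduct_mulVec_nonneg z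
  rw [star_trivial, sub_mulVec, dotProduct_sub, vecMulVec_mulVec] at h
  have h2 : z ⬝ᵥ (MulOpposite.op (b ⬝ᵥ z) • b) = (b ⬝ᵥ z) ^ 2 := by
    rw [op_smul_eq_smul, dotProduct_smul, smul_eq_mul, dotProduct_comm z b, sq]
  rw [h2] at h
  linarith

omit [DecidableEq ι] in
private theorem LorA_symm (J : Matrix ι ι ℝ) (hJs : J.IsSymm) (x x' : ι → ℝ) :
    x ⬝ᵥ (J *ᵥ x') = x' ⬝ᵥ (J *ᵥ x) := by
  rw [dotProduct_mulVec, ← mulVec_transpose, hJs.eq, dotProduct_comm]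

private theorem LorA_key (J : Matrix ι ι ℝ) (hJs : J.IsSymm) (b y : ι → ℝ) (hR : (vecMulVec b b - J).PosSemidef)
    (hθ : 0 < y ⬝ᵥ (J *ᵥ y)) (x : ι → ℝ) :
    (b ⬝ᵥ x - (x ⬝ᵥ (J *ᵥ y)) / (y ⬝ᵥ (J *ᵥ y)) * (b ⬝ᵥ y)) ^ 2 * (y ⬝ᵥ (J *ᵥ y)) ≤
      (b ⬝ᵥ y) ^ 2 * ((x ⬝ᵥ (J *ᵥ y)) ^ 2 / (y ⬝ᵥ (J *ᵥ y)) - x ⬝ᵥ (J *ᵥ x)) := by
  set θ := y ⬝ᵥ (J *ᵥ y) with hθdef
  set α := (x ⬝ᵥ (J *ᵥ y)) / θ with hα
  have hxy : x ⬝ᵥ (J *ᵥ y) = α * θ := by rw [hα]; field_simp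
  have hyx : y ⬝ᵥ (J *ᵥ x) = α * θ := by rw [← hxy, LorA_symm J hJs]
  set β := b ⬝ᵥ x - α * (b ⬝ᵥ y) with hβ
  have h := LorA_nonneg J b hR ((b ⬝ᵥ y) • (x - α • y) - β • y)
  have hb : b ⬝ᵥ ((b ⬝ᵥ y) • (x - α • y) - β • y) = 0 := by
    simp only [dotProduct_sub, dotProduct_smul, smul_eq_mul]
    rw [hβ]; ring
  rw [hb] at h
  have he : ((b ⬝ᵥ y) • (x - α • y) - β • y) ⬝ᵥ (J *ᵥ ((b ⬝ᵥ y) • (x - α • y) - β • y)) =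
      (b ⬝ᵥ y) ^ 2 * (x ⬝ᵥ (J *ᵥ x) - α ^ 2 * θ) + β ^ 2 * θ := by
    simp only [mulVec_sub, mulVec_smul, sub_dotProduct, dotProduct_sub, smul_dotProduct, dotProduct_smul, smul_eq_mul]
    rw [hxy, hyx, ← hθdef]
    ring
  rw [he] at h
  have h3 : (α * θ) ^ 2 / θ = α ^ 2 * θ := by field_simp
  rw [hxy, h3]
  nlinarith [h]

private theorem LorA_main (J : Matrix ι ι ℝ) (hJs : J.IsSymm) (b y : ι → ℝ) (hR : (vecMulVec b b - J).PosSemidef)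
    (hθ : 0 < y ⬝ᵥ (J *ᵥ y)) (x : ι → ℝ) :
    x ⬝ᵥ (J *ᵥ x) ≤ (x ⬝ᵥ (J *ᵥ y)) ^ 2 / (y ⬝ᵥ (J *ᵥ y)) := by
  have h1 := LorA_key J hJs b y hR hθ x
  have h2 := LorA_nonneg J b hR y
  have h3 : 0 < (b ⬝ᵥ y) ^ 2 := lt_of_lt_of_le hθ h2
  have h4 : 0 ≤ (b ⬝ᵥ y) ^ 2 * ((x ⬝ᵥ (J *ᵥ y)) ^ 2 / (y ⬝ᵥ (J *ᵥ y)) - x ⬝ᵥ (J *ᵥ x)) :=
    le_trans (mul_nonneg (sq_nonneg _) hθ.le) h1
  have h5 := nonneg_of_mul_nonneg_right h4 h3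
  linarith

omit [DecidableEq ι] in
private theorem LorA_Q (J : Matrix ι ι ℝ) (y : ι → ℝ) (x : ι → ℝ) :
    x ⬝ᵥ (((2 / (y ⬝ᵥ (J *ᵥ y))) • vecMulVec (J *ᵥ y) (J *ᵥ y) - J) *ᵥ x) =
      2 * ((x ⬝ᵥ (J *ᵥ y)) ^ 2 / (y ⬝ᵥ (J *ᵥ y))) - x ⬝ᵥ (J *ᵥ x) := by
  rw [sub_mulVec, smul_mulVec, vecMulVec_mulVec, op_smul_eq_smul, dotProduct_sub, dotProduct_smul, dotProduct_smul,
    smul_eq_mul, smul_eq_mul, dotProduct_comm (J *ᵥ y) x]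
  ring

open scoped MatrixOrder in
private theorem LorA_sqrt {M : Matrix ι ι ℝ} (hM : M.PosSemidef) : ∃ A : Matrix ι ι ℝ, M = Aᵀ * A := by
  obtain ⟨A, hA⟩ := CStarAlgebra.nonneg_iff_eq_star_mul_self.mp hM.nonneg
  exact ⟨A, by rw [hA, star_eq_conjTranspose, conjTranspose_eq_transpose_of_trivial]⟩

theorem lor_A (J : Matrix ι ι ℝ) (hJs : J.IsSymm) (b y : ι → ℝ) (hR : (vecMulVec b b - J).PosSemidef)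
    (hθ : 0 < y ⬝ᵥ (J *ᵥ y)) : ∃ A : Matrix ι ι ℝ,
    Aᵀ * A = (2 / (y ⬝ᵥ (J *ᵥ y))) • vecMulVec (J *ᵥ y) (J *ᵥ y) - J ∧
    (∀ x x' : ι → ℝ, (x ⬝ᵥ (J *ᵥ x')) ^ 2 ≤ ((A *ᵥ x) ⬝ᵥ (A *ᵥ x)) * ((A *ᵥ x') ⬝ᵥ (A *ᵥ x'))) ∧
    ∀ x : ι → ℝ, (x ⬝ᵥ b) ^ 2 ≤ 2 * (y ⬝ᵥ b) ^ 2 / (y ⬝ᵥ (J *ᵥ y)) * ((A *ᵥ x) ⬝ᵥ (A *ᵥ x)) := by
  have hsq : ∀ x : ι → ℝ, 0 ≤ (x ⬝ᵥ (J *ᵥ y)) ^ 2 / (y ⬝ᵥ (J *ᵥ y)) := fun x => div_nonneg (sq_nonneg _) hθ.le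
  have hQs : ((2 / (y ⬝ᵥ (J *ᵥ y))) • vecMulVec (J *ᵥ y) (J *ᵥ y) - J).IsHermitian := by
    rw [IsHermitian, conjTranspose_eq_transpose_of_trivial, transpose_sub, transpose_smul, transpose_vecMulVec, hJs.eq]
  have hQ : ((2 / (y ⬝ᵥ (J *ᵥ y))) • vecMulVec (J *ᵥ y) (J *ᵥ y) - J).PosSemidef := by
    refine PosSemidef.of_dotProduct_mulVec_nonneg hQs fun x => ?_
    rw [star_trivial, LorA_Q J y x]
    have := LorA_main J hJs b y hR hθ x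
    have := hsq x
    linarith
  obtain ⟨A, hA⟩ := LorA_sqrt hQ
  have hAx : ∀ x : ι → ℝ, (A *ᵥ x) ⬝ᵥ (A *ᵥ x) =
      2 * ((x ⬝ᵥ (J *ᵥ y)) ^ 2 / (y ⬝ᵥ (J *ᵥ y))) - x ⬝ᵥ (J *ᵥ x) := by
    intro x
    rw [← LorA_Q J y x, hA, ← mulVec_mulVec, dotProduct_mulVec x, ← mulVec_transpose, transpose_transpose]
  refine ⟨A, hA.symm, fun x x' => ?_, fun x => ?_⟩
  · -- Cauchy-Schwarz
    have hd : ∀ t : ℝ, 0 ≤ ((A *ᵥ x) ⬝ᵥ (A *ᵥ x)) * (t * t) + (2 * (x ⬝ᵥ (J *ᵥ x'))) * t +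
        (A *ᵥ x') ⬝ᵥ (A *ᵥ x') := by
      intro t
      have e1 : x' ⬝ᵥ (J *ᵥ x) = x ⬝ᵥ (J *ᵥ x') := LorA_symm J hJs x' x
      have g1 := LorA_main J hJs b y hR hθ (t • x - x')
      have g2 := hsq (t • x + x')
      have hz : (y ⬝ᵥ (J *ᵥ y)) ≠ 0 := hθ.ne'
      rw [hAx x, hAx x']
      simp only [mulVec_sub, mulVec_add, mulVec_smul, sub_dotProduct, dotProduct_sub, smul_dotProduct,
        dotProduct_smul, smul_eq_mul, add_dotProduct, dotProduct_add] at g1 g2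
      rw [e1] at g1
      have e2 : (t * (x ⬝ᵥ (J *ᵥ y)) - x' ⬝ᵥ (J *ᵥ y)) ^ 2 / (y ⬝ᵥ (J *ᵥ y)) =
          t ^ 2 * ((x ⬝ᵥ (J *ᵥ y)) ^ 2 / (y ⬝ᵥ (J *ᵥ y))) -
            2 * t * ((x ⬝ᵥ (J *ᵥ y)) * (x' ⬝ᵥ (J *ᵥ y)) / (y ⬝ᵥ (J *ᵥ y))) +
            (x' ⬝ᵥ (J *ᵥ y)) ^ 2 / (y ⬝ᵥ (J *ᵥ y)) := by
        field_simp
        ring
      have e3 : (t * (x ⬝ᵥ (J *ᵥ y)) + x' ⬝ᵥ (J *ᵥ y)) ^ 2 / (y ⬝ᵥ (J *ᵥ y)) =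
          t ^ 2 * ((x ⬝ᵥ (J *ᵥ y)) ^ 2 / (y ⬝ᵥ (J *ᵥ y))) +
            2 * t * ((x ⬝ᵥ (J *ᵥ y)) * (x' ⬝ᵥ (J *ᵥ y)) / (y ⬝ᵥ (J *ᵥ y))) +
            (x' ⬝ᵥ (J *ᵥ y)) ^ 2 / (y ⬝ᵥ (J *ᵥ y)) := by
        field_simp
        ring
      rw [e2] at g1
      rw [e3] at g2
      nlinarith [g1, g2]
    have := discrim_le_zero hd
    rw [discrim] at this
    nlinarith [this]
  · have h1 := LorA_key J hJs b y hR hθ x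
    rw [hAx x, dotProduct_comm x b, dotProduct_comm y b]
    set θ := y ⬝ᵥ (J *ᵥ y) with hθdef
    set α := (x ⬝ᵥ (J *ᵥ y)) / θ with hα
    have hxy : x ⬝ᵥ (J *ᵥ y) = α * θ := by rw [hα]; field_simp
    have h3 : (α * θ) ^ 2 / θ = α ^ 2 * θ := by field_simp
    rw [hxy, h3] at h1 ⊢
    rw [div_mul_eq_mul_div, le_div_iff₀ hθ]
    nlinarith [h1, sq_nonneg (b ⬝ᵥ x - α * (b ⬝ᵥ y) - α * (b ⬝ᵥ y)), hθ,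
      mul_nonneg (sq_nonneg (b ⬝ᵥ x - α * (b ⬝ᵥ y) - α * (b ⬝ᵥ y))) hθ.le]

theorem hs_bound (A X : Matrix ι ι ℝ) (hX : X.IsSymm) (v : ι → ℝ) (c : ℝ)
    (hv : ∀ x : ι → ℝ, (x ⬝ᵥ v) ^ 2 ≤ c ^ 2 * ((A *ᵥ x) ⬝ᵥ (A *ᵥ x))) :
    (A *ᵥ (X *ᵥ v)) ⬝ᵥ (A *ᵥ (X *ᵥ v)) ≤ c ^ 2 * (X * (Aᵀ * A) * X * (Aᵀ * A)).trace := by
  have h1 : (X * (Aᵀ * A) * X * (Aᵀ * A)).trace = ∑ i, (A *ᵥ (A * X) i) ⬝ᵥ (A *ᵥ (A * X) i) := by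
    have e1 : (X * (Aᵀ * A) * X * (Aᵀ * A)).trace = ((A * X * Aᵀ) * (A * X * Aᵀ)ᵀ).trace := by
      rw [transpose_mul, transpose_mul, transpose_transpose, hX.eq]
      have e2 : X * (Aᵀ * A) * X * (Aᵀ * A) = (X * Aᵀ * A * X * Aᵀ) * A := by
        simp only [Matrix.mul_assoc]
      rw [e2, trace_mul_comm]
      simp only [Matrix.mul_assoc]
    rw [e1, trace]
    refine Finset.sum_congr rfl fun i _ => ?_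
    rw [diag_apply, mul_apply]
    simp only [dotProduct]
    refine Finset.sum_congr rfl fun j _ => ?_
    rw [transpose_apply]
    have e3 : (A * X * Aᵀ) i j = (A *ᵥ (A * X) i) j := by
      rw [mul_apply, mulVec, dotProduct]
      refine Finset.sum_congr rfl fun k _ => ?_
      rw [transpose_apply, mul_comm]
    rw [e3]
  rw [h1, Finset.mul_sum, mulVec_mulVec]
  unfold dotProduct
  refine Finset.sum_le_sum fun i _ => ?_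
  have := hv ((A * X) i)
  have e4 : ((A * X) *ᵥ v) i = (A * X) i ⬝ᵥ v := rfl
  rw [e4, ← sq]
  exact this

omit [DecidableEq ι] in
private theorem LorA_entry (M N : Matrix ι ι ℝ) (hM : ∀ i j, 0 ≤ M i j) (hN : ∀ i j, 0 ≤ N i j) (i j : ι) :
    0 ≤ (M * N) i j := by
  rw [mul_apply]
  exact Finset.sum_nonneg fun k _ => mul_nonneg (hM i k) (hN k j)

omit [DecidableEq ι] in
private theorem LorA_trace (M : Matrix ι ι ℝ) (hM : ∀ i j, 0 ≤ M i j) : 0 ≤ M.trace := by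
  rw [trace]
  exact Finset.sum_nonneg fun k _ => hM k k

theorem tr_bound (J X : Matrix ι ι ℝ) (hJs : J.IsSymm) (hXs : X.IsSymm) (hJ : ∀ i j, 0 ≤ J i j)
    (hX : ∀ i j, 0 ≤ X i j) (p : ι → ℝ) (hp : ∀ i, 0 ≤ p i) {θ : ℝ} (hθ : 0 < θ) :
    (X * ((2 / θ) • vecMulVec p p - J) * X * ((2 / θ) • vecMulVec p p - J)).trace ≤
      (2 * (p ⬝ᵥ (X *ᵥ p)) / θ + Real.sqrt ((X * J * X * J).trace)) ^ 2 := by
  have hP : ∀ i j, 0 ≤ (vecMulVec p p) i j := fun i j => by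
    rw [vecMulVec_apply]; exact mul_nonneg (hp i) (hp j)
  have hc : 0 ≤ 2 / θ := by positivity
  have h0 : 0 ≤ p ⬝ᵥ (X *ᵥ p) := by
    unfold dotProduct mulVec dotProduct
    exact Finset.sum_nonneg fun i _ => mul_nonneg (hp i) (Finset.sum_nonneg fun j _ => mul_nonneg (hX i j) (hp j))
  have ht : 0 ≤ (X * J * X * J).trace :=
    LorA_trace _ (LorA_entry _ _ (LorA_entry _ _ (LorA_entry _ _ hX hJ) hX) hJ)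
  have h1 : 0 ≤ (X * vecMulVec p p * X * J).trace :=
    LorA_trace _ (LorA_entry _ _ (LorA_entry _ _ (LorA_entry _ _ hX hP) hX) hJ)
  have h2 : 0 ≤ (X * J * X * vecMulVec p p).trace :=
    LorA_trace _ (LorA_entry _ _ (LorA_entry _ _ (LorA_entry _ _ hX hJ) hX) hP)
  have h3 : (X * vecMulVec p p * X * vecMulVec p p).trace = (p ⬝ᵥ (X *ᵥ p)) ^ 2 := by
    rw [Matrix.mul_assoc, mul_vecMulVec, vecMulVec_mul_vecMulVec, trace_vecMulVec, dotProduct_smul, smul_eq_mul, sq,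
      dotProduct_comm (X *ᵥ p) p]
  have h4 : (X * ((2 / θ) • vecMulVec p p - J) * X * ((2 / θ) • vecMulVec p p - J)).trace =
      (2 / θ) ^ 2 * (X * vecMulVec p p * X * vecMulVec p p).trace - (2 / θ) * (X * vecMulVec p p * X * J).trace -
        (2 / θ) * (X * J * X * vecMulVec p p).trace + (X * J * X * J).trace := by
    simp only [Matrix.mul_sub, Matrix.sub_mul, Matrix.mul_smul, Matrix.smul_mul, trace_sub, trace_smul, smul_eq_mul]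
    ring
  rw [h4, h3]
  have h5 := Real.sq_sqrt ht
  have h6 := Real.sqrt_nonneg ((X * J * X * J).trace)
  have h7 : 2 * (p ⬝ᵥ (X *ᵥ p)) / θ = (2 / θ) * (p ⬝ᵥ (X *ᵥ p)) := by ring
  rw [h7]
  have h8 := mul_nonneg hc h1
  have h9 := mul_nonneg hc h2
  have h10 := mul_nonneg (mul_nonneg hc h0) h6
  nlinarith [h5, h8, h9, h10]

end Pool.Agent.ZLF
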