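import Pool.Agent.ZLF.LorA

/-!
Module LorB (linear algebra): products of the matrices `J`, `B d`.

PAPER PROOF. `A` from `lor_A`, `|x| ^ 2 = (A x) ⬝ (A x)`. Say that `v` has dual norm `<= c` (`c ≥ 0`) if `(x ⬝ v) ^ 2 ≤ c ^ 2 |x| ^ 2` for all
`x`. (1) `b` has dual norm `<= c0`, `c0 ^ 2 = 2 (y ⬝ b) ^ 2 / θ`. (2) If `v` has dual norm `<= c` then `|M d v| ≤ c * (2 (p ⬝ M d p) / θ +
√ trace (M d J M d J))` and the same with `L d` (`hs_bound`, `tr_bound`, `p = J y ≥ 0`), so `|B d v| ≤ c * eta d` (triangle inequality for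
`|·|`; `p ⬝ M d p + p ⬝ L d p = p ⬝ B d p`). (3) If `|x| ≤ c` then `J x` has dual norm `<= c` (`lor_A`). So `J (B d v)` has dual norm
`<= c * eta d`. By induction on `K` for all `h`: `g K h` has dual norm `<= c0 * ∏ i ∈ Ico lo h, (1 + w i * eta i)`: `g 0 h = b`;
`g (K + 1) h` has dual norm `<= c0 + ∑ d ∈ Ico lo h, w d * eta d * c0 * ∏ i ∈ Ico lo d, (1 + w i * eta i) = c0 * ∏ i ∈ Ico lo h, (1 + w i * eta i)`
(telescoping; dual norms are subadditive and homogeneous). Finally `b ⬝ B d (g K d) = (B d b) ⬝ g K d` (`B d` symmetric) `≤ |B d b| * c ≤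
eta d * c0 * c`, `c = c0 * ∏ ..`.
-/

namespace Pool.Agent.ZLF

open Matrix Finset

variable {ι : Type*} [Fintype ι] [DecidableEq ι]

/-- The norm of a strand. -/
noncomputable def eta (J M L : Matrix ι ι ℝ) (y : ι → ℝ) : ℝ :=
  2 * ((J *ᵥ y) ⬝ᵥ ((M + L) *ᵥ (J *ᵥ y))) / (y ⬝ᵥ (J *ᵥ y)) +
    Real.sqrt ((M * J * M * J).trace) + Real.sqrt ((L * J * L * J).trace)


private theorem LorB_dot_nonneg (v : ι → ℝ) : 0 ≤ v ⬝ᵥ v := by
  simp only [dotProduct]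
  exact Finset.sum_nonneg fun i _ => mul_self_nonneg _

private theorem LorB_cs (u v : ι → ℝ) : u ⬝ᵥ v ≤ Real.sqrt (u ⬝ᵥ u) * Real.sqrt (v ⬝ᵥ v) := by
  rw [← Real.sqrt_mul (LorB_dot_nonneg u)]
  apply Real.le_sqrt_of_sq_le
  have h := Finset.sum_mul_sq_le_sq_mul_sq Finset.univ u v
  simp only [dotProduct]
  simpa only [sq] using h

private theorem LorB_tri (u v : ι → ℝ) :
    Real.sqrt ((u + v) ⬝ᵥ (u + v)) ≤ Real.sqrt (u ⬝ᵥ u) + Real.sqrt (v ⬝ᵥ v) := by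
  apply Real.sqrt_le_iff.mpr
  refine ⟨add_nonneg (Real.sqrt_nonneg _) (Real.sqrt_nonneg _), ?_⟩
  have h := LorB_cs u v
  have h1 := Real.sq_sqrt (LorB_dot_nonneg u)
  have h2 := Real.sq_sqrt (LorB_dot_nonneg v)
  have h3 : (u + v) ⬝ᵥ (u + v) = u ⬝ᵥ u + 2 * (u ⬝ᵥ v) + v ⬝ᵥ v := by
    rw [add_dotProduct, dotProduct_add, dotProduct_add, dotProduct_comm v u]; ring
  rw [h3]
  nlinarith

/-- dual norm at most c -/
private def LorB_dual (A : Matrix ι ι ℝ) (v : ι → ℝ) (c : ℝ) : Prop :=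
  ∀ x : ι → ℝ, |x ⬝ᵥ v| ≤ c * Real.sqrt ((A *ᵥ x) ⬝ᵥ (A *ᵥ x))

private theorem LorB_dual_of_sq (A : Matrix ι ι ℝ) (v : ι → ℝ) {c : ℝ} (hc : 0 ≤ c)
    (h : ∀ x : ι → ℝ, (x ⬝ᵥ v) ^ 2 ≤ c ^ 2 * ((A *ᵥ x) ⬝ᵥ (A *ᵥ x))) : LorB_dual A v c := by
  intro x
  have h1 := Real.sq_sqrt (LorB_dot_nonneg (A *ᵥ x))
  apply abs_le_of_sq_le_sq _ (mul_nonneg hc (Real.sqrt_nonneg _))
  rw [mul_pow, h1]
  exact h x

private theorem LorB_sq_of_dual (A : Matrix ι ι ℝ) (v : ι → ℝ) {c : ℝ} (h : LorB_dual A v c) (x : ι → ℝ) :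
    (x ⬝ᵥ v) ^ 2 ≤ c ^ 2 * ((A *ᵥ x) ⬝ᵥ (A *ᵥ x)) := by
  have h1 := Real.sq_sqrt (LorB_dot_nonneg (A *ᵥ x))
  rw [← h1, ← mul_pow, ← sq_abs]
  exact pow_le_pow_left₀ (abs_nonneg _) (h x) 2

private theorem LorB_dual_mono {A : Matrix ι ι ℝ} {v : ι → ℝ} {c c' : ℝ} (h : LorB_dual A v c) (hc : c ≤ c') :
    LorB_dual A v c' := by
  intro x
  exact (h x).trans (mul_le_mul_of_nonneg_right hc (Real.sqrt_nonneg _))

private theorem LorB_dual_add {A : Matrix ι ι ℝ} {v v' : ι → ℝ} {c c' : ℝ} (h : LorB_dual A v c)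
    (h' : LorB_dual A v' c') : LorB_dual A (v + v') (c + c') := by
  intro x
  rw [dotProduct_add, add_mul]
  exact (abs_add_le _ _).trans (add_le_add (h x) (h' x))

private theorem LorB_dual_smul {A : Matrix ι ι ℝ} {v : ι → ℝ} {c : ℝ} (h : LorB_dual A v c) {w : ℝ} (hw : 0 ≤ w) :
    LorB_dual A (w • v) (w * c) := by
  intro x
  rw [dotProduct_smul, smul_eq_mul, abs_mul, abs_of_nonneg hw, mul_assoc]
  exact mul_le_mul_of_nonneg_left (h x) hw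

private theorem LorB_dual_sum {A : Matrix ι ι ℝ} (s : Finset ℕ) {v : ℕ → ι → ℝ} {c : ℕ → ℝ}
    (h : ∀ d ∈ s, LorB_dual A (v d) (c d)) : LorB_dual A (∑ d ∈ s, v d) (∑ d ∈ s, c d) := by
  classical
  induction s using Finset.induction_on with
  | empty =>
    intro x
    simp
  | insert a s ha ih =>
    rw [Finset.sum_insert ha, Finset.sum_insert ha]
    exact LorB_dual_add (h a (Finset.mem_insert_self _ _))
      (ih fun d hd => h d (Finset.mem_insert_of_mem hd))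

private theorem LorB_tele (a : ℕ → ℝ) (lo h : ℕ) :
    1 + ∑ d ∈ Ico lo h, a d * ∏ i ∈ Ico lo d, (1 + a i) = ∏ i ∈ Ico lo h, (1 + a i) := by
  induction h with
  | zero => simp
  | succ h ih =>
    by_cases hl : lo ≤ h
    · rw [Finset.sum_Ico_succ_top hl, Finset.prod_Ico_succ_top hl, ← add_assoc, ih]
      ring
    · have : Ico lo (h + 1) = ∅ := Finset.Ico_eq_empty (by omega)
      simp [this]

private theorem LorB_one (J : Matrix ι ι ℝ) (hJs : J.IsSymm) (hJ : ∀ i j, 0 ≤ J i j) {p : ι → ℝ} (hp : ∀ i, 0 ≤ p i)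
    {θ : ℝ} (hθ : 0 < θ) (A : Matrix ι ι ℝ) (hA : Aᵀ * A = (2 / θ) • vecMulVec p p - J)
    (X : Matrix ι ι ℝ) (hXs : X.IsSymm) (hX : ∀ i j, 0 ≤ X i j) (v : ι → ℝ) {c : ℝ} (hc : 0 ≤ c)
    (hv : LorB_dual A v c) :
    Real.sqrt ((A *ᵥ (X *ᵥ v)) ⬝ᵥ (A *ᵥ (X *ᵥ v))) ≤
      c * (2 * (p ⬝ᵥ (X *ᵥ p)) / θ + Real.sqrt ((X * J * X * J).trace)) := by
  have h1 := hs_bound A X hXs v c (LorB_sq_of_dual A v hv)
  have h2 := tr_bound J X hJs hXs hJ hX p hp hθ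
  rw [hA] at h1
  have hn : 0 ≤ 2 * (p ⬝ᵥ (X *ᵥ p)) / θ + Real.sqrt ((X * J * X * J).trace) := by
    apply add_nonneg _ (Real.sqrt_nonneg _)
    apply div_nonneg _ hθ.le
    apply mul_nonneg zero_le_two
    simp only [dotProduct, mulVec]
    exact Finset.sum_nonneg fun i _ => mul_nonneg (hp i)
      (Finset.sum_nonneg fun j _ => mul_nonneg (hX i j) (hp j))
  apply Real.sqrt_le_iff.mpr
  refine ⟨mul_nonneg hc hn, ?_⟩
  rw [mul_pow]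
  exact h1.trans (mul_le_mul_of_nonneg_left h2 (sq_nonneg c))

private theorem LorB_two (J : Matrix ι ι ℝ) (hJs : J.IsSymm) (hJ : ∀ i j, 0 ≤ J i j) {y : ι → ℝ}
    (hy : ∀ i, 0 ≤ y i) (hθ : 0 < y ⬝ᵥ (J *ᵥ y)) (A : Matrix ι ι ℝ)
    (hA : Aᵀ * A = (2 / (y ⬝ᵥ (J *ᵥ y))) • vecMulVec (J *ᵥ y) (J *ᵥ y) - J)
    (M L : Matrix ι ι ℝ) (hMs : M.IsSymm) (hLs : L.IsSymm)
    (hM : ∀ i j, 0 ≤ M i j) (hL : ∀ i j, 0 ≤ L i j) (v : ι → ℝ) {c : ℝ} (hc : 0 ≤ c)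
    (hv : LorB_dual A v c) :
    Real.sqrt ((A *ᵥ ((M + L) *ᵥ v)) ⬝ᵥ (A *ᵥ ((M + L) *ᵥ v))) ≤ c * eta J M L y := by
  have hp : ∀ i, 0 ≤ (J *ᵥ y) i := by
    intro i
    simp only [mulVec, dotProduct]
    exact Finset.sum_nonneg fun j _ => mul_nonneg (hJ i j) (hy j)
  have h1 := LorB_one J hJs hJ hp hθ A hA M hMs hM v hc hv
  have h2 := LorB_one J hJs hJ hp hθ A hA L hLs hL v hc hv
  have h3 : A *ᵥ ((M + L) *ᵥ v) = A *ᵥ (M *ᵥ v) + A *ᵥ (L *ᵥ v) := by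
    rw [add_mulVec, mulVec_add]
  rw [h3]
  refine (LorB_tri _ _).trans ((add_le_add h1 h2).trans (le_of_eq ?_))
  rw [eta, add_mulVec, dotProduct_add]
  ring

theorem eta_nonneg (J M L : Matrix ι ι ℝ) (hJ : ∀ i j, 0 ≤ J i j) (hM : ∀ i j, 0 ≤ M i j) (hL : ∀ i j, 0 ≤ L i j)
    (y : ι → ℝ) (hy : ∀ i, 0 ≤ y i) : 0 ≤ eta J M L y := by
  have hp : ∀ i, 0 ≤ (J *ᵥ y) i := by
    intro i
    simp only [mulVec, dotProduct]
    exact Finset.sum_nonneg fun j _ => mul_nonneg (hJ i j) (hy j)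
  rw [eta]
  apply add_nonneg (add_nonneg _ (Real.sqrt_nonneg _)) (Real.sqrt_nonneg _)
  apply div_nonneg
  · apply mul_nonneg zero_le_two
    rw [dotProduct]
    refine Finset.sum_nonneg fun i _ => mul_nonneg (hp i) ?_
    rw [mulVec, dotProduct]
    exact Finset.sum_nonneg fun j _ => mul_nonneg (add_nonneg (hM i j) (hL i j)) (hp j)
  · rw [dotProduct]
    exact Finset.sum_nonneg fun i _ => mul_nonneg (hy i) (hp i)

theorem lor_chain (J : Matrix ι ι ℝ) (hJs : J.IsSymm) (hJ : ∀ i j, 0 ≤ J i j) (b y : ι → ℝ)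
    (hR : (vecMulVec b b - J).PosSemidef) (hy : ∀ i, 0 ≤ y i) (hθ : 0 < y ⬝ᵥ (J *ᵥ y))
    (M L : ℕ → Matrix ι ι ℝ) (hMs : ∀ d, (M d).IsSymm) (hLs : ∀ d, (L d).IsSymm)
    (hM : ∀ d i j, 0 ≤ M d i j) (hL : ∀ d i j, 0 ≤ L d i j) (w : ℕ → ℝ) (hw : ∀ d, 0 ≤ w d) (lo : ℕ)
    (g : ℕ → ℕ → ι → ℝ) (hg0 : ∀ h, g 0 h = b)
    (hg : ∀ K h, g (K + 1) h = b + ∑ d ∈ Ico lo h, w d • (J *ᵥ ((M d + L d) *ᵥ g K d))) (K d : ℕ) :
    b ⬝ᵥ ((M d + L d) *ᵥ g K d) ≤ eta J (M d) (L d) y * (2 * (y ⬝ᵥ b) ^ 2 / (y ⬝ᵥ (J *ᵥ y))) *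
      ∏ i ∈ Ico lo d, (1 + w i * eta J (M i) (L i) y) := by
  obtain ⟨A, hA, hA2, hA3⟩ := lor_A J hJs b y hR hθ
  set θ := y ⬝ᵥ (J *ᵥ y) with hθd
  have hq : 0 ≤ 2 * (y ⬝ᵥ b) ^ 2 / θ := by positivity
  obtain ⟨c0, hc0, hc0s⟩ : ∃ c0 : ℝ, 0 ≤ c0 ∧ c0 ^ 2 = 2 * (y ⬝ᵥ b) ^ 2 / θ :=
    ⟨Real.sqrt _, Real.sqrt_nonneg _, Real.sq_sqrt hq⟩
  have hb : LorB_dual A b c0 := LorB_dual_of_sq A b hc0 fun x => by rw [hc0s]; exact hA3 x
  have heta : ∀ i, 0 ≤ eta J (M i) (L i) y := fun i => eta_nonneg J (M i) (L i) hJ (hM i) (hL i) y hy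
  have hfac : ∀ i, 0 ≤ w i * eta J (M i) (L i) y := fun i => mul_nonneg (hw i) (heta i)
  have hprod : ∀ h, 1 ≤ ∏ i ∈ Ico lo h, (1 + w i * eta J (M i) (L i) y) := by
    intro h
    calc (1 : ℝ) = ∏ i ∈ Ico lo h, (1 : ℝ) := by simp
      _ ≤ _ := Finset.prod_le_prod (fun _ _ => zero_le_one) fun i _ => by linarith [hfac i]
  have hstep : ∀ d (v : ι → ℝ) (c : ℝ), 0 ≤ c → LorB_dual A v c →
      LorB_dual A (J *ᵥ ((M d + L d) *ᵥ v)) (c * eta J (M d) (L d) y) := by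
    intro d v c hc hv
    have h1 := LorB_two J hJs hJ hy hθ A hA (M d) (L d) (hMs d) (hLs d) (hM d) (hL d) v hc hv
    have hce : 0 ≤ c * eta J (M d) (L d) y := mul_nonneg hc (heta d)
    apply LorB_dual_of_sq A _ hce
    intro x
    have h2 := hA2 x ((M d + L d) *ᵥ v)
    have h3 := (Real.sqrt_le_iff.mp h1).2
    calc _ ≤ _ := h2
      _ ≤ ((A *ᵥ x) ⬝ᵥ (A *ᵥ x)) * (c * eta J (M d) (L d) y) ^ 2 :=
        mul_le_mul_of_nonneg_left h3 (LorB_dot_nonneg _)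
      _ = _ := mul_comm _ _
  have hmain : ∀ K h, LorB_dual A (g K h) (c0 * ∏ i ∈ Ico lo h, (1 + w i * eta J (M i) (L i) y)) := by
    intro K
    induction K with
    | zero =>
      intro h
      rw [hg0]
      exact LorB_dual_mono hb (le_mul_of_one_le_right hc0 (hprod h))
    | succ K ih =>
      intro h
      rw [hg]
      have h1 : LorB_dual A (∑ d ∈ Ico lo h, w d • (J *ᵥ ((M d + L d) *ᵥ g K d)))
          (∑ d ∈ Ico lo h, w d * ((c0 * ∏ i ∈ Ico lo d, (1 + w i * eta J (M i) (L i) y)) *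
            eta J (M d) (L d) y)) := by
        apply LorB_dual_sum
        intro d _
        exact LorB_dual_smul (hstep d _ _ (mul_nonneg hc0 (zero_le_one.trans (hprod d))) (ih d)) (hw d)
      refine LorB_dual_mono (LorB_dual_add hb h1) (le_of_eq ?_)
      rw [← LorB_tele (fun i => w i * eta J (M i) (L i) y) lo h, mul_add, mul_one, Finset.mul_sum]
      congr 1
      apply Finset.sum_congr rfl
      intro d _
      ring
  have hbB := LorB_two J hJs hJ hy hθ A hA (M d) (L d) (hMs d) (hLs d) (hM d) (hL d) b hc0 hb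
  have hsym : b ⬝ᵥ ((M d + L d) *ᵥ g K d) = ((M d + L d) *ᵥ b) ⬝ᵥ g K d := by
    rw [dotProduct_mulVec, ← mulVec_transpose, transpose_add, (hMs d).eq, (hLs d).eq]
  rw [hsym]
  have hcK : 0 ≤ c0 * ∏ i ∈ Ico lo d, (1 + w i * eta J (M i) (L i) y) :=
    mul_nonneg hc0 (zero_le_one.trans (hprod d))
  calc ((M d + L d) *ᵥ b) ⬝ᵥ g K d ≤ |((M d + L d) *ᵥ b) ⬝ᵥ g K d| := le_abs_self _
    _ ≤ (c0 * ∏ i ∈ Ico lo d, (1 + w i * eta J (M i) (L i) y)) *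
        Real.sqrt ((A *ᵥ ((M d + L d) *ᵥ b)) ⬝ᵥ (A *ᵥ ((M d + L d) *ᵥ b))) := hmain K d _
    _ ≤ (c0 * ∏ i ∈ Ico lo d, (1 + w i * eta J (M i) (L i) y)) * (c0 * eta J (M d) (L d) y) :=
        mul_le_mul_of_nonneg_left hbB hcK
    _ = eta J (M d) (L d) y * c0 ^ 2 * ∏ i ∈ Ico lo d, (1 + w i * eta J (M i) (L i) y) := by ring
    _ = _ := by rw [hc0s]

end Pool.Agent.ZLF
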