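import Pool.Agent.ZLF.Defs
import Pool.Agent.ZCS.Fw

/-!
Module VProd: the chains of all scales are at most the product over the scales.

PAPER PROOF. `n d = Ds (Nat.log 2 d)` for `d ≥ 1`. Let `P j = (1 + gf (WB t 0) (zc t)) * ∏ k ∈ range j, A k` (all `A k ≥ 1` by `hA` with `K = 0`
.. the left side of `hA` is `≥ 1`). Claim for every `j`: (i) `V t n y K h X ≤ P j` for all `K`, all `h ≤ 2 ^ j`, all `X`; (ii)
`1 + ∑ d ∈ range (2 ^ j), y ^ d * sm t d (V t n y K d) ≤ P j` for all `K`. `j = 0`: `V t n y K 0 Y = 1` (empty sum), `sm_one`, `if .. then 1 else 0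
≤ 1`. Step: let `D = Ds j`. First `V t n y K h X ≤ P j * Wc t D (2 ^ j) y K h X` for `2 ^ j ≤ h ≤ 2 ^ (j + 1)`, induction on `K` for all `h`, `X`:
`K = 0`: `1 ≤ P j`; `K + 1`: `V (K + 1) h X = (1 + ∑ d < 2 ^ j, ..) + ∑ d ∈ Ico (2 ^ j) h, ..`; the first part is `≤ P j` by (ii) (drop the
condition `Sg`), and for `d ∈ Ico (2 ^ j) h`: `n d = D` (`Nat.log 2 d = j`), `V t n y K d Y ≤ P j * Wc t D (2 ^ j) y K d Y`
(`sm_mono`, `sm_const_mul`); so the sum is `≤ P j * (1 + ∑ d ∈ Ico (2 ^ j) h, y ^ d * sm t d (if Sg .. then Wc .. else 0))`. Then (i) for `j + 1`: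
for `h ≤ 2 ^ j` it follows from (i) for `j`; for `h > 2 ^ j`, `K ≥ 1`: `Wc t D (2 ^ j) y K h X ≤ 1 + ∑ d ∈ Ico (2 ^ j) (2 ^ (j + 1)), y ^ d *
sm t d (Wc t D (2 ^ j) y (K - 1) d) ≤ A j` (drop `Sg`, `hA`). (ii) for `j + 1`: split the sum at `2 ^ j`, (ii) for `j`, and for
`d ∈ Ico (2 ^ j) (2 ^ (j + 1))`: `V t n y K d Y ≤ P j * Wc t D (2 ^ j) y K d Y`; the total is `≤ P j * (1 + ∑ d, y ^ d * sm t d (Wc ..)) ≤ P j * A j`.
-/

namespace Pool.Agent.ZLF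

open Pool.Agent.SHP Pool.Agent.ZHW Pool.Agent.ZCS Finset
open scoped ENNReal NNReal

variable {t : Bool}

private noncomputable def nn (Ds : ℕ → ℕ) (d : ℕ) : ℕ := if d = 0 then 0 else Ds (Nat.log 2 d)

private noncomputable def PP (t : Bool) (A : ℕ → ℝ≥0∞) (j : ℕ) : ℝ≥0∞ :=
  (1 + gf (WB t 0) (zc t)) * ∏ k ∈ range j, A k

private theorem nn_eq (Ds : ℕ → ℕ) {j d : ℕ} (h1 : 2 ^ j ≤ d) (h2 : d < 2 ^ (j + 1)) :
    nn Ds d = Ds j := by
  have hd : d ≠ 0 := by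
    have := Nat.one_le_two_pow (n := j)
    omega
  unfold nn
  rw [if_neg hd, (Nat.log_eq_iff (Or.inr ⟨by norm_num, hd⟩)).2 ⟨h1, h2⟩]

private theorem one_le_A {Ds : ℕ → ℕ} {y : ℝ≥0∞} {A : ℕ → ℝ≥0∞}
    (hA : ∀ k K : ℕ, 1 + ∑ d ∈ Ico (2 ^ k) (2 ^ (k + 1)),
      y ^ d * sm t d (Wc t (Ds k) (2 ^ k) y K d) ≤ A k) (k : ℕ) : 1 ≤ A k :=
  le_trans le_self_add (hA k 0)

private theorem PP_succ (A : ℕ → ℝ≥0∞) (j : ℕ) : PP t A (j + 1) = PP t A j * A j := by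
  unfold PP
  rw [prod_range_succ, mul_assoc]

private theorem one_le_PP {A : ℕ → ℝ≥0∞} (h : ∀ k, 1 ≤ A k) (j : ℕ) : 1 ≤ PP t A j := by
  induction j with
  | zero =>
    unfold PP
    simp
  | succ j ih =>
    rw [PP_succ]
    exact one_le_mul ih (h j)

private theorem V_zero_width (n : ℕ → ℕ) (y : ℝ≥0∞) (K : ℕ) (X : Wd) : V t n y K 0 X = 1 := by
  cases K with
  | zero => rfl
  | succ K => simp [V]

open Classical in
private theorem drop_le {d : ℕ} (c : Wd → Prop) (F : Wd → ℝ≥0∞) :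
    sm t d (fun Y => if c Y then F Y else 0) ≤ sm t d F := by
  refine sm_mono fun l _ => ?_
  by_cases h : c l
  · simp [h]
  · simp [h]

private theorem Wc_le {Ds : ℕ → ℕ} {y : ℝ≥0∞} {A : ℕ → ℝ≥0∞}
    (hA : ∀ k K : ℕ, 1 + ∑ d ∈ Ico (2 ^ k) (2 ^ (k + 1)),
      y ^ d * sm t d (Wc t (Ds k) (2 ^ k) y K d) ≤ A k) (j K h : ℕ) (hh : h ≤ 2 ^ (j + 1)) (X : Wd) :
    Wc t (Ds j) (2 ^ j) y K h X ≤ A j := by
  cases K with
  | zero => exact one_le_A hA j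
  | succ K =>
    refine le_trans ?_ (hA j K)
    simp only [Wc]
    refine add_le_add le_rfl ?_
    refine le_trans (sum_le_sum_of_subset (Ico_subset_Ico_right hh)) ?_
    refine sum_le_sum fun d _ => ?_
    exact mul_le_mul' le_rfl (drop_le _ _)

private theorem step_a {Ds : ℕ → ℕ} {y : ℝ≥0∞} {A : ℕ → ℝ≥0∞}
    (hA : ∀ k, 1 ≤ A k) (j : ℕ)
    (h2 : ∀ K, 1 + ∑ d ∈ range (2 ^ j), y ^ d * sm t d (V t (nn Ds) y K d) ≤ PP t A j) (K : ℕ) :
    ∀ (h : ℕ) (X : Wd), 2 ^ j ≤ h → h ≤ 2 ^ (j + 1) →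
      V t (nn Ds) y K h X ≤ PP t A j * Wc t (Ds j) (2 ^ j) y K h X := by
  induction K with
  | zero =>
    intro h X _ _
    simp only [V, Wc, mul_one]
    exact one_le_PP hA j
  | succ K ih =>
    intro h X h1 h3
    simp only [V, Wc]
    rw [range_eq_Ico, ← sum_Ico_consecutive _ (Nat.zero_le _) h1, ← add_assoc, mul_add, mul_one]
    refine add_le_add ?_ ?_
    · refine le_trans (add_le_add le_rfl ?_) (h2 K)
      rw [range_eq_Ico]
      refine sum_le_sum fun d _ => ?_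
      exact mul_le_mul' le_rfl (drop_le _ _)
    · rw [mul_sum]
      refine sum_le_sum fun d hd => ?_
      rw [mem_Ico] at hd
      rw [nn_eq Ds hd.1 (lt_of_lt_of_le hd.2 h3)]
      rw [mul_left_comm, ← sm_const_mul d (PP t A j)]
      refine mul_le_mul' le_rfl (sm_mono fun l _ => ?_)
      by_cases hs : Sg t (Ds j) (fl t X) l
      · simp only [hs, if_true]
        exact ih d l hd.1 (le_trans hd.2.le h3)
      · simp [hs]

private theorem main_ind {Ds : ℕ → ℕ} {y : ℝ≥0∞} {A : ℕ → ℝ≥0∞}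
    (hA : ∀ k K : ℕ, 1 + ∑ d ∈ Ico (2 ^ k) (2 ^ (k + 1)),
      y ^ d * sm t d (Wc t (Ds k) (2 ^ k) y K d) ≤ A k) (j : ℕ) (K : ℕ) :
    1 + ∑ d ∈ range (2 ^ j), y ^ d * sm t d (V t (nn Ds) y K d) ≤ PP t A j := by
  induction j generalizing K with
  | zero =>
    unfold PP
    simp only [pow_zero, range_one, sum_singleton, one_mul, prod_range_zero, mul_one]
    refine add_le_add le_rfl (le_of_eq ?_)
    rw [← sm_one]
    exact sm_congr fun l _ => V_zero_width _ _ _ _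
  | succ j ih =>
    rw [PP_succ]
    refine le_trans ?_ (mul_le_mul' le_rfl (hA j K))
    have hle : 2 ^ j ≤ 2 ^ (j + 1) := Nat.pow_le_pow_right (by norm_num) (Nat.le_succ j)
    rw [range_eq_Ico, ← sum_Ico_consecutive _ (Nat.zero_le _) hle, ← add_assoc, mul_add, mul_one]
    refine add_le_add ?_ ?_
    · rw [← range_eq_Ico]
      exact ih K
    · rw [mul_sum]
      refine sum_le_sum fun d hd => ?_
      rw [mem_Ico] at hd
      rw [mul_left_comm, ← sm_const_mul d (PP t A j)]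
      refine mul_le_mul' le_rfl (sm_mono fun l _ => ?_)
      exact step_a (one_le_A hA) j ih K d l hd.1 hd.2.le

theorem v_prod (Ds : ℕ → ℕ) (y : ℝ≥0∞) (A : ℕ → ℝ≥0∞)
    (hA : ∀ k K : ℕ, 1 + ∑ d ∈ Ico (2 ^ k) (2 ^ (k + 1)), y ^ d * sm t d (Wc t (Ds k) (2 ^ k) y K d) ≤ A k)
    (j K : ℕ) : 1 + ∑ d ∈ range (2 ^ j), y ^ d *
      sm t d (V t (fun d => if d = 0 then 0 else Ds (Nat.log 2 d)) y K d) ≤
      (1 + gf (WB t 0) (zc t)) * ∏ k ∈ range j, A k :=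
  main_ind hA j K

end Pool.Agent.ZLF
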