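import Pool.Agent.ZLF.ScaleB
import Pool.Agent.ZLF.VProd
import Pool.Agent.ZLF.ExpSum
import Pool.Agent.ZCS.HWs

/-!
Module MainF: the masses of the strict half-plane walks below the critical point.

PAPER PROOF. `C`, `D = Ds k` from `scaleB` (choose), `y = 1 - ε`, `A k = ENNReal.ofReal (1 + C * 2 ^ (3 k) * y ^ (2 ^ k) * exp (..))`. `hw_chain`
(ZCS/HWs) with `k = m` and the cutoff `n` of `v_prod`; `range (m + 1) ⊆ range (2 ^ (m + 1))`; `v_prod`; `exp_sum`; the factor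
`1 + gf (WB t 0) (zc t) ≤ 1 + (zc t)⁻¹` (`gf_WB_le_inv`, `be_le_one`) is `≤ exp ((zc t)⁻¹ * √(1 / ε))`. Compare ZCS/MainC.
-/

namespace Pool.Agent.ZLF

open Pool.Agent.SHP Pool.Agent.ZHW Pool.Agent.ZCS Finset
open scoped ENNReal NNReal

theorem main_S (t : Bool) : ∃ C : ℝ, 0 < C ∧ ∀ ε : ℝ, 0 < ε → ε ≤ 1 / 2 → ∀ m : ℕ,
    gf (HT t m) (Real.toNNReal (1 - ε) * zc t) ≤ ENNReal.ofReal (Real.exp (C * Real.sqrt (1 / ε))) := by
  obtain ⟨C, hC, hs⟩ := scaleB t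
  choose Ds _ hs using hs
  obtain ⟨C1, hC1, he⟩ := exp_sum C hC
  have hz0 : (0 : ℝ) < (zc t : ℝ) := by exact_mod_cast zc_pos t
  set Z : ℝ := (zc t : ℝ)⁻¹ with hZ
  have hZ0 : 0 < Z := inv_pos.2 hz0
  have hZE : (zc t : ℝ≥0∞)⁻¹ = ENNReal.ofReal Z := by
    rw [hZ, ENNReal.ofReal_inv_of_pos hz0, ENNReal.ofReal_coe_nnreal]
  refine ⟨C1 + Z, by linarith, ?_⟩
  intro ε hε hε2 m
  set y : ℝ≥0 := Real.toNNReal (1 - ε) with hy
  have hy0 : (0 : ℝ) ≤ 1 - ε := by linarith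
  have hy1 : y ≤ 1 := by
    rw [hy, Real.toNNReal_le_one]
    linarith
  have hyE : (y : ℝ≥0∞) = ENNReal.ofReal (1 - ε) := rfl
  have hf0 : ∀ k : ℕ, 0 ≤ C * 2 ^ (3 * k) * (1 - ε) ^ (2 ^ k) *
      Real.exp (C * Real.sqrt (2 ^ k) * (1 - ε) ^ (2 ^ k)) := by
    intro k
    have := pow_nonneg hy0 (2 ^ k)
    positivity
  set A : ℕ → ℝ≥0∞ := fun k => ENNReal.ofReal (1 + C * 2 ^ (3 * k) * (1 - ε) ^ (2 ^ k) *
      Real.exp (C * Real.sqrt (2 ^ k) * (1 - ε) ^ (2 ^ k))) with hA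
  have hA1 : ∀ k K : ℕ, 1 + ∑ d ∈ Ico (2 ^ k) (2 ^ (k + 1)),
      (y : ℝ≥0∞) ^ d * sm t d (Wc t (Ds k) (2 ^ k) (y : ℝ≥0∞) K d) ≤ A k := by
    intro k K
    rw [hA, hyE]
    show _ ≤ ENNReal.ofReal (1 + _)
    rw [ENNReal.ofReal_add zero_le_one (hf0 k), ENNReal.ofReal_one]
    exact add_le_add le_rfl (hs k (1 - ε) hy0 (by linarith) K)
  have h1 := hw_chain (t := t) (fun d => if d = 0 then 0 else Ds (Nat.log 2 d)) hy1 m m le_rfl
  have h2 := v_prod (t := t) Ds (y : ℝ≥0∞) A hA1 (m + 1) m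
  have h3 : gf (HT t m) (y * zc t) ≤ (1 + gf (WB t 0) (zc t)) * ∏ k ∈ range (m + 1), A k := by
    refine (h1.trans ?_).trans h2
    refine add_le_add le_rfl (Finset.sum_le_sum_of_subset (Finset.range_mono ?_))
    exact (Nat.lt_two_pow_self (n := m + 1)).le
  refine h3.trans ?_
  have h4 : gf (WB t 0) (zc t) ≤ ENNReal.ofReal Z := by
    refine (gf_WB_le_inv (t := t) 0).trans ?_
    rw [hZE]
    calc ENNReal.ofReal Z * be t (zc t) (0 + 1) ≤ ENNReal.ofReal Z * 1 := by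
          gcongr
          exact be_le_one (0 + 1)
      _ = ENNReal.ofReal Z := mul_one _
  have h5 : ∏ k ∈ range (m + 1), A k ≤ ENNReal.ofReal (Real.exp (C1 * Real.sqrt (1 / ε))) := by
    rw [hA, ← ENNReal.ofReal_prod_of_nonneg (fun k _ => by have := hf0 k; linarith)]
    exact ENNReal.ofReal_le_ofReal (he ε hε hε2 (m + 1))
  have h6 : (1 : ℝ) ≤ Real.sqrt (1 / ε) := by
    rw [Real.one_le_sqrt, le_div_iff₀ hε]
    linarith
  have h7 : 1 + Z ≤ Real.exp (Z * Real.sqrt (1 / ε)) := by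
    have h8 := Real.add_one_le_exp (Z * Real.sqrt (1 / ε))
    nlinarith
  calc (1 + gf (WB t 0) (zc t)) * ∏ k ∈ range (m + 1), A k
      ≤ (1 + ENNReal.ofReal Z) * ENNReal.ofReal (Real.exp (C1 * Real.sqrt (1 / ε))) := by
        gcongr
    _ = ENNReal.ofReal ((1 + Z) * Real.exp (C1 * Real.sqrt (1 / ε))) := by
        rw [ENNReal.ofReal_mul (by positivity), ENNReal.ofReal_add zero_le_one hZ0.le, ENNReal.ofReal_one]
    _ ≤ ENNReal.ofReal (Real.exp ((C1 + Z) * Real.sqrt (1 / ε))) := by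
        apply ENNReal.ofReal_le_ofReal
        rw [show (C1 + Z) * Real.sqrt (1 / ε) = Z * Real.sqrt (1 / ε) + C1 * Real.sqrt (1 / ε) by ring, Real.exp_add]
        exact mul_le_mul_of_nonneg_right h7 (Real.exp_pos _).le

end Pool.Agent.ZLF
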