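import Pool.Agent.ZLF.RDefs
import Pool.Agent.ZCS.AnRen

/-!
Module RU: elementary facts on the sequences.

PAPER PROOF. `T_anti`, `T_nonneg` (`lasum`), `la_win`: `∑ i ∈ Ico a N, la i = ∑ i < N, la i - ∑ i < a, la i ≤ 1 - ..` (`a ≤ N`; otherwise the
sum is empty). `bT` (an identity): with `∑ t ≤ D, b t * ∑ i < D - t, la i = ∑ t ≤ D, ∑ s, [t < s ≤ D] b t * la (s - 1 - t) =
∑ s ∈ [1, D], b s` (`bren`), so the left side is `∑ t ≤ D, b t - ∑ s ∈ [1, D], b s = b 0 = 1`. `T_U1`: `T (a - t) ≥ T a` in `bT`. `U1_le`,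
`U_le_U1`: `0 ≤ b ≤ 1`. `U_sub`, `U1_sub`: the sum of `u i = b i ^ 2` (resp. `b i`) over a window `[a, a + n]` is at most the sum
over `[0, n]`: `an_win` in ZCS/AnRen (in `ℝ≥0∞`, with `f` resp. `la`; use `ENNReal.ofReal`), or its proof: for every `a` there is
`φ ≥ 0` with `∑ k < N, φ k ≤ 1` for all `N` and `u (a + i) = ∑ k ≤ i, φ k * u (i - k)` (`φ' k = φ (k + 1) + φ 0 * f k`). Then cover
`[0, m]` by `K` windows of `n + 1` numbers. `U1_sq`: Cauchy-Schwarz. `E_sq`: all `e k * e l` with `k, l ≤ n` occur in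
`∑ r ≤ 2 n, ∑ k ≤ r, e k * e (r - k) ≤ ∑ r ≤ 2 n, b r ^ 2` (`econv`; compare `an_tail_sum` in ZCS/AnRen).
-/

namespace Pool.Agent.ZLF.Sq

open Finset

private theorem RU_phi (f u : ℕ → ℝ) (hu : ∀ r, u (r + 1) = ∑ i ∈ range (r + 1), f i * u (r - i))
    (hf0 : ∀ i, 0 ≤ f i) (hf : ∀ N, ∑ i ∈ range N, f i ≤ 1) (a : ℕ) :
    ∃ φ : ℕ → ℝ, (∀ k, 0 ≤ φ k) ∧ (∀ N, ∑ k ∈ range N, φ k ≤ 1) ∧
      ∀ i, u (a + i) = ∑ k ∈ range (i + 1), φ k * u (i - k) := by
  induction a with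
  | zero =>
    refine ⟨fun k => if k = 0 then 1 else 0, ?_, ?_, ?_⟩
    · intro k
      dsimp only
      split_ifs <;> norm_num
    · intro N
      rw [Finset.sum_ite_eq']
      split_ifs <;> norm_num
    · intro i
      rw [Finset.sum_eq_single 0]
      · simp
      · intro b _ hb
        simp [hb]
      · intro h
        exact absurd (Finset.mem_range.2 (Nat.succ_pos i)) h
  | succ a ih =>
    obtain ⟨φ, h0, h1, h2⟩ := ih
    refine ⟨fun k => φ (k + 1) + φ 0 * f k, ?_, ?_, ?_⟩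
    · intro k
      exact add_nonneg (h0 (k + 1)) (mul_nonneg (h0 0) (hf0 k))
    · intro N
      rw [Finset.sum_add_distrib, ← Finset.mul_sum]
      have h3 := h1 (N + 1)
      rw [Finset.sum_range_succ'] at h3
      have h4 := mul_le_mul_of_nonneg_left (hf N) (h0 0)
      linarith
    · intro i
      rw [show a + 1 + i = a + (i + 1) by ring, h2 (i + 1), Finset.sum_range_succ']
      simp only [Nat.add_sub_add_right, add_mul, Finset.sum_add_distrib, Nat.sub_zero]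
      rw [hu i, Finset.mul_sum]
      simp only [mul_assoc]

private theorem RU_conv_le (φ u : ℕ → ℝ) (hφ : ∀ k, 0 ≤ φ k) (hu0 : ∀ k, 0 ≤ u k) (n : ℕ) :
    ∑ i ∈ range n, ∑ k ∈ range (i + 1), φ k * u (i - k) ≤
      (∑ k ∈ range n, φ k) * ∑ i ∈ range n, u i := by
  rw [Finset.sum_comm' (t' := range n) (s' := fun k => Ico k n) (by
    intro x y
    simp only [mem_range, mem_Ico]
    omega), Finset.sum_mul]
  refine Finset.sum_le_sum fun k _ => ?_
  rw [← Finset.mul_sum, Finset.sum_Ico_eq_sum_range]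
  refine mul_le_mul_of_nonneg_left ?_ (hφ k)
  calc ∑ i ∈ range (n - k), u (k + i - k) = ∑ i ∈ range (n - k), u i := by
        refine Finset.sum_congr rfl fun i _ => ?_
        rw [Nat.add_sub_cancel_left]
    _ ≤ ∑ i ∈ range n, u i :=
        Finset.sum_le_sum_of_subset_of_nonneg (Finset.range_mono (Nat.sub_le n k))
          fun i _ _ => hu0 i

private theorem RU_win (f u : ℕ → ℝ) (hu : ∀ r, u (r + 1) = ∑ i ∈ range (r + 1), f i * u (r - i))
    (hu0 : ∀ k, 0 ≤ u k) (hf0 : ∀ i, 0 ≤ f i) (hf : ∀ N, ∑ i ∈ range N, f i ≤ 1) (a n : ℕ) :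
    ∑ i ∈ range n, u (a + i) ≤ ∑ i ∈ range n, u i := by
  obtain ⟨φ, h0, h1, h2⟩ := RU_phi f u hu hf0 hf a
  calc ∑ i ∈ range n, u (a + i) = ∑ i ∈ range n, ∑ k ∈ range (i + 1), φ k * u (i - k) :=
        Finset.sum_congr rfl fun i _ => h2 i
    _ ≤ (∑ k ∈ range n, φ k) * ∑ i ∈ range n, u i := RU_conv_le φ u h0 hu0 n
    _ ≤ 1 * ∑ i ∈ range n, u i :=
        mul_le_mul_of_nonneg_right (h1 n) (Finset.sum_nonneg fun i _ => hu0 i)
    _ = ∑ i ∈ range n, u i := one_mul _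

private theorem RU_cover (f u : ℕ → ℝ) (hu : ∀ r, u (r + 1) = ∑ i ∈ range (r + 1), f i * u (r - i))
    (hu0 : ∀ k, 0 ≤ u k) (hf0 : ∀ i, 0 ≤ f i) (hf : ∀ N, ∑ i ∈ range N, f i ≤ 1) (n K : ℕ) :
    ∑ i ∈ range (K * n), u i ≤ K * ∑ i ∈ range n, u i := by
  induction K with
  | zero => simp
  | succ K ih =>
    rw [Nat.succ_mul, Finset.sum_range_add]
    have h := RU_win f u hu hu0 hf0 hf (K * n) n
    push_cast
    linarith

variable (S : Sq)

theorem T_nonneg (a : ℕ) : 0 ≤ S.T a := by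
  have h := S.lasum a
  unfold T
  linarith

theorem T_le_one (a : ℕ) : S.T a ≤ 1 := by
  have h : 0 ≤ ∑ i ∈ range a, S.la i := Finset.sum_nonneg fun i _ => S.lann i
  unfold T
  linarith

theorem T_anti {a a' : ℕ} (h : a ≤ a') : S.T a' ≤ S.T a := by
  have h1 : ∑ i ∈ range a, S.la i ≤ ∑ i ∈ range a', S.la i :=
    Finset.sum_le_sum_of_subset_of_nonneg (Finset.range_mono h) fun i _ _ => S.lann i
  unfold T
  linarith

theorem la_win (a N : ℕ) : ∑ i ∈ Ico a N, S.la i ≤ S.T a := by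
  rcases le_total a N with h | h
  · have h1 := Finset.sum_range_add_sum_Ico S.la h
    have h2 := S.lasum N
    unfold T
    linarith
  · rw [Finset.Ico_eq_empty_of_le h, Finset.sum_empty]
    exact T_nonneg S a

theorem bT (D : ℕ) : ∑ t ∈ range (D + 1), S.b t * S.T (D - t) = 1 := by
  induction D with
  | zero => simp [T, S.b0]
  | succ D ih =>
    rw [Finset.sum_range_succ]
    have h1 : ∑ t ∈ range (D + 1), S.b t * S.T (D + 1 - t) =
        ∑ t ∈ range (D + 1), S.b t * S.T (D - t) - ∑ t ∈ range (D + 1), S.b t * S.la (D - t) := by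
      rw [← Finset.sum_sub_distrib]
      refine Finset.sum_congr rfl fun t ht => ?_
      have ht' : t ≤ D := Nat.lt_succ_iff.1 (Finset.mem_range.1 ht)
      rw [show D + 1 - t = D - t + 1 by omega]
      unfold T
      rw [Finset.sum_range_succ]
      ring
    have h2 : ∑ t ∈ range (D + 1), S.b t * S.la (D - t) = S.b (D + 1) := by
      rw [S.bren D, ← Finset.sum_range_reflect]
      refine Finset.sum_congr rfl fun i hi => ?_
      have hi' : i ≤ D := Nat.lt_succ_iff.1 (Finset.mem_range.1 hi)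
      rw [Nat.add_sub_cancel, Nat.sub_sub_self hi', mul_comm]
    rw [h1, h2, ih, Nat.sub_self]
    simp [T]

theorem T_U1 (a : ℕ) : S.T a * S.U1 a ≤ 1 := by
  rw [← bT S a]
  unfold U1
  rw [Finset.mul_sum]
  refine Finset.sum_le_sum fun t _ => ?_
  rw [mul_comm]
  exact mul_le_mul_of_nonneg_left (T_anti S (Nat.sub_le a t)) (S.bnn t)

theorem one_le_U (n : ℕ) : 1 ≤ S.U n := by
  have h := Finset.single_le_sum (f := fun i => S.b i ^ 2) (fun i _ => sq_nonneg (S.b i))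
    (Finset.mem_range.2 (Nat.succ_pos n))
  simpa [S.b0, U] using h

theorem one_le_U1 (n : ℕ) : 1 ≤ S.U1 n := by
  have h := Finset.single_le_sum (f := fun i => S.b i) (fun i _ => S.bnn i)
    (Finset.mem_range.2 (Nat.succ_pos n))
  simpa [S.b0, U1] using h

theorem U1_le (n : ℕ) : S.U1 n ≤ (n : ℝ) + 1 := by
  have h : ∑ i ∈ range (n + 1), S.b i ≤ ∑ _i ∈ range (n + 1), (1 : ℝ) :=
    Finset.sum_le_sum fun i _ => S.b1 i
  simpa [U1] using h

theorem U_le_U1 (n : ℕ) : S.U n ≤ S.U1 n := by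
  refine Finset.sum_le_sum fun i _ => ?_
  have h1 := S.bnn i
  have h2 := S.b1 i
  nlinarith

theorem U_mono {m n : ℕ} (h : m ≤ n) : S.U m ≤ S.U n := by
  exact Finset.sum_le_sum_of_subset_of_nonneg (Finset.range_mono (Nat.succ_le_succ h))
    fun i _ _ => sq_nonneg (S.b i)

theorem U1_mono {m n : ℕ} (h : m ≤ n) : S.U1 m ≤ S.U1 n := by
  exact Finset.sum_le_sum_of_subset_of_nonneg (Finset.range_mono (Nat.succ_le_succ h))
    fun i _ _ => S.bnn i

theorem U_sub {m n K : ℕ} (h : m + 1 ≤ K * (n + 1)) : S.U m ≤ K * S.U n := by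
  refine le_trans ?_ (RU_cover S.f (fun i => S.b i ^ 2) S.uren (fun i => sq_nonneg (S.b i)) S.fnn S.fsum
    (n + 1) K)
  exact Finset.sum_le_sum_of_subset_of_nonneg (Finset.range_mono h) fun i _ _ => sq_nonneg (S.b i)

theorem U1_sub {m n K : ℕ} (h : m + 1 ≤ K * (n + 1)) : S.U1 m ≤ K * S.U1 n := by
  refine le_trans ?_ (RU_cover S.la S.b S.bren S.bnn S.lann S.lasum (n + 1) K)
  exact Finset.sum_le_sum_of_subset_of_nonneg (Finset.range_mono h) fun i _ _ => S.bnn i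

theorem U1_sq (n : ℕ) : S.U1 n ^ 2 ≤ ((n : ℝ) + 1) * S.U n := by
  have h := Finset.sum_mul_sq_le_sq_mul_sq (range (n + 1)) (fun _ => (1 : ℝ)) S.b
  simpa [U1, U] using h

theorem E_sq (n : ℕ) : (∑ l ∈ range (n + 1), S.e l) ^ 2 ≤ S.U (2 * n) := by
  rw [sq, Finset.sum_mul_sum, ← Finset.sum_product',
    ← Finset.sum_fiberwise_of_maps_to (s := range (n + 1) ×ˢ range (n + 1))
      (t := range (2 * n + 1)) (g := fun p : ℕ × ℕ => p.1 + p.2) (by
        intro p hp
        simp only [mem_product, mem_range] at hp ⊢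
        omega)]
  refine Finset.sum_le_sum fun r _ => ?_
  refine le_trans ?_ (S.econv r)
  rw [← Finset.Nat.sum_antidiagonal_eq_sum_range_succ (fun i j => S.e i * S.e j) r]
  refine Finset.sum_le_sum_of_subset_of_nonneg ?_ fun p _ _ => mul_nonneg (S.enn _) (S.enn _)
  intro p hp
  simp only [mem_filter, mem_product, mem_range] at hp
  exact HasAntidiagonal.mem_antidiagonal.2 hp.2

theorem J_nonneg (r s : ℕ) : 0 ≤ S.J r s := by
  exact Finset.sum_nonneg fun l _ => mul_nonneg (S.enn _) (S.ccnn _ _)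

end Pool.Agent.ZLF.Sq
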