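import Pool.Agent.ZLF.RJ
import Pool.Agent.ZLF.RU
import Pool.Agent.ZLF.LorB

/-!
Module Mats: the matrices of one scale.

PAPER PROOF. `mid_nonneg`, `mid_symm` (exchange the sums over `j` and `j'`; `la j * b h * la j'` is symmetric), `d - i - j = d - j - i`.
`Jm`: `J_symm`, `J_nonneg`, `J_psd` (`vecMulVec b b` has the entries `b i * b j`). `trM`, `trL`: the trace of a product of four matrices as
a fourfold sum (`Matrix.trace`, `Matrix.mul_apply`, `Finset.sum_range` for `Fin (D + 1)`, exchange of sums).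
-/

namespace Pool.Agent.ZLF

open Finset Matrix

/-- The fold matrix. -/
noncomputable def Jm (S : Sq) (D : ℕ) : Matrix (Fin (D + 1)) (Fin (D + 1)) ℝ := Matrix.of fun i j => S.J i j

/-- Middle parts with a renewal level. -/
noncomputable def Mm (S : Sq) (Z : ℝ) (D d : ℕ) : Matrix (Fin (D + 1)) (Fin (D + 1)) ℝ :=
  Matrix.of fun i j => Z * S.mid (d - i - j) (D - i) (D - j)

/-- Middle parts without renewal level. -/
noncomputable def Lm (S : Sq) (Z : ℝ) (D d : ℕ) : Matrix (Fin (D + 1)) (Fin (D + 1)) ℝ :=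
  Matrix.of fun i j => Z * S.la (d - i - j)

/-- The test vector. -/
noncomputable def yv (S : Sq) (Z : ℝ) (k D : ℕ) : Fin (D + 1) → ℝ :=
  fun i => Real.sqrt (Z * S.U1 (2 * 2 ^ k)) * S.hh (2 ^ k / 4) (D - i)

/-- The vector of the masses. -/
noncomputable def bv (S : Sq) (D : ℕ) : Fin (D + 1) → ℝ := fun i => S.b i

theorem mid_nonneg (S : Sq) (k a a' : ℕ) : 0 ≤ S.mid k a a' := by
  unfold Sq.mid
  refine Finset.sum_nonneg fun j _ => Finset.sum_nonneg fun h _ => Finset.sum_nonneg fun j' _ => ?_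
  split_ifs
  · exact mul_nonneg (mul_nonneg (S.lann j) (S.bnn h)) (S.lann j')
  · exact le_rfl

theorem mid_symm (S : Sq) (k a a' : ℕ) : S.mid k a a' = S.mid k a' a := by
  unfold Sq.mid
  have h1 : ∀ F : ℕ → ℕ → ℕ → ℝ, ∑ j ∈ range k, ∑ h ∈ range k, ∑ j' ∈ range k, F j h j' =
      ∑ j' ∈ range k, ∑ h ∈ range k, ∑ j ∈ range k, F j h j' := by
    intro F
    calc ∑ j ∈ range k, ∑ h ∈ range k, ∑ j' ∈ range k, F j h j'
        = ∑ h ∈ range k, ∑ j ∈ range k, ∑ j' ∈ range k, F j h j' := Finset.sum_comm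
      _ = ∑ h ∈ range k, ∑ j' ∈ range k, ∑ j ∈ range k, F j h j' :=
          Finset.sum_congr rfl fun h _ => Finset.sum_comm
      _ = ∑ j' ∈ range k, ∑ h ∈ range k, ∑ j ∈ range k, F j h j' := Finset.sum_comm
  rw [h1]
  refine Finset.sum_congr rfl fun j _ => Finset.sum_congr rfl fun h _ => Finset.sum_congr rfl fun j' _ => ?_
  have h2 : (a ≤ j' ∧ a' ≤ j ∧ j' + h + j + 1 = k) ↔ (a' ≤ j ∧ a ≤ j' ∧ j + h + j' + 1 = k) := by
    constructor
    · rintro ⟨x, y, z⟩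
      exact ⟨y, x, by omega⟩
    · rintro ⟨x, y, z⟩
      exact ⟨y, x, by omega⟩
  simp only [h2]
  split_ifs
  · ring
  · rfl

theorem Jm_symm (S : Sq) (D : ℕ) : (Jm S D).IsSymm := by
  ext i j
  exact S.J_symm j i

theorem Jm_nonneg (S : Sq) (D : ℕ) (i j) : 0 ≤ Jm S D i j := by
  exact S.J_nonneg i j

theorem Jm_psd (S : Sq) (D : ℕ) : (vecMulVec (bv S D) (bv S D) - Jm S D).PosSemidef := by
  have h : vecMulVec (bv S D) (bv S D) - Jm S D =
      (Matrix.of fun i j : Fin (D + 1) => S.b i * S.b j - S.J i j : Matrix (Fin (D + 1)) (Fin (D + 1)) ℝ) := by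
    ext i j
    simp [vecMulVec_apply, bv, Jm]
  rw [h]
  exact S.J_psd D

theorem Mm_symm (S : Sq) (Z : ℝ) (D d : ℕ) : (Mm S Z D d).IsSymm := by
  ext i j
  change Z * S.mid (d - j - i) (D - j) (D - i) = Z * S.mid (d - i - j) (D - i) (D - j)
  rw [mid_symm S (d - j - i), Nat.sub_right_comm]

theorem Lm_symm (S : Sq) (Z : ℝ) (D d : ℕ) : (Lm S Z D d).IsSymm := by
  ext i j
  change Z * S.la (d - j - i) = Z * S.la (d - i - j)
  rw [Nat.sub_right_comm]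

theorem Mm_nonneg (S : Sq) {Z : ℝ} (hZ : 0 < Z) (D d : ℕ) (i j) : 0 ≤ Mm S Z D d i j := by
  exact mul_nonneg hZ.le (mid_nonneg S _ _ _)

theorem Lm_nonneg (S : Sq) {Z : ℝ} (hZ : 0 < Z) (D d : ℕ) (i j) : 0 ≤ Lm S Z D d i j := by
  exact mul_nonneg hZ.le (S.lann _)

theorem yv_nonneg (S : Sq) (Z : ℝ) (k D : ℕ) (i) : 0 ≤ yv S Z k D i := by
  unfold yv Sq.hh
  refine mul_nonneg (Real.sqrt_nonneg _) (add_nonneg (S.T_nonneg _) ?_)
  exact inv_nonneg.mpr (le_trans zero_le_one (S.one_le_U1 _))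

private theorem Mats_tr (D : ℕ) (A B : ℕ → ℕ → ℝ) :
    ((Matrix.of fun i j : Fin (D + 1) => A i j) * (Matrix.of fun i j : Fin (D + 1) => B i j) *
      (Matrix.of fun i j : Fin (D + 1) => A i j) * (Matrix.of fun i j : Fin (D + 1) => B i j)).trace =
    ∑ r1 ∈ range (D + 1), ∑ r2 ∈ range (D + 1), ∑ r3 ∈ range (D + 1), ∑ r4 ∈ range (D + 1),
      A r1 r2 * B r2 r3 * A r3 r4 * B r4 r1 := by
  have hr : ∀ f : ℕ → ℝ, ∑ i : Fin (D + 1), f i = ∑ i ∈ range (D + 1), f i := fun f =>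
    (Finset.sum_range f).symm
  unfold Matrix.trace
  simp only [Matrix.diag_apply, Matrix.mul_apply, Matrix.of_apply]
  simp only [← hr]
  refine Finset.sum_congr rfl fun i _ => ?_
  simp only [Finset.sum_mul]
  rw [Finset.sum_comm]
  calc ∑ y : Fin (D + 1), ∑ x : Fin (D + 1), ∑ x_1 : Fin (D + 1), A ↑i ↑x_1 * B ↑x_1 ↑y * A ↑y ↑x * B ↑x ↑i
      = ∑ y : Fin (D + 1), ∑ x_1 : Fin (D + 1), ∑ x : Fin (D + 1), A ↑i ↑x_1 * B ↑x_1 ↑y * A ↑y ↑x * B ↑x ↑i :=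
        Finset.sum_congr rfl fun _ _ => Finset.sum_comm
    _ = ∑ x_1 : Fin (D + 1), ∑ y : Fin (D + 1), ∑ x : Fin (D + 1), A ↑i ↑x_1 * B ↑x_1 ↑y * A ↑y ↑x * B ↑x ↑i :=
        Finset.sum_comm
    _ = _ := rfl

theorem trM (S : Sq) (Z : ℝ) (D d : ℕ) : (Mm S Z D d * Jm S D * Mm S Z D d * Jm S D).trace =
    Z ^ 2 * ∑ r1 ∈ range (D + 1), ∑ r2 ∈ range (D + 1), ∑ r3 ∈ range (D + 1), ∑ r4 ∈ range (D + 1),
      S.mid (d - r1 - r2) (D - r1) (D - r2) * S.J r2 r3 * S.mid (d - r3 - r4) (D - r3) (D - r4) * S.J r4 r1 := by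
  have h := Mats_tr D (fun i j => Z * S.mid (d - i - j) (D - i) (D - j)) (fun i j => S.J i j)
  refine Eq.trans h ?_
  simp only [Finset.mul_sum]
  refine Finset.sum_congr rfl fun _ _ => Finset.sum_congr rfl fun _ _ => Finset.sum_congr rfl fun _ _ =>
    Finset.sum_congr rfl fun _ _ => ?_
  ring

theorem trL (S : Sq) (Z : ℝ) (D d : ℕ) : (Lm S Z D d * Jm S D * Lm S Z D d * Jm S D).trace =
    Z ^ 2 * ∑ r1 ∈ range (D + 1), ∑ r2 ∈ range (D + 1), ∑ r3 ∈ range (D + 1), ∑ r4 ∈ range (D + 1),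
      S.la (d - r1 - r2) * S.J r2 r3 * S.la (d - r3 - r4) * S.J r4 r1 := by
  have h := Mats_tr D (fun i j => Z * S.la (d - i - j)) (fun i j => S.J i j)
  refine Eq.trans h ?_
  simp only [Finset.mul_sum]
  refine Finset.sum_congr rfl fun _ _ => Finset.sum_congr rfl fun _ _ => Finset.sum_congr rfl fun _ _ =>
    Finset.sum_congr rfl fun _ _ => ?_
  ring

end Pool.Agent.ZLF
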