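import Pool.Agent.ZLF.OwnDec
import Pool.Agent.ZCS.Tail

/-!
Module Mid: the mass of the middle parts.

PAPER PROOF. `rn_rev`: `P = u ++ v`, `u ∈ CB t i`, `Ri v`. As `u` is nonempty, `u = u0 ++ [s]`, and `0 < s.1` (`u` is a cobridge), so
`s.1 = 1` (`s ∈ steps t`); then every suffix of `u0` has first coordinate `>= 0` and `u0.sum.1 = i - 1`, so `fl t u0` stays weakly to
the right of its start (`Ri`). `fl t P = fl t v ++ (fl t [s] ++ fl t u0) = (fl t v ++ fl t [s]) ++ fl t u0`, and `fl t v ++ fl t [s] ∈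
CB t (k - i + 1)`: it is a factor of `fl t P ∈ WB t k` (self-avoiding), `fl t v ∈ WB t (k - i)` (`WB_split`, `fl_WB`), and `fl t [s]` is one
step with first coordinate `1`.
`w1_le`: `own_dec` with `h = n = k` and `F` the indicator function of `MW t k a a'`: `M = A ++ E`, `A ∈ CB t i`, `E ∈ NB t (k - i) (k - i)`.
The mass of `NB t q q` is at most `(zc t)⁻¹ * la t q` (injection `E ↦ E ++ [(1, 0)]` into `IC t q`: `WB_step`, and `Rn_tail_iff` with
`[(1, 0)] ∈ BT t 1`). `i = 0`: mass `<= (zc t)⁻¹ * la t k`. `i ≥ 1`: `M` has the renewal level `i`, so `i > a` (`NR t a M`), `fl t M` has the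
renewal level `k + 1 - i` (`rn_rev`), so `k - i >= a'`; put `j' = k - i`. `A` has no renewal level `<= a` (it would be one of `M`); the
mass of `{A ∈ CB t i | NR t a A}` is at most `∑ j, [a ≤ j] la j * be (i - 1 - j)` (`j + 1 ≤ i`): decompose `A` at its smallest renewal
level `j + 1 >= 1` (`RenGe_block` in ZCS/RenGe for one walk; `i` is one), or by induction on `i` with the last block (`own_dec` with
`h = i`, `n = i - 1`, and `la_ren`). Put `h = i - 1 - j`. The result is the sum over `j + h + j' + 1 = k`.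
-/

namespace Pool.Agent.ZLF

open Pool.Agent.SHP Pool.Agent.ZHW Pool.Agent.ZCS Finset
open scoped ENNReal NNReal

variable {t : Bool}

private theorem Mid_zc : (zc t : ℝ≥0∞) ≠ 0 := by
  simpa using (zc_pos t).ne'

theorem rn_rev {k i : ℕ} {P : Wd} (hP : P ∈ WB t k) (hi : 1 ≤ i) (hik : i ≤ k) (h : Rn t i P) :
    Rn t (k + 1 - i) (fl t P) := by
  obtain ⟨u, v, he, hu, hv⟩ := h
  have hun : u ≠ [] := by
    rintro rfl
    have := hu.2.2.2
    simp at this
    omega
  obtain ⟨u0, s, rfl⟩ : ∃ u0 s, u = u0 ++ [s] :=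
    ⟨u.dropLast, u.getLast hun, (List.dropLast_append_getLast hun).symm⟩
  have hs0 : 0 < s.1 := by
    have := hu.2.2.1 u0 [s] rfl (by simp)
    simpa using this
  have hs1 : s.1 = 1 := by
    have hmem : s ∈ steps t := hu.1.1 s (by simp)
    rcases steps_fst hmem with h | h | h <;> omega
  have hflP : fl t P = (fl t v ++ fl t [s]) ++ fl t u0 := by
    rw [he, fl_append, fl_append, List.append_assoc]
  have hWB := fl_WB hP
  obtain ⟨-, hvW⟩ := WB_split hP he hu hv
  have hflv := fl_WB hvW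
  have hfs : (fl t [s]).sum.1 = 1 := by
    rw [fl_sum_fst]
    simpa using hs1
  have hfsl : (fl t [s]).length = 1 := by
    rw [fl_length]
    rfl
  refine ⟨fl t v ++ fl t [s], fl t u0, hflP, ⟨?_, ?_, ?_, ?_⟩, ?_⟩
  · refine saws_infix (u := []) (w := fl t u0) ?_
    rw [List.nil_append, ← hflP]
    exact hWB.1
  · intro a b hab
    refine hWB.2.1 a (b ++ fl t u0) ?_
    rw [hflP, hab, List.append_assoc]
  · intro a b hab hb
    rcases List.append_eq_append_iff.1 hab with ⟨w, hw, hw'⟩ | ⟨w, hw, hw'⟩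
    · -- `b` is a nonempty suffix of the step
      have hl := congrArg List.length hw'
      rw [hfsl, List.length_append] at hl
      have hbl : 0 < b.length := List.length_pos_iff.2 hb
      have hwn : w = [] := List.eq_nil_of_length_eq_zero (by omega)
      subst hwn
      rw [List.nil_append] at hw'
      rw [← hw', hfs]
      norm_num
    · rw [hw', fst_sum_append, hfs]
      have := hflv.2.2.1 a w hw
      omega
  · rw [fst_sum_append, hfs, hflv.2.2.2]
    omega
  · intro a b hab
    have h1 : u0 = fl t b ++ fl t a := by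
      rw [← fl_append, ← hab, fl_fl]
    have h2 := fl_sum_fst (t := t) a
    have hpos : 0 < (fl t a ++ [s]).sum.1 := by
      refine hu.2.2.1 (fl t b) (fl t a ++ [s]) ?_ (by simp)
      rw [← List.append_assoc, ← h1]
    rw [fst_sum_append] at hpos
    simp only [List.sum_cons, List.sum_nil, add_zero] at hpos
    omega

/-- decomposition of a set of words -/
private theorem Mid_dec {A : Set Wd} (z : ℝ≥0) (R : ℕ) (U V : ℕ → Set Wd)
    (h : ∀ l ∈ A, ∃ (i : ℕ) (u v : Wd), i < R ∧ l = u ++ v ∧ u ∈ U i ∧ v ∈ V i) :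
    gf A z ≤ ∑ i ∈ range R, gf (U i) z * gf (V i) z := by
  classical
  have hch : ∀ p : A, ∃ y : ℕ × Wd × Wd, y.1 < R ∧ y.2.1 ∈ U y.1 ∧ y.2.2 ∈ V y.1 ∧
      (p : Wd) = y.2.1 ++ y.2.2 := by
    rintro ⟨p, hp⟩
    obtain ⟨i, u, v, hi, he, hu, hv⟩ := h p hp
    exact ⟨(i, u, v), hi, hu, hv, he⟩
  choose f hf1 hf2 hf3 hf4 using hch
  have hinj : Function.Injective f := by
    intro p q hpq
    apply Subtype.ext
    rw [hf4 p, hf4 q, hpq]
  let W : Wd → ℝ≥0∞ := fun q => (z : ℝ≥0∞) ^ q.length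
  have hind : ∀ B : Set Wd, gf B z = ∑' p : Wd, B.indicator W p := fun B => tsum_subtype B W
  let F : ℕ × Wd × Wd → ℝ≥0∞ := fun y =>
    if y.1 < R then (U y.1).indicator W y.2.1 * (V y.1).indicator W y.2.2 else 0
  have h1 : gf A z = ∑' p : A, F (f p) := by
    unfold gf
    refine tsum_congr fun p => ?_
    show _ = (if (f p).1 < R then _ else 0)
    rw [if_pos (hf1 p), Set.indicator_of_mem (hf2 p), Set.indicator_of_mem (hf3 p)]
    show (z : ℝ≥0∞) ^ (p : Wd).length = (z : ℝ≥0∞) ^ (f p).2.1.length *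
      (z : ℝ≥0∞) ^ (f p).2.2.length
    rw [← pow_add, ← List.length_append, ← hf4 p]
  rw [h1]
  refine le_trans (ENNReal.tsum_comp_le_tsum_of_injective hinj F) ?_
  rw [ENNReal.tsum_prod']
  have h2 : ∀ i : ℕ, ∑' w : Wd × Wd, F (i, w) = if i < R then gf (U i) z * gf (V i) z else 0 := by
    intro i
    by_cases hi : i < R
    · rw [if_pos hi, ENNReal.tsum_prod', hind (U i), hind (V i), ← ENNReal.tsum_mul_right]
      refine tsum_congr fun a => ?_
      rw [← ENNReal.tsum_mul_left]
      refine tsum_congr fun b => ?_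
      show (if i < R then _ else 0) = _
      rw [if_pos hi]
    · rw [if_neg hi]
      refine ENNReal.tsum_eq_zero.2 fun c => ?_
      show (if i < R then _ else 0) = _
      rw [if_neg hi]
  rw [tsum_congr h2, tsum_eq_sum (s := range R)]
  · refine le_of_eq (Finset.sum_congr rfl fun i hi => ?_)
    rw [if_pos (mem_range.1 hi)]
  · intro i hi
    rw [if_neg (fun h => hi (mem_range.2 h))]

/-- cobridges without renewal level among the first `a` -/
private theorem Mid_first {r a : ℕ} :
    gf {A | A ∈ CB t (r + 1) ∧ NR t a A} (zc t) ≤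
      ∑ j ∈ range (r + 1), if a ≤ j then la t j * be t (zc t) (r - j) else 0 := by
  classical
  refine (Mid_dec (zc t) (r + 1) (fun j => {l | a ≤ j ∧ l ∈ IC t j}) (fun j => CB t (r - j))
    ?_).trans (Finset.sum_le_sum fun j _ => ?_)
  · rintro P ⟨hP, hN⟩
    have hex : ∃ j : ℕ, 1 ≤ j ∧ Rn t j P := ⟨r + 1, by omega, Rn_self hP⟩
    have hle : Nat.find hex ≤ r + 1 := Nat.find_min' hex ⟨by omega, Rn_self hP⟩
    obtain ⟨h1, hRP⟩ := Nat.find_spec hex
    have hmin : ∀ m : ℕ, m < Nat.find hex → ¬ (1 ≤ m ∧ Rn t m P) :=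
      fun m hm => Nat.find_min hex hm
    generalize Nat.find hex = j at hle h1 hRP hmin
    obtain ⟨i, rfl⟩ : ∃ i, j = i + 1 := ⟨j - 1, by omega⟩
    have hai : a ≤ i := by
      by_contra hc
      exact hN (i + 1) (by omega) (by omega) hRP
    obtain ⟨u, v, hPe, hu, hv⟩ := hRP
    obtain ⟨-, hvC⟩ := CB_split hP hPe hu hv
    have hri : r + 1 - (i + 1) = r - i := by omega
    rw [hri] at hvC
    refine ⟨i, u, v, by omega, hPe, ⟨hai, hu, ?_⟩, hvC⟩
    rintro k hk hki ⟨a', b, hab, ha', hb⟩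
    obtain ⟨-, hbC⟩ := CB_split hu hab ha' hb
    exact hmin k (by omega) ⟨hk, a', b ++ v, by rw [hPe, hab, List.append_assoc], ha',
      Ri_append hbC hv⟩
  · by_cases haj : a ≤ j
    · rw [if_pos haj, gf_CB]
      refine mul_le_mul' (gf_mono_set (fun l hl => hl.2) _) le_rfl
    · rw [if_neg haj]
      have h0 : ({l | a ≤ j ∧ l ∈ IC t j} : Set Wd) = ∅ := by
        ext l
        simp [haj]
      rw [h0]
      simp [gf]

private theorem Mid_NB (q : ℕ) : gf (NB t q q) (zc t) ≤ (zc t : ℝ≥0∞)⁻¹ * la t q := by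
  have h1 := gf_le_of_inj (A := NB t q q) (B := IC t q) (zc t) 1 (fun g => g ++ [(1, 0)])
    (fun g hg => ?_) (fun a _ b _ h => List.append_cancel_right h) (fun a _ => by simp)
  · rw [pow_one] at h1
    calc gf (NB t q q) (zc t) = (zc t : ℝ≥0∞)⁻¹ * ((zc t : ℝ≥0∞) * gf (NB t q q) (zc t)) := by
          rw [← mul_assoc, ENNReal.inv_mul_cancel Mid_zc ENNReal.coe_ne_top, one_mul]
      _ ≤ (zc t : ℝ≥0∞)⁻¹ * la t q := mul_le_mul_right h1 _
  · refine ⟨WB_step hg.1, fun i hi hiq hR => hg.2 i hi hiq ?_⟩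
    have hB : ([(1, 0)] : Wd) ∈ BT t 1 := by
      have hw : ([] : Wd) ∈ WB t 0 := CB_WB (by rw [CB_zero]; rfl)
      have hm : ([] ++ [(1, 0)] : Wd) ∈ CB t (0 + 1) := WB_step hw
      rw [List.nil_append, Nat.zero_add] at hm
      refine ⟨⟨⟨hm.1, fun u v he hu => ?_⟩, (CB_WB hm).2.2.1⟩, hm.2.2.2⟩
      have hl := congrArg List.length he
      rw [List.length_append, List.length_singleton] at hl
      have hul : 0 < u.length := List.length_pos_iff.2 hu
      have hv : v = [] := List.eq_nil_of_length_eq_zero (by omega)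
      subst hv
      rw [List.append_nil] at he
      rw [← he]
      simp
    exact (Rn_tail_iff hg.1 hB hiq).1 hR

open Classical in
private theorem Mid_ind {S T : Set Wd} (h : S ⊆ T) :
    s1 t T (fun l => if l ∈ S then 1 else 0) = gf S (zc t) := by
  unfold gf s1
  rw [tsum_subtype S (fun l : Wd => (zc t : ℝ≥0∞) ^ l.length),
    tsum_subtype T (fun l : Wd => (zc t : ℝ≥0∞) ^ l.length * (if l ∈ S then 1 else 0))]
  refine tsum_congr fun l => ?_
  by_cases hl : l ∈ S
  · rw [Set.indicator_of_mem hl, Set.indicator_of_mem (h hl), if_pos hl, mul_one]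
  · rw [Set.indicator_of_notMem hl]
    by_cases hl' : l ∈ T
    · rw [Set.indicator_of_mem hl', if_neg hl, mul_zero]
    · rw [Set.indicator_of_notMem hl']

theorem w1_le (k a a' : ℕ) : w1 t k a a' ≤ (zc t : ℝ≥0∞)⁻¹ * (∑ j ∈ range k, ∑ h ∈ range k, ∑ j' ∈ range k,
    (if a ≤ j ∧ a' ≤ j' ∧ j + h + j' + 1 = k then la t j * be t (zc t) h * la t j' else 0) + la t k) := by
  classical
  let F : Wd → ℝ≥0∞ := fun l => if l ∈ MW t k a a' then 1 else 0
  have e0 : w1 t k a a' = sm t k F := by
    rw [sm_eq_s1, Mid_ind (fun l hl => hl.1)]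
    rfl
  have hF1 : ∀ l, F l ≤ 1 := by
    intro l
    show (if l ∈ MW t k a a' then (1 : ℝ≥0∞) else 0) ≤ 1
    split_ifs <;> simp
  have hT : ∀ i ∈ range k, s1 t (CB t (i + 1)) (fun A => s1 t (NB t (k - (i + 1)) (k - (i + 1)))
      (fun B => F (A ++ B))) ≤ (zc t : ℝ≥0∞)⁻¹ * ∑ j ∈ range k, ∑ h ∈ range k,
        (if a ≤ j ∧ a' ≤ k - 1 - i ∧ j + h + (k - 1 - i) + 1 = k then
          la t j * be t (zc t) h * la t (k - 1 - i) else 0) := by
    intro i hi
    have hik : i < k := mem_range.1 hi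
    have hki : k - (i + 1) = k - 1 - i := by omega
    rw [hki]
    have key : ∀ A ∈ CB t (i + 1), ∀ B ∈ NB t (k - 1 - i) (k - 1 - i), A ++ B ∈ MW t k a a' →
        a ≤ i ∧ a' ≤ k - 1 - i ∧ NR t a A := by
      intro A hA B hB hM
      have hR : Rn t (i + 1) (A ++ B) := ⟨A, B, rfl, hA, hB.1.2.1⟩
      refine ⟨?_, ?_, ?_⟩
      · by_contra hc
        exact hM.2.1 (i + 1) (by omega) (by omega) hR
      · by_contra hc
        have h1 := rn_rev hM.1 (by omega : 1 ≤ i + 1) (by omega) hR
        exact hM.2.2 (k + 1 - (i + 1)) (by omega) (by omega) h1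
      · rintro m hm hma ⟨u, v, he, hu, hv⟩
        obtain ⟨-, hvC⟩ := CB_split hA he hu hv
        exact hM.2.1 m hm hma ⟨u, v ++ B, by rw [he, List.append_assoc], hu,
          Ri_append hvC hB.1.2.1⟩
    by_cases hc : a ≤ i ∧ a' ≤ k - 1 - i
    · have h1 : s1 t (CB t (i + 1)) (fun A => s1 t (NB t (k - 1 - i) (k - 1 - i))
          (fun B => F (A ++ B))) ≤
          gf {A | A ∈ CB t (i + 1) ∧ NR t a A} (zc t) * gf (NB t (k - 1 - i) (k - 1 - i)) (zc t) := by
        rw [← Mid_ind (t := t) (S := {A | A ∈ CB t (i + 1) ∧ NR t a A}) (T := CB t (i + 1))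
          (fun l hl => hl.1), ← s1_mul_const]
        refine s1_mono fun A hA => ?_
        rw [← s1_one, ← s1_const_mul]
        refine s1_mono fun B hB => ?_
        by_cases hM : A ++ B ∈ MW t k a a'
        · have h2 := (key A hA B hB hM).2.2
          rw [if_pos (show A ∈ {A | A ∈ CB t (i + 1) ∧ NR t a A} from ⟨hA, h2⟩), one_mul]
          exact hF1 _
        · show (if A ++ B ∈ MW t k a a' then (1 : ℝ≥0∞) else 0) ≤ _
          rw [if_neg hM]
          exact zero_le
      refine h1.trans ?_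
      calc gf {A | A ∈ CB t (i + 1) ∧ NR t a A} (zc t) * gf (NB t (k - 1 - i) (k - 1 - i)) (zc t) ≤
            (∑ j ∈ range (i + 1), if a ≤ j then la t j * be t (zc t) (i - j) else 0) *
              ((zc t : ℝ≥0∞)⁻¹ * la t (k - 1 - i)) := mul_le_mul' Mid_first (Mid_NB _)
        _ = (zc t : ℝ≥0∞)⁻¹ * ∑ j ∈ range (i + 1),
              (if a ≤ j then la t j * be t (zc t) (i - j) else 0) * la t (k - 1 - i) := by
            rw [← Finset.sum_mul]
            ring
        _ ≤ _ := by
            refine mul_le_mul_right ?_ _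
            refine (Finset.sum_le_sum (g := fun j => ∑ h ∈ range k,
              (if a ≤ j ∧ a' ≤ k - 1 - i ∧ j + h + (k - 1 - i) + 1 = k then
              la t j * be t (zc t) h * la t (k - 1 - i) else 0)) fun j hj => ?_).trans
              (Finset.sum_le_sum_of_subset (Finset.range_subset_range.2 (by omega)))
            have hji : j < i + 1 := mem_range.1 hj
            by_cases haj : a ≤ j
            · rw [if_pos haj]
              refine le_trans (le_of_eq ?_) (Finset.single_le_sum (f := fun h =>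
                (if a ≤ j ∧ a' ≤ k - 1 - i ∧ j + h + (k - 1 - i) + 1 = k then
                la t j * be t (zc t) h * la t (k - 1 - i) else 0)) (fun _ _ => zero_le)
                (mem_range.2 (by omega : i - j < k)))
              rw [if_pos ⟨haj, hc.2, by omega⟩]
            · rw [if_neg haj, zero_mul]
              exact zero_le
    · have h1 : s1 t (CB t (i + 1)) (fun A => s1 t (NB t (k - 1 - i) (k - 1 - i))
          (fun B => F (A ++ B))) = 0 := by
        have h2 : ∀ A ∈ CB t (i + 1), s1 t (NB t (k - 1 - i) (k - 1 - i)) (fun B => F (A ++ B)) =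
            0 := by
          intro A hA
          unfold s1
          refine ENNReal.tsum_eq_zero.2 fun B => ?_
          have h3 : A ++ (B : Wd) ∉ MW t k a a' := by
            intro hM
            have h4 := key A hA B B.2 hM
            exact hc ⟨h4.1, h4.2.1⟩
          show _ * (if A ++ (B : Wd) ∈ MW t k a a' then (1 : ℝ≥0∞) else 0) = 0
          rw [if_neg h3, mul_zero]
        rw [s1]
        refine ENNReal.tsum_eq_zero.2 fun A => ?_
        show _ * s1 t (NB t (k - 1 - i) (k - 1 - i)) (fun B => F ((A : Wd) ++ B)) = 0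
        rw [h2 A A.2, mul_zero]
      rw [h1]
      exact zero_le
  rw [e0, own_dec le_rfl F, Finset.sum_range_succ', mul_add]
  refine add_le_add ((Finset.sum_le_sum hT).trans ?_) ?_
  · rw [← mul_sum]
    refine mul_le_mul_right (le_of_eq ?_) _
    rw [Finset.sum_range_reflect (fun j' => ∑ j ∈ range k, ∑ h ∈ range k,
      (if a ≤ j ∧ a' ≤ j' ∧ j + h + j' + 1 = k then
        la t j * be t (zc t) h * la t j' else 0)) k, Finset.sum_comm]
    refine Finset.sum_congr rfl fun j _ => ?_
    rw [Finset.sum_comm]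
  · have h1 : s1 t (CB t 0) (fun A => s1 t (NB t (k - 0) (k - 0)) (fun B => F (A ++ B))) ≤
        gf (CB t 0) (zc t) * gf (NB t k k) (zc t) := by
      rw [Nat.sub_zero, ← s1_one, ← s1_mul_const]
      refine s1_mono fun A hA => ?_
      rw [one_mul, ← s1_one]
      exact s1_mono fun B hB => hF1 _
    refine h1.trans ?_
    have h2 : gf (CB t 0) (zc t) = 1 := by
      rw [gf_CB, be_zero]
    rw [h2, one_mul]
    exact Mid_NB k

end Pool.Agent.ZLF
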