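import Pool.Agent.ZLF.Defs
import Pool.Agent.ZHW.Basic
import Pool.Agent.ZCS.Fw
import Pool.Agent.ZHW.AnIrr

/-!
Module OwnDec: a weak bridge, decomposed at its last own renewal level `<= n`; the renewal equation of the cobridges.

PAPER PROOF. `own_dec` is the one-walk version of `pair_dec` (ZCS/PDec, copy that file): the map `(r, A, B) ↦ A ++ B` from the
disjoint union over `r ≤ n` of `CB t r × NB t (h - r) (n - r)` to `WB t h` is a bijection (`CB_WB_append`; `r` is determined
because a larger renewal level `r' ≤ n` of `A ++ B` would be a renewal level `r' - r` of `B` by `Rn_append`; then `Rn_unique`;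
every `P` is in the image: take the greatest `r ≤ n` with `Rn t r P`, `WB_split`). The lengths add.
`la_ren`: `own_dec` with `h = r + 1`, `n = r` and `F` the indicator function of `CB t (r + 1)`: the left side is
`gf (CB t (r + 1)) = be t (zc t) (r + 1)` (`gf_CB`, ZHW/Flip; `CB_WB`); for `A ∈ CB t s`, `B ∈ WB t (r + 1 - s)`: `A ++ B ∈ CB t (r + 1)` iff
`B ∈ CB t (r + 1 - s)` (`CB_append`, `CB_split`), and `{B ∈ CB t (r + 1 - s) | NR t (r - s) B} = IC t (r - s)`; so the right side is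
`∑ s ≤ r, be s * la (r - s)`; reverse the sum. `la_sum`: `anIrr` (ZHW/AnIrr) with `I = la t`, `u = be t (zc t)` (`be_zero`, `be_le_one`).
`s1_mono` etc.: as the lemmas of ZCS/Fw for `sm`.
-/

namespace Pool.Agent.ZLF

open Pool.Agent.SHP Pool.Agent.ZHW Pool.Agent.ZCS Finset
open scoped ENNReal NNReal

variable {t : Bool}

theorem sm_eq_s1 (d : ℕ) (F : Wd → ℝ≥0∞) : sm t d F = s1 t (WB t d) F := rfl

theorem s1_mono {A : Set Wd} {F G : Wd → ℝ≥0∞} (h : ∀ l ∈ A, F l ≤ G l) : s1 t A F ≤ s1 t A G := by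
  unfold s1
  exact ENNReal.tsum_le_tsum fun l => mul_le_mul_right (h l l.2) _

theorem s1_congr {A : Set Wd} {F G : Wd → ℝ≥0∞} (h : ∀ l ∈ A, F l = G l) : s1 t A F = s1 t A G := by
  unfold s1
  exact tsum_congr fun l => by rw [h l l.2]

theorem s1_const_mul (A : Set Wd) (c : ℝ≥0∞) (F : Wd → ℝ≥0∞) : s1 t A (fun l => c * F l) = c * s1 t A F := by
  unfold s1
  rw [← ENNReal.tsum_mul_left]
  exact tsum_congr fun l => by ring

theorem s1_mul_const (A : Set Wd) (c : ℝ≥0∞) (F : Wd → ℝ≥0∞) : s1 t A (fun l => F l * c) = s1 t A F * c := by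
  unfold s1
  rw [← ENNReal.tsum_mul_right]
  exact tsum_congr fun l => by ring

theorem s1_one (A : Set Wd) : s1 t A (fun _ => 1) = gf A (zc t) := by
  unfold s1 gf
  exact tsum_congr fun l => mul_one _

theorem s1_add (A : Set Wd) (F G : Wd → ℝ≥0∞) : s1 t A (fun l => F l + G l) = s1 t A F + s1 t A G := by
  unfold s1
  rw [← ENNReal.tsum_add]
  exact tsum_congr fun l => mul_add _ _ _

theorem s1_sum {ι : Type*} (s : Finset ι) (A : Set Wd) (F : ι → Wd → ℝ≥0∞) :
    s1 t A (fun l => ∑ i ∈ s, F i l) = ∑ i ∈ s, s1 t A (F i) := by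
  classical
  induction s using Finset.induction_on with
  | empty => simp [s1]
  | insert a s ha ih =>
    rw [Finset.sum_insert ha, ← ih, ← s1_add]
    exact s1_congr fun l _ => Finset.sum_insert ha

theorem s1_comm (A B : Set Wd) (F : Wd → Wd → ℝ≥0∞) :
    s1 t A (fun x => s1 t B (fun y => F x y)) = s1 t B (fun y => s1 t A (fun x => F x y)) := by
  unfold s1
  have h1 : ∀ (A B : Set Wd) (F : Wd → Wd → ℝ≥0∞),
      (∑' l : A, (zc t : ℝ≥0∞) ^ (l : Wd).length * ∑' m : B, (zc t : ℝ≥0∞) ^ (m : Wd).length * F l m) =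
      ∑' l : A, ∑' m : B, (zc t : ℝ≥0∞) ^ (l : Wd).length * ((zc t : ℝ≥0∞) ^ (m : Wd).length * F l m) := by
    intro A B F
    exact tsum_congr fun l => ENNReal.tsum_mul_left.symm
  rw [h1 A B F, h1 B A (fun y x => F x y), ENNReal.tsum_comm]
  exact tsum_congr fun l => tsum_congr fun m => by ring

private theorem OwnDec_Rn_zero {P : Wd} (hP : Ri P) : Rn t 0 P :=
  ⟨[], P, rfl, by rw [CB_zero]; rfl, hP⟩

private theorem OwnDec_lt {n h r r' : ℕ} (hr' : r' ≤ n) {a b a' b' : Wd} (ha : a ∈ CB t r)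
    (hb : b ∈ NB t (h - r) (n - r)) (ha' : a' ∈ CB t r') (hb' : b' ∈ NB t (h - r') (n - r'))
    (h1 : a ++ b = a' ++ b') : ¬ r < r' := by
  intro hlt
  have e : r' = r + (r' - r) := by omega
  have g1 : Rn t (r + (r' - r)) (a ++ b) := by
    rw [← e, h1]
    exact ⟨a', b', rfl, ha', hb'.1.2.1⟩
  exact hb.2 (r' - r) (by omega) (by omega) ((Rn_append ha hb.1.2.1).1 g1)

theorem own_dec {n h : ℕ} (hn : n ≤ h) (F : Wd → ℝ≥0∞) : sm t h F =
    ∑ r ∈ range (n + 1), s1 t (CB t r) (fun A => s1 t (NB t (h - r) (n - r)) (fun B => F (A ++ B))) := by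
  classical
  let S : Type := Σ r : Fin (n + 1), (CB t (r : ℕ) × NB t (h - r) (n - r))
  have hmem : ∀ x : S, (x.2.1 : Wd) ++ (x.2.2 : Wd) ∈ WB t h := by
    rintro ⟨r, a, b⟩
    have hr : (r : ℕ) ≤ n := by have := r.2; omega
    have e1 : (r : ℕ) + (h - r) = h := by omega
    have g1 := CB_WB_append a.2 b.2.1
    rw [e1] at g1
    exact g1
  let f : S → WB t h := fun x => ⟨_, hmem x⟩
  have hf : Function.Bijective f := by
    constructor
    · rintro ⟨r, a, b⟩ ⟨r', a', b'⟩ he
      have h1 : (a : Wd) ++ (b : Wd) = (a' : Wd) ++ (b' : Wd) := congrArg (fun x : WB t h => (x : Wd)) he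
      have hr : (r : ℕ) ≤ n := by have := r.2; omega
      have hr' : (r' : ℕ) ≤ n := by have := r'.2; omega
      have k1 := OwnDec_lt hr' a.2 b.2 a'.2 b'.2 h1
      have k2 := OwnDec_lt hr a'.2 b'.2 a.2 b.2 h1.symm
      have hrr : r = r' := Fin.ext (by omega)
      subst hrr
      obtain ⟨x1, y1⟩ := Rn_unique h1 a.2 a'.2 b.2.1.2.1 b'.2.1.2.1
      have ea : a = a' := Subtype.ext x1
      have eb : b = b' := Subtype.ext y1
      rw [ea, eb]
    · rintro ⟨P, hP⟩
      let p : ℕ → Prop := fun i => Rn t i P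
      have h0 : p 0 := OwnDec_Rn_zero hP.2.1
      have hsp : p (Nat.findGreatest p n) := Nat.findGreatest_spec (Nat.zero_le n) h0
      have hle : Nat.findGreatest p n ≤ n := Nat.findGreatest_le n
      have hgr : ∀ k, Nat.findGreatest p n < k → k ≤ n → ¬ p k := fun k hk hk' =>
        Nat.findGreatest_is_greatest hk hk'
      generalize Nat.findGreatest p n = r at hsp hle hgr
      obtain ⟨u, v, e1, hu, hv⟩ := hsp
      have w1 := (WB_split hP e1 hu hv).2
      have hnc : NR t (n - r) v := by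
        intro i hi hin hc
        refine hgr (r + i) (by omega) (by omega) ?_
        show Rn t (r + i) P
        rw [e1]
        exact (Rn_append hu hv).2 hc
      refine ⟨⟨⟨r, by omega⟩, ⟨u, hu⟩, ⟨v, w1, hnc⟩⟩, ?_⟩
      exact Subtype.ext e1.symm
  have h2 : (∑ r ∈ range (n + 1), s1 t (CB t r) (fun A => s1 t (NB t (h - r) (n - r))
        (fun B => F (A ++ B)))) =
      ∑' x : S, (zc t : ℝ≥0∞) ^ ((f x : Wd)).length * F (f x) := by
    rw [ENNReal.tsum_sigma', tsum_fintype, Finset.sum_range]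
    refine Finset.sum_congr rfl fun r _ => ?_
    unfold s1
    rw [ENNReal.tsum_prod']
    refine tsum_congr fun a => ?_
    rw [← ENNReal.tsum_mul_left]
    refine tsum_congr fun b => ?_
    have e : ((f ⟨r, a, b⟩ : Wd)).length = (a : Wd).length + (b : Wd).length := by
      simp only [f, List.length_append]
    rw [e, ← mul_assoc, ← pow_add]
  rw [h2]
  unfold sm
  exact ((Equiv.ofBijective f hf).tsum_eq
    (fun p : WB t h => (zc t : ℝ≥0∞) ^ ((p : Wd)).length * F p)).symm

open Classical in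
private theorem OwnDec_ind {A B : Set Wd} (h : A ⊆ B) :
    s1 t B (fun l => if l ∈ A then 1 else 0) = gf A (zc t) := by
  unfold s1 gf
  have e1 : (∑' l : B, (zc t : ℝ≥0∞) ^ (l : Wd).length * (if (l : Wd) ∈ A then 1 else 0)) =
      ∑' l : Wd, B.indicator (fun l => (zc t : ℝ≥0∞) ^ l.length * (if l ∈ A then 1 else 0)) l :=
    tsum_subtype B (fun l => (zc t : ℝ≥0∞) ^ l.length * (if l ∈ A then 1 else 0))
  have e2 : (∑' l : A, (zc t : ℝ≥0∞) ^ (l : Wd).length) =
      ∑' l : Wd, A.indicator (fun l => (zc t : ℝ≥0∞) ^ l.length) l :=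
    tsum_subtype A (fun l => (zc t : ℝ≥0∞) ^ l.length)
  rw [e1, e2]
  refine tsum_congr fun l => ?_
  by_cases hA : l ∈ A
  · simp [Set.indicator, hA, h hA]
  · simp [Set.indicator, hA]

theorem la_ren (r : ℕ) : be t (zc t) (r + 1) = ∑ i ∈ range (r + 1), la t i * be t (zc t) (r - i) := by
  classical
  have h1 : be t (zc t) (r + 1) = sm t (r + 1) (fun l => if l ∈ CB t (r + 1) then 1 else 0) := by
    rw [sm_eq_s1, OwnDec_ind (fun l hl => CB_WB hl), gf_CB]
  rw [h1, own_dec (Nat.le_succ r)]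
  rw [← Finset.sum_range_reflect]
  refine Finset.sum_congr rfl fun i hi => ?_
  have hi' : i ≤ r := by
    have := Finset.mem_range.1 hi
    omega
  have e0 : r + 1 - 1 - i = r - i := by omega
  rw [e0]
  have e1 : r + 1 - (r - i) = i + 1 := by omega
  have e2 : r - (r - i) = i := by omega
  rw [e1, e2]
  have h3 : ∀ A ∈ CB t (r - i), s1 t (NB t (i + 1) i) (fun B => if A ++ B ∈ CB t (r + 1) then 1 else 0) =
      la t i := by
    intro A hA
    have hsub : IC t i ⊆ NB t (i + 1) i := fun l hl => ⟨CB_WB hl.1, hl.2⟩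
    rw [la, ← OwnDec_ind hsub]
    refine s1_congr fun B hB => ?_
    have hiff : A ++ B ∈ CB t (r + 1) ↔ B ∈ IC t i := by
      constructor
      · intro h
        have h4 := (CB_split h rfl hA hB.1.2.1).2
        have e3 : r + 1 - (r - i) = i + 1 := by omega
        rw [e3] at h4
        exact ⟨h4, hB.2⟩
      · intro h
        have h4 := CB_append hA h.1
        have e3 : r - i + (i + 1) = r + 1 := by omega
        rw [e3] at h4
        exact h4
    by_cases hc : B ∈ IC t i
    · rw [if_pos (hiff.2 hc), if_pos hc]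
    · rw [if_neg (fun h => hc (hiff.1 h)), if_neg hc]
  rw [s1_congr h3]
  have h5 : s1 t (CB t (r - i)) (fun _ => la t i) = la t i * s1 t (CB t (r - i)) (fun _ => 1) := by
    rw [← s1_const_mul]
    exact s1_congr fun l _ => (mul_one _).symm
  rw [h5, s1_one, gf_CB]

theorem la_sum (D : ℕ) : ∑ i ∈ range D, la t i ≤ 1 :=
  anIrr (la t) (be t (zc t)) (be_zero _) (fun n => be_le_one n) (fun r => (la_ren r).ge) D

end Pool.Agent.ZLF
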