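import Pool.Agent.ZLF.RDefs

/-!
Module RJ: the fold matrix has at most one positive eigenvalue.

PAPER PROOF. Write `u r = b r ^ 2`. `eps_nonneg`: `elast`. First `e l = u l - ∑ j < l, eps j * u (l - 1 - j)` (strong induction on `l`: by
definition `e (l + 1) = ∑ i ≤ l, f i * e (l - i) - eps l`; insert the formula for `e (l - i)` and use `uren`:
`∑ i ≤ l, f i * u (l - i) = u (l + 1)`, and for `j < l` the factor of `eps j` is `∑ i ≤ l - 1 - j, f i * u (l - 1 - j - i) = u (l - j)`, and
`eps l = eps l * u 0`). `J_eq`: insert it in `J r s = ∑ l ≤ min r s, e l * cc (r - l) (s - l)`; the first part is `b r * b s` by `ccdec`; in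
the second one exchange the sums: for `j < min r s` the factor of `eps j` is `∑ l, [j + 1 ≤ l ≤ min r s] u (l - 1 - j) * cc (r - l) (s - l) =
b (r - 1 - j) * b (s - 1 - j)` (`ccdec`, `l = j + 1 + l'`). `J_symm`: from `J_eq`. `J_zero`: `ccdec 0 0`, `b0`: `cc 0 0 = 1`.
`J_psd`: by `J_eq` the matrix is `∑ j < D, eps j * v_j v_j^T` with `v_j i = b (i - 1 - j)` for `j < i` and `0` otherwise
(`Matrix.PosSemidef`: `x ⬝ᵥ A *ᵥ x = ∑ j, eps j * (v_j ⬝ᵥ x) ^ 2`, or `Matrix.posSemidef_vecMulVec_self_star`, `PosSemidef.add`, `.smul`).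
-/

namespace Pool.Agent.ZLF.Sq

open Finset

variable (S : Sq)

theorem eps_nonneg (j : ℕ) : 0 ≤ S.eps j := by
  have h := S.elast j
  unfold eps
  linarith

theorem RJ_exch (F : ℕ → ℕ → ℝ) (m : ℕ) :
    ∑ l ∈ range (m + 1), ∑ j ∈ range l, F l j =
      ∑ j ∈ range m, ∑ l ∈ range (m - j), F (j + 1 + l) j := by
  rw [Finset.sum_comm' (s' := fun j => Ico (j + 1) (m + 1)) (t' := range m)]
  · refine Finset.sum_congr rfl fun j _ => ?_
    rw [Finset.sum_Ico_eq_sum_range]
    have : m + 1 - (j + 1) = m - j := by omega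
    rw [this]
  · intro l j
    simp only [Finset.mem_range, Finset.mem_Ico]
    omega

theorem RJ_exch2 (F : ℕ → ℕ → ℝ) (m : ℕ) :
    ∑ i ∈ range (m + 1), ∑ j ∈ range (m - i), F i j =
      ∑ j ∈ range m, ∑ i ∈ range (m - j), F i j := by
  rw [Finset.sum_comm' (s' := fun j => range (m - j)) (t' := range m)]
  intro i j
  simp only [Finset.mem_range]
  omega

theorem RJ_e (l : ℕ) : S.e l = S.b l ^ 2 - ∑ j ∈ range l, S.eps j * S.b (l - 1 - j) ^ 2 := by
  induction l using Nat.strong_induction_on with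
  | _ l ih =>
    rcases Nat.eq_zero_or_pos l with rfl | hl
    · rw [S.e0, S.b0]
      simp
    · obtain ⟨m, rfl⟩ : ∃ m, l = m + 1 := ⟨l - 1, by omega⟩
      have h1 : S.e (m + 1) = ∑ i ∈ range (m + 1), S.f i * S.e (m - i) - S.eps m := by
        unfold eps
        ring
      have h2 : ∑ i ∈ range (m + 1), S.f i * S.e (m - i) =
          ∑ i ∈ range (m + 1), S.f i * S.b (m - i) ^ 2 -
            ∑ i ∈ range (m + 1), ∑ j ∈ range (m - i),
              S.f i * (S.eps j * S.b (m - i - 1 - j) ^ 2) := by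
        rw [← Finset.sum_sub_distrib]
        refine Finset.sum_congr rfl fun i _ => ?_
        rw [ih (m - i) (by omega), mul_sub, Finset.mul_sum]
      rw [h1, h2, ← S.uren, RJ_exch2, Finset.sum_range_succ]
      have h3 : ∑ j ∈ range m, ∑ i ∈ range (m - j), S.f i * (S.eps j * S.b (m - i - 1 - j) ^ 2) =
          ∑ j ∈ range m, S.eps j * S.b (m + 1 - 1 - j) ^ 2 := by
        refine Finset.sum_congr rfl fun j hj => ?_
        have hj' := Finset.mem_range.mp hj
        obtain ⟨q, hq⟩ : ∃ q, m - j = q + 1 := ⟨m - j - 1, by omega⟩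
        have e1 : m + 1 - 1 - j = q + 1 := by omega
        rw [hq, e1, S.uren, Finset.mul_sum]
        refine Finset.sum_congr rfl fun i hi => ?_
        have hi' := Finset.mem_range.mp hi
        have e2 : m - i - 1 - j = q - i := by omega
        rw [e2]
        ring
      have e3 : m + 1 - 1 - m = 0 := by omega
      rw [h3, e3, S.b0]
      ring

theorem J_eq (r s : ℕ) : S.J r s =
    S.b r * S.b s - ∑ j ∈ range (min r s), S.eps j * (S.b (r - 1 - j) * S.b (s - 1 - j)) := by
  unfold J
  have h1 : ∑ l ∈ range (min r s + 1), S.e l * S.cc (r - l) (s - l) =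
      ∑ l ∈ range (min r s + 1), S.b l ^ 2 * S.cc (r - l) (s - l) -
        ∑ l ∈ range (min r s + 1), ∑ j ∈ range l,
          S.eps j * S.b (l - 1 - j) ^ 2 * S.cc (r - l) (s - l) := by
    rw [← Finset.sum_sub_distrib]
    refine Finset.sum_congr rfl fun l _ => ?_
    rw [S.RJ_e l, sub_mul, Finset.sum_mul]
  rw [h1, ← S.ccdec, RJ_exch]
  congr 1
  refine Finset.sum_congr rfl fun j hj => ?_
  have hj' := Finset.mem_range.mp hj
  have e1 : min r s - j = min (r - 1 - j) (s - 1 - j) + 1 := by omega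
  rw [S.ccdec (r - 1 - j) (s - 1 - j), e1, Finset.mul_sum]
  refine Finset.sum_congr rfl fun l hl => ?_
  have e2 : j + 1 + l - 1 - j = l := by omega
  have e3 : r - (j + 1 + l) = r - 1 - j - l := by omega
  have e4 : s - (j + 1 + l) = s - 1 - j - l := by omega
  rw [e2, e3, e4]
  ring

theorem J_symm (r s : ℕ) : S.J r s = S.J s r := by
  rw [J_eq, J_eq, min_comm, mul_comm]
  congr 1
  refine Finset.sum_congr rfl fun j _ => ?_
  ring

theorem J_zero : S.J 0 0 = 1 := by
  have h := S.ccdec 0 0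
  unfold J
  simp only [Nat.min_self, zero_add, Finset.sum_range_one, Nat.sub_zero, S.b0, S.e0] at h ⊢
  linarith

theorem J_psd (D : ℕ) :
    (Matrix.of fun i j : Fin (D + 1) => S.b i * S.b j - S.J i j : Matrix (Fin (D + 1)) (Fin (D + 1)) ℝ).PosSemidef := by
  set v : ℕ → Fin (D + 1) → ℝ := fun k i => if k < (i : ℕ) then S.b (i - 1 - k) else 0 with hv
  have h : (Matrix.of fun i j : Fin (D + 1) => S.b i * S.b j - S.J i j :
      Matrix (Fin (D + 1)) (Fin (D + 1)) ℝ) =
        ∑ k ∈ range D, S.eps k • Matrix.vecMulVec (v k) (star (v k)) := by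
    ext i j
    rw [Matrix.sum_apply]
    simp only [Matrix.of_apply, Matrix.smul_apply, Matrix.vecMulVec_apply, smul_eq_mul,
      Pi.star_apply, star_trivial]
    rw [S.J_eq]
    have hi := i.isLt
    have hj := j.isLt
    have hsub : range (min (i : ℕ) (j : ℕ)) ⊆ range D := by
      intro x hx
      rw [Finset.mem_range] at hx ⊢
      omega
    rw [sub_sub_cancel, ← Finset.sum_subset hsub]
    · refine Finset.sum_congr rfl fun k hk => ?_
      rw [Finset.mem_range] at hk
      simp only [hv]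
      rw [if_pos (by omega), if_pos (by omega)]
    · intro k _ hk
      rw [Finset.mem_range] at hk
      simp only [hv]
      by_cases h1 : k < (i : ℕ)
      · rw [if_neg (show ¬ k < (j : ℕ) by omega), mul_zero, mul_zero]
      · rw [if_neg h1, zero_mul, mul_zero]
  rw [h]
  refine Matrix.posSemidef_sum _ fun k _ => ?_
  exact (Matrix.posSemidef_vecMulVec_self_star (v k)).smul (S.eps_nonneg k)

end Pool.Agent.ZLF.Sq
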