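import Pool.Agent.ZLF.RU

/-!
Module RQuad: a sum over four end parts.

PAPER PROOF. Insert the definition of `J` twice: `J r2 r3 = ∑ l, e l * cc (r2 - l) (r3 - l)`, `J r4 r1 = ∑ l', e l' * cc (r4 - l') (r1 - l')`,
`a2 = r2 - l`, `a3 = r3 - l`, `a4 = r4 - l'`, `a1 = r1 - l'`: the condition `r1 + r2 + c = r3 + r4 + c'` is `a1 + a2 + c = a3 + a4 + c'`. So
the sum is at most `E ^ 2 * V`, `E = ∑ l ≤ D, e l`, `V = ∑ a1 a2 a3 a4 ≤ D, [a1 + a2 + c = a3 + a4 + c'] cc a2 a3 * cc a4 a1`. In the same way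
(`ccdec`) `(U D) ^ 2 * V ≤ Y`, `Y = ∑ r1 r2 r3 r4 ≤ 2 D, [r1 + r2 + c = r3 + r4 + c'] b r2 * b r3 * b r4 * b r1` (`r = l + a ≤ 2 D`; for given
`r`'s every pair `l ≤ min r2 r3`, `l' ≤ min r4 r1` is used at most once). Put `q s = ∑ r1 r2 ≤ 2 D, [r1 + r2 = s] b r1 * b r2`:
`Y = ∑ s s', [s + c = s' + c'] q s * q s' ≤ ∑ s, q s ^ 2` (`x y ≤ (x ^ 2 + y ^ 2) / 2`, for given `s` at most one `s'`), `q s ≤ ∑ r ≤ 2 D, b r ^ 2 = U (2 D)`
(the same inequality), `∑ s, q s = (U1 (2 D)) ^ 2`. So `Y ≤ U (2 D) * U1 (2 D) ^ 2 ≤ 8 * U D * U1 D ^ 2` (`U_sub`, `U1_sub` with `K = 2`). With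
`E ^ 2 ≤ U (2 D) ≤ 2 * U D` (`E_sq`): `E ^ 2 * V ≤ 2 * U D * 8 * U D * U1 D ^ 2 / (U D) ^ 2 = 16 * U1 D ^ 2`.
-/

namespace Pool.Agent.ZLF.Sq

open Finset

private theorem RQuad_exch (g : ℕ → ℝ) (G : ℕ → ℕ → ℝ) (w : ℤ → ℝ) (N : ℕ) :
    ∑ r ∈ range N, ∑ s ∈ range N,
      (∑ l ∈ range (min r s + 1), g l * G (r - l) (s - l)) * w ((r : ℤ) - s) =
    ∑ l ∈ range N, g l * ∑ a ∈ range (N - l), ∑ a' ∈ range (N - l), G a a' * w ((a : ℤ) - a') := by
  have h1 : ∀ r ∈ range N, ∑ s ∈ range N,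
      (∑ l ∈ range (min r s + 1), g l * G (r - l) (s - l)) * w ((r : ℤ) - s) =
      ∑ l ∈ range (r + 1), ∑ s ∈ Ico l N, g l * G (r - l) (s - l) * w ((r : ℤ) - s) := by
    intro r hr
    have hr' := Finset.mem_range.1 hr
    simp only [Finset.sum_mul]
    refine Finset.sum_comm' ?_
    intro x y
    simp only [mem_range, mem_Ico]
    omega
  rw [Finset.sum_congr rfl h1]
  rw [Finset.sum_comm' (t' := range N) (s' := fun l => Ico l N) (by
    intro x y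
    simp only [mem_range, mem_Ico]
    omega)]
  refine Finset.sum_congr rfl fun l _ => ?_
  rw [Finset.sum_Ico_eq_sum_range, Finset.mul_sum]
  refine Finset.sum_congr rfl fun a _ => ?_
  rw [Finset.sum_Ico_eq_sum_range, Finset.mul_sum]
  refine Finset.sum_congr rfl fun a' _ => ?_
  rw [Nat.add_sub_cancel_left, Nat.add_sub_cancel_left, mul_assoc]
  have h2 : ((l + a : ℕ) : ℤ) - ((l + a' : ℕ) : ℤ) = (a : ℤ) - a' := by
    push_cast
    ring
  rw [h2]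

private theorem RQuad_mono (F : ℕ → ℕ → ℝ) (hF : ∀ a a', 0 ≤ F a a') {m n : ℕ} (h : m ≤ n) :
    ∑ a ∈ range m, ∑ a' ∈ range m, F a a' ≤ ∑ a ∈ range n, ∑ a' ∈ range n, F a a' := by
  refine le_trans (Finset.sum_le_sum fun a _ =>
    Finset.sum_le_sum_of_subset_of_nonneg (Finset.range_mono h) fun a' _ _ => hF a a') ?_
  exact Finset.sum_le_sum_of_subset_of_nonneg (Finset.range_mono h) fun a _ _ =>
    Finset.sum_nonneg fun a' _ => hF a a'

variable (S : Sq)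

private theorem RQuad_up (w : ℤ → ℝ) (hw : ∀ d, 0 ≤ w d) (D : ℕ) :
    ∑ r ∈ range (D + 1), ∑ s ∈ range (D + 1), S.J r s * w ((r : ℤ) - s) ≤
      (∑ l ∈ range (D + 1), S.e l) *
        ∑ a ∈ range (D + 1), ∑ a' ∈ range (D + 1), S.cc a a' * w ((a : ℤ) - a') := by
  have h := RQuad_exch S.e S.cc w (D + 1)
  unfold J
  rw [h, Finset.sum_mul]
  refine Finset.sum_le_sum fun l _ => ?_
  refine mul_le_mul_of_nonneg_left ?_ (S.enn l)
  exact RQuad_mono (fun a a' => S.cc a a' * w ((a : ℤ) - a'))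
    (fun a a' => mul_nonneg (S.ccnn a a') (hw _)) (Nat.sub_le _ _)

private theorem RQuad_low (w : ℤ → ℝ) (hw : ∀ d, 0 ≤ w d) (D : ℕ) :
    S.U D * ∑ a ∈ range (D + 1), ∑ a' ∈ range (D + 1), S.cc a a' * w ((a : ℤ) - a') ≤
      ∑ r ∈ range (2 * D + 1), ∑ s ∈ range (2 * D + 1), S.b r * S.b s * w ((r : ℤ) - s) := by
  have h := RQuad_exch (fun l => S.b l ^ 2) S.cc w (2 * D + 1)
  have h1 : ∑ r ∈ range (2 * D + 1), ∑ s ∈ range (2 * D + 1), S.b r * S.b s * w ((r : ℤ) - s) =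
      ∑ r ∈ range (2 * D + 1), ∑ s ∈ range (2 * D + 1),
      (∑ l ∈ range (min r s + 1), (fun l => S.b l ^ 2) l * S.cc (r - l) (s - l)) *
        w ((r : ℤ) - s) := by
    refine Finset.sum_congr rfl fun r _ => Finset.sum_congr rfl fun s _ => ?_
    rw [S.ccdec r s]
  rw [h1, h]
  unfold U
  rw [Finset.sum_mul]
  have h0 : ∀ a a' : ℕ, 0 ≤ S.cc a a' * w ((a : ℤ) - a') :=
    fun a a' => mul_nonneg (S.ccnn a a') (hw _)
  refine le_trans (Finset.sum_le_sum fun l hl => mul_le_mul_of_nonneg_left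
    (RQuad_mono (fun a a' => S.cc a a' * w ((a : ℤ) - a')) h0
      (show D + 1 ≤ 2 * D + 1 - l by
        have := Finset.mem_range.1 hl
        omega)) (sq_nonneg (S.b l))) ?_
  refine Finset.sum_le_sum_of_subset_of_nonneg (Finset.range_mono (by omega)) fun l _ _ => ?_
  exact mul_nonneg (sq_nonneg _) (Finset.sum_nonneg fun a _ => Finset.sum_nonneg fun a' _ => h0 a a')

private theorem RQuad_comb (w : ℤ → ℝ) (hw : ∀ d, 0 ≤ w d) (D : ℕ) :
    S.U D * ∑ r ∈ range (D + 1), ∑ s ∈ range (D + 1), S.J r s * w ((r : ℤ) - s) ≤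
      (∑ l ∈ range (D + 1), S.e l) *
        ∑ r ∈ range (2 * D + 1), ∑ s ∈ range (2 * D + 1), S.b r * S.b s * w ((r : ℤ) - s) := by
  have h1 := RQuad_up S w hw D
  have h2 := RQuad_low S w hw D
  have hE : 0 ≤ ∑ l ∈ range (D + 1), S.e l := Finset.sum_nonneg fun l _ => S.enn l
  have hU : 0 ≤ S.U D := le_trans zero_le_one (one_le_U S D)
  refine le_trans (mul_le_mul_of_nonneg_left h1 hU) ?_
  rw [mul_left_comm]
  exact mul_le_mul_of_nonneg_left h2 hE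

private theorem RQuad_one (T : Finset ℕ) (P : ℕ → Prop) [DecidablePred P]
    (hP : ∀ x y, P x → P y → x = y) (x : ℝ) (hx : 0 ≤ x) :
    ∑ s ∈ T, (if P s then x else 0) ≤ x := by
  rw [← Finset.sum_filter, Finset.sum_const, nsmul_eq_mul]
  have h : (T.filter P).card ≤ 1 := by
    rw [Finset.card_le_one]
    intro a ha b hb
    exact hP a b (Finset.mem_filter.1 ha).2 (Finset.mem_filter.1 hb).2
  have h1 : ((T.filter P).card : ℝ) ≤ 1 := by exact_mod_cast h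
  calc ((T.filter P).card : ℝ) * x ≤ 1 * x := mul_le_mul_of_nonneg_right h1 hx
    _ = x := one_mul x

private theorem RQuad_amgm (M : ℕ) (d : ℤ) :
    ∑ r ∈ range (M + 1), ∑ s ∈ range (M + 1),
      S.b r * S.b s * (if (r : ℤ) - s = d then (1 : ℝ) else 0) ≤ S.U M := by
  have h1 : ∀ r ∈ range (M + 1), ∀ s ∈ range (M + 1),
      S.b r * S.b s * (if (r : ℤ) - s = d then (1 : ℝ) else 0) ≤
      (if (r : ℤ) - s = d then S.b r ^ 2 / 2 else 0) +
        (if (r : ℤ) - s = d then S.b s ^ 2 / 2 else 0) := by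
    intro r _ s _
    split_ifs
    · have h := sq_nonneg (S.b r - S.b s)
      linarith
    · simp
  refine le_trans (Finset.sum_le_sum fun r hr => Finset.sum_le_sum fun s hs => h1 r hr s hs) ?_
  simp only [Finset.sum_add_distrib]
  have h2 : ∑ r ∈ range (M + 1), ∑ s ∈ range (M + 1),
      (if (r : ℤ) - s = d then S.b r ^ 2 / 2 else 0) ≤ ∑ r ∈ range (M + 1), S.b r ^ 2 / 2 := by
    refine Finset.sum_le_sum fun r _ => ?_
    refine RQuad_one _ (fun s : ℕ => (r : ℤ) - s = d) ?_ _ (by positivity)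
    intro x y hx hy
    omega
  have h3 : ∑ r ∈ range (M + 1), ∑ s ∈ range (M + 1),
      (if (r : ℤ) - s = d then S.b s ^ 2 / 2 else 0) ≤ ∑ s ∈ range (M + 1), S.b s ^ 2 / 2 := by
    rw [Finset.sum_comm]
    refine Finset.sum_le_sum fun s _ => ?_
    refine RQuad_one _ (fun r : ℕ => (r : ℤ) - s = d) ?_ _ (by positivity)
    intro x y hx hy
    omega
  have h4 : S.U M = ∑ r ∈ range (M + 1), S.b r ^ 2 / 2 + ∑ s ∈ range (M + 1), S.b s ^ 2 / 2 := by
    unfold U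
    rw [← Finset.sum_add_distrib]
    exact Finset.sum_congr rfl fun r _ => by ring
  rw [h4]
  exact add_le_add h2 h3

private theorem RQuad_inner (D : ℕ) (d : ℤ) :
    S.U D * ∑ r ∈ range (D + 1), ∑ s ∈ range (D + 1),
      S.J r s * (if (r : ℤ) - s = d then (1 : ℝ) else 0) ≤
      (∑ l ∈ range (D + 1), S.e l) * S.U (2 * D) := by
  refine le_trans (RQuad_comb S (fun x => if x = d then (1 : ℝ) else 0) (fun x => by
    split_ifs <;> norm_num) D) ?_
  exact mul_le_mul_of_nonneg_left (RQuad_amgm S (2 * D) d) (Finset.sum_nonneg fun l _ => S.enn l)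

theorem quad (D c c' : ℕ) : ∑ r1 ∈ range (D + 1), ∑ r2 ∈ range (D + 1), ∑ r3 ∈ range (D + 1), ∑ r4 ∈ range (D + 1),
    (if r1 + r2 + c = r3 + r4 + c' then S.J r2 r3 * S.J r4 r1 else 0) ≤ 16 * S.U1 D ^ 2 := by
  obtain ⟨L, hL⟩ : ∃ L, L = ∑ r1 ∈ range (D + 1), ∑ r2 ∈ range (D + 1), ∑ r3 ∈ range (D + 1),
      ∑ r4 ∈ range (D + 1),
        (if r1 + r2 + c = r3 + r4 + c' then S.J r2 r3 * S.J r4 r1 else 0) := ⟨_, rfl⟩
  obtain ⟨E, hE⟩ : ∃ E, E = ∑ l ∈ range (D + 1), S.e l := ⟨_, rfl⟩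
  have h1 : L = ∑ r2 ∈ range (D + 1), ∑ r3 ∈ range (D + 1), S.J r2 r3 *
      ∑ r4 ∈ range (D + 1), ∑ r1 ∈ range (D + 1),
        S.J r4 r1 * (if (r4 : ℤ) - r1 = (r2 : ℤ) - r3 + c - c' then (1 : ℝ) else 0) := by
    rw [hL, Finset.sum_comm]
    refine Finset.sum_congr rfl fun r2 _ => ?_
    rw [Finset.sum_comm]
    refine Finset.sum_congr rfl fun r3 _ => ?_
    rw [Finset.sum_comm, Finset.mul_sum]
    refine Finset.sum_congr rfl fun r4 _ => ?_
    rw [Finset.mul_sum]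
    refine Finset.sum_congr rfl fun r1 _ => ?_
    by_cases h : r1 + r2 + c = r3 + r4 + c'
    · rw [if_pos h, if_pos (by omega), mul_one]
    · rw [if_neg h, if_neg (by omega), mul_zero, mul_zero]
  have hU1 : 1 ≤ S.U D := one_le_U S D
  have hU : 0 ≤ S.U D := le_trans zero_le_one hU1
  have hE0 : 0 ≤ E := by
    rw [hE]
    exact Finset.sum_nonneg fun l _ => S.enn l
  have hU2 : 0 ≤ S.U (2 * D) := le_trans zero_le_one (one_le_U S _)
  have h2 : S.U D * L ≤ E * S.U (2 * D) *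
      ∑ r ∈ range (D + 1), ∑ s ∈ range (D + 1), S.J r s * (1 : ℝ) := by
    rw [h1]
    simp only [Finset.mul_sum _ _ (S.U D), Finset.mul_sum _ _ (E * S.U (2 * D))]
    refine Finset.sum_le_sum fun r2 _ => ?_
    refine Finset.sum_le_sum fun r3 _ => ?_
    have h := RQuad_inner S D ((r2 : ℤ) - r3 + c - c')
    rw [← hE] at h
    have hJ := J_nonneg S r2 r3
    have h' := mul_le_mul_of_nonneg_left h hJ
    rw [mul_left_comm] at h'
    calc _ ≤ _ := h'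
      _ = _ := by ring
  have h3 := RQuad_comb S (fun _ => (1 : ℝ)) (fun _ => zero_le_one) D
  rw [← hE] at h3
  have h4 : ∑ r ∈ range (2 * D + 1), ∑ s ∈ range (2 * D + 1), S.b r * S.b s * (1 : ℝ) =
      S.U1 (2 * D) ^ 2 := by
    unfold U1
    rw [sq, Finset.sum_mul_sum]
    simp only [mul_one]
  rw [h4] at h3
  have h5 : S.U D ^ 2 * L ≤ E ^ 2 * S.U (2 * D) * S.U1 (2 * D) ^ 2 := by
    have h6 := mul_le_mul_of_nonneg_left h2 hU
    have h7 := mul_le_mul_of_nonneg_left h3 (mul_nonneg hE0 hU2)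
    calc S.U D ^ 2 * L = S.U D * (S.U D * L) := by ring
      _ ≤ _ := h6
      _ = E * S.U (2 * D) * (S.U D *
        ∑ r ∈ range (D + 1), ∑ s ∈ range (D + 1), S.J r s * (1 : ℝ)) := by ring
      _ ≤ _ := h7
      _ = _ := by ring
  have h8 : E ^ 2 ≤ S.U (2 * D) := by
    rw [hE]
    exact E_sq S D
  have h9 : S.U (2 * D) ≤ 2 * S.U D := by
    have := U_sub S (m := 2 * D) (n := D) (K := 2) (by omega)
    exact_mod_cast this
  have h10 : S.U1 (2 * D) ≤ 2 * S.U1 D := by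
    have := U1_sub S (m := 2 * D) (n := D) (K := 2) (by omega)
    exact_mod_cast this
  have hV : 0 ≤ S.U1 (2 * D) := le_trans zero_le_one (one_le_U1 S _)
  have hV1 : 0 ≤ S.U1 D := le_trans zero_le_one (one_le_U1 S _)
  have h11 : S.U D ^ 2 * L ≤ S.U D ^ 2 * (16 * S.U1 D ^ 2) := by
    have h12 : E ^ 2 * S.U (2 * D) ≤ (2 * S.U D) * (2 * S.U D) :=
      mul_le_mul (le_trans h8 h9) h9 hU2 (by positivity)
    have h13 : S.U1 (2 * D) ^ 2 ≤ (2 * S.U1 D) ^ 2 := pow_le_pow_left₀ hV h10 2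
    calc _ ≤ _ := h5
      _ ≤ (2 * S.U D) * (2 * S.U D) * (2 * S.U1 D) ^ 2 :=
        mul_le_mul h12 h13 (by positivity) (by positivity)
      _ = _ := by ring
  rw [← hL]
  exact le_of_mul_le_mul_left h11 (by positivity)

end Pool.Agent.ZLF.Sq
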