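import Pool.Agent.ZLF.ChainM
import Pool.Agent.ZLF.Mid
import Pool.Agent.ZLF.DatZ
import Pool.Agent.ZLF.Eta

/-!
Module ScaleB: the mass of the chains of one dyadic scale.

PAPER PROOF. `S` from `dat t`, `Z = (zc t)⁻¹` (real, positive: `zc_pos`), `C`, `D` from `scale S Z` (module Eta). `chain_sm` (`2 D ≤ 2 ^ k ≤ d`),
then `ch_le` with `b = S.b`, `G r s = 2 * S.J r s` (`g2_le` and `ew`, `cc` as real numbers: `ENNReal.ofReal_sum_of_nonneg`), and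
`B = Bm S Z D` (`w1_le`: `Wm t D d a a' = w1 t (d - a - a') (D - a) (D - a') ≤ Z * (mid + la)`), all nonnegative; the outer factors `be t a`,
`Wm t D d a a'` and `ENNReal.ofReal y ^ d` in the same way. The sum is `≤ ENNReal.ofReal` of the left side of `scale`.
-/

namespace Pool.Agent.ZLF

open Pool.Agent.SHP Pool.Agent.ZHW Pool.Agent.ZCS Finset
open scoped ENNReal NNReal

private theorem ScaleB_J_nonneg (S : Sq) (r s : ℕ) : 0 ≤ S.J r s :=
  Finset.sum_nonneg fun l _ => mul_nonneg (S.enn l) (S.ccnn _ _)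

private theorem ScaleB_mid_nonneg (S : Sq) (k a a' : ℕ) : 0 ≤ S.mid k a a' := by
  unfold Sq.mid
  refine Finset.sum_nonneg fun j _ => Finset.sum_nonneg fun h _ => Finset.sum_nonneg fun j' _ => ?_
  split_ifs
  · exact mul_nonneg (mul_nonneg (S.lann _) (S.bnn _)) (S.lann _)
  · exact le_refl _

private theorem ScaleB_Bm_nonneg (S : Sq) {Z : ℝ} (hZ : 0 ≤ Z) (D d a a' : ℕ) : 0 ≤ Bm S Z D d a a' :=
  mul_nonneg hZ (add_nonneg (ScaleB_mid_nonneg S _ _ _) (S.lann _))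

private theorem ScaleB_g2 {t : Bool} {S : Sq} (he : ∀ l, ew t l = ENNReal.ofReal (S.e l))
    (hc : ∀ a a', cc t a a' = ENNReal.ofReal (S.cc a a')) (r s : ℕ) :
    g2 t r s ≤ ENNReal.ofReal (2 * S.J r s) := by
  refine (g2_le (t := t) r s).trans (le_of_eq ?_)
  rw [ENNReal.ofReal_mul (by norm_num), Sq.J, ENNReal.ofReal_sum_of_nonneg
    (fun l _ => mul_nonneg (S.enn l) (S.ccnn _ _))]
  congr 1
  · simp
  · refine Finset.sum_congr rfl fun l _ => ?_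
    rw [he, hc, ENNReal.ofReal_mul (S.enn l)]

private theorem ScaleB_Wm {t : Bool} {S : Sq} (hb : ∀ r, be t (zc t) r = ENNReal.ofReal (S.b r))
    (hl : ∀ i, la t i = ENNReal.ofReal (S.la i)) (D d a a' : ℕ) :
    Wm t D d a a' ≤ ENNReal.ofReal (Bm S ((zc t : ℝ)⁻¹) D d a a') := by
  have hz : (0 : ℝ) < (zc t : ℝ) := by exact_mod_cast zc_pos t
  refine (w1_le (t := t) (d - a - a') (D - a) (D - a')).trans (le_of_eq ?_)
  unfold Bm
  rw [ENNReal.ofReal_mul (inv_nonneg.mpr hz.le), ENNReal.ofReal_inv_of_pos hz, ENNReal.ofReal_coe_nnreal,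
    ENNReal.ofReal_add (ScaleB_mid_nonneg S _ _ _) (S.lann _), ← hl]
  congr 2
  unfold Sq.mid
  have h0 : ∀ (j h j' : ℕ), (0 : ℝ) ≤ (if D - a ≤ j ∧ D - a' ≤ j' ∧ j + h + j' + 1 = d - a - a' then
      S.la j * S.b h * S.la j' else 0) := by
    intro j h j'
    split_ifs
    · exact mul_nonneg (mul_nonneg (S.lann _) (S.bnn _)) (S.lann _)
    · exact le_refl _
  rw [ENNReal.ofReal_sum_of_nonneg (fun j _ => Finset.sum_nonneg fun h _ => Finset.sum_nonneg fun j' _ => h0 j h j')]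
  refine Finset.sum_congr rfl fun j _ => ?_
  rw [ENNReal.ofReal_sum_of_nonneg (fun h _ => Finset.sum_nonneg fun j' _ => h0 j h j')]
  refine Finset.sum_congr rfl fun h _ => ?_
  rw [ENNReal.ofReal_sum_of_nonneg (fun j' _ => h0 j h j')]
  refine Finset.sum_congr rfl fun j' _ => ?_
  split_ifs
  · rw [hl, hb, hl, ENNReal.ofReal_mul (mul_nonneg (S.lann _) (S.bnn _)), ENNReal.ofReal_mul (S.lann _)]
  · simp

theorem scaleB (t : Bool) : ∃ C : ℝ, 0 < C ∧ ∀ k : ℕ, ∃ D : ℕ, 4 * D ≤ 2 ^ k ∧ ∀ y : ℝ, 0 ≤ y → y ≤ 1 → ∀ K : ℕ,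
    ∑ d ∈ Ico (2 ^ k) (2 ^ (k + 1)), ENNReal.ofReal y ^ d * sm t d (Wc t D (2 ^ k) (ENNReal.ofReal y) K d) ≤
    ENNReal.ofReal (C * 2 ^ (3 * k) * y ^ (2 ^ k) * Real.exp (C * Real.sqrt (2 ^ k) * y ^ (2 ^ k))) := by
  obtain ⟨S, hb, hl, he, hc⟩ := dat t
  have hz : (0 : ℝ) < (zc t : ℝ) := by exact_mod_cast zc_pos t
  have hZ : (0 : ℝ) < (zc t : ℝ)⁻¹ := inv_pos.mpr hz
  obtain ⟨C, hC, hsc⟩ := scale S ((zc t : ℝ)⁻¹) hZ
  refine ⟨C, hC, fun k => ?_⟩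
  obtain ⟨D, hD, hs⟩ := hsc k
  refine ⟨D, hD, fun y hy hy1 K => ?_⟩
  have hBm := ScaleB_Bm_nonneg S hZ.le D
  have hJ2 : ∀ r s, (0 : ℝ) ≤ 2 * S.J r s := fun r s => mul_nonneg (by norm_num) (ScaleB_J_nonneg S r s)
  have hR : ∀ d a', 0 ≤ chR D (2 ^ k) y S.b (fun r s => 2 * S.J r s) (Bm S ((zc t : ℝ)⁻¹) D) K d a' :=
    fun d a' => chR_nonneg hy S.bnn hJ2 (fun d a a' => hBm d a a') K d a'
  have hterm : ∀ d ∈ Ico (2 ^ k) (2 ^ (k + 1)),
      ENNReal.ofReal y ^ d * sm t d (Wc t D (2 ^ k) (ENNReal.ofReal y) K d) ≤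
      ENNReal.ofReal (y ^ d * ∑ a ∈ range (D + 1), ∑ a' ∈ range (D + 1),
        S.b a * Bm S ((zc t : ℝ)⁻¹) D d a a' *
          chR D (2 ^ k) y S.b (fun r s => 2 * S.J r s) (Bm S ((zc t : ℝ)⁻¹) D) K d a') := by
    intro d hd
    have hd' : 2 ^ k ≤ d := (Finset.mem_Ico.mp hd).1
    rw [ENNReal.ofReal_mul (pow_nonneg hy _), ENNReal.ofReal_pow hy]
    refine mul_le_mul_right ?_ _
    refine (chain_sm (t := t) (D := D) (lo := 2 ^ k) (by omega) (ENNReal.ofReal y) K d hd').trans ?_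
    rw [ENNReal.ofReal_sum_of_nonneg (fun a _ => Finset.sum_nonneg fun a' _ =>
      mul_nonneg (mul_nonneg (S.bnn _) (hBm _ _ _)) (hR _ _))]
    refine Finset.sum_le_sum fun a _ => ?_
    rw [ENNReal.ofReal_sum_of_nonneg (fun a' _ =>
      mul_nonneg (mul_nonneg (S.bnn _) (hBm _ _ _)) (hR _ _))]
    refine Finset.sum_le_sum fun a' _ => ?_
    rw [ENNReal.ofReal_mul (mul_nonneg (S.bnn _) (hBm _ _ _)), ENNReal.ofReal_mul (S.bnn _)]
    refine mul_le_mul' (mul_le_mul' (le_of_eq (hb a)) (ScaleB_Wm hb hl D d a a')) ?_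
    exact ch_le hy S.bnn hJ2 (fun d a a' => hBm d a a') (fun r => le_of_eq (hb r))
      (fun r s => ScaleB_g2 he hc r s) (fun d _ a a' => ScaleB_Wm hb hl D d a a') K d a'
  refine (Finset.sum_le_sum hterm).trans ?_
  rw [← ENNReal.ofReal_sum_of_nonneg]
  · exact ENNReal.ofReal_le_ofReal (hs y hy hy1 K)
  · intro d _
    exact mul_nonneg (pow_nonneg hy _) (Finset.sum_nonneg fun a _ => Finset.sum_nonneg fun a' _ =>
      mul_nonneg (mul_nonneg (S.bnn _) (hBm _ _ _)) (hR _ _))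

end Pool.Agent.ZLF
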