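import Pool.Agent.ZLF.OwnDec
import Pool.Agent.ZCS.Tail

/-!
Module TwoDec: a weak bridge, decomposed at its last own renewal levels seen from its two ends; the sign condition does not
see what comes after the last own renewal level.

PAPER PROOF. `two_dec`: `own_dec` with `n = α` gives `∑ a ≤ α, s1 (CB a) (x ↦ s1 (NB k' m) (B ↦ F (x ++ B)))` with `k' = k - a`,
`m = α - a`. Write the inner sum as `sm t k' (B ↦ if NR t m B then G B else 0)`, `G B = F (x ++ B)`, apply `sm_fl` (ZCS/Fw) and `own_dec`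
with `n = β ≤ k'`: `∑ a' ≤ β, s1 (CB a') (x' ↦ s1 (NB (k' - a') (β - a')) (w ↦ if NR t m (fl t (x' ++ w)) then G (fl t (x' ++ w)) else 0))`.
Here `fl t (x' ++ w) = fl t w ++ fl t x'` (`fl_append`), `fl t w ∈ WB t (k' - a')` (`fl_WB`), `fl t x' ∈ BT t a'` (`fl_BT`), and
`NR t m (fl t w ++ fl t x') ↔ NR t m (fl t w)` by `Rn_tail_iff` (`m ≤ k' - a'`). The map `w ↦ M = fl t w` is a bijection (`fl_fl`) of
`{w ∈ NB t (k' - a') (β - a') | NR t m (fl t w)}` onto `MW t (k - a - a') (α - a) (β - a')` which keeps the length. Exchange the sums over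
`x'` and `M` (`s1_comm`).
`Sg_near_left`: let `x ++ w = u ++ v`, `u ∈ CB t i`, `Ri v`, `i ≤ n`. If `i > a`: `Rn t (i - a) w` by `Rn_append`, against `NR`. So `i ≤ a` and
`x = u ++ v0`, `v = v0 ++ w`, `Ri v0` (as `CrA_key` in ZCS/CrA). Conversely if `x = u ++ v0` with `Ri v0` then `v0 ∈ CB t (a - i)`
(`CB_split`) and `Ri (v0 ++ w)` (`Ri_append`). So the common renewal levels `≤ n` of `(x ++ w, Y)` and of `(x, Y)` and the prefixes `u`
there are the same. `Sg_near_right`: the same with the two walks exchanged (`Sg` is symmetric). `Sg_cut`: the renewal levels of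
`x ∈ CB t a` are `≤ a` (`CB_split`).
-/

namespace Pool.Agent.ZLF

open Pool.Agent.SHP Pool.Agent.ZHW Pool.Agent.ZCS Finset
open scoped ENNReal NNReal

variable {t : Bool}

open Classical in
private theorem TwoDec_sub (k : ℕ) (P : Wd → Prop) (F : Wd → ℝ≥0∞) :
    s1 t {l | l ∈ WB t k ∧ P l} F = sm t k (fun l => if P l then F l else 0) := by
  unfold s1 sm
  have e1 : (∑' l : WB t k, (zc t : ℝ≥0∞) ^ (l : Wd).length * (if P l then F l else 0)) =
      ∑' l : Wd, (WB t k).indicator (fun l => (zc t : ℝ≥0∞) ^ l.length * (if P l then F l else 0)) l :=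
    tsum_subtype (WB t k) (fun l => (zc t : ℝ≥0∞) ^ l.length * (if P l then F l else 0))
  have e2 : (∑' l : {l | l ∈ WB t k ∧ P l}, (zc t : ℝ≥0∞) ^ (l : Wd).length * F l) =
      ∑' l : Wd, {l | l ∈ WB t k ∧ P l}.indicator (fun l => (zc t : ℝ≥0∞) ^ l.length * F l) l :=
    tsum_subtype {l | l ∈ WB t k ∧ P l} (fun l => (zc t : ℝ≥0∞) ^ l.length * F l)
  rw [e1, e2]
  refine tsum_congr fun l => ?_
  by_cases hA : l ∈ WB t k
  · by_cases hP : P l
    · have h1 : l ∈ {l | l ∈ WB t k ∧ P l} := ⟨hA, hP⟩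
      rw [Set.indicator_of_mem h1, Set.indicator_of_mem hA, if_pos hP]
    · have h1 : l ∉ {l | l ∈ WB t k ∧ P l} := fun h => hP h.2
      rw [Set.indicator_of_notMem h1, Set.indicator_of_mem hA, if_neg hP, mul_zero]
  · have h1 : l ∉ {l | l ∈ WB t k ∧ P l} := fun h => hA h.1
    rw [Set.indicator_of_notMem h1, Set.indicator_of_notMem hA]

open Classical in
private theorem TwoDec_fl (k m b : ℕ) (H : Wd → ℝ≥0∞) :
    s1 t (NB t k b) (fun w => if NR t m (fl t w) then H (fl t w) else 0) = s1 t (MW t k m b) H := by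
  have e1 : NB t k b = {l | l ∈ WB t k ∧ NR t b l} := rfl
  have e2 : MW t k m b = {l | l ∈ WB t k ∧ (NR t m l ∧ NR t b (fl t l))} := rfl
  rw [e1, e2, TwoDec_sub, TwoDec_sub]
  rw [← sm_fl (t := t) k]
  refine sm_congr fun l _ => ?_
  have e3 : fl t (fl t l) = l := fl_fl l
  rw [e3]
  by_cases h1 : NR t b (fl t l)
  · by_cases h2 : NR t m l
    · rw [if_pos h1, if_pos h2, if_pos ⟨h2, h1⟩]
    · rw [if_pos h1, if_neg h2, if_neg (fun h => h2 h.1)]
  · rw [if_neg h1, if_neg (fun h => h1 h.2)]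

private theorem TwoDec_in {k m β : ℕ} (h : m + β ≤ k) (G : Wd → ℝ≥0∞) : s1 t (NB t k m) G =
    ∑ a' ∈ range (β + 1), s1 t (MW t (k - a') m (β - a')) (fun M => s1 t (CB t a') (fun x' => G (M ++ fl t x'))) := by
  classical
  have e1 : NB t k m = {l | l ∈ WB t k ∧ NR t m l} := rfl
  rw [e1, TwoDec_sub]
  refine (sm_fl (t := t) k (fun l => if NR t m l then G l else 0)).symm.trans ?_
  rw [own_dec (show β ≤ k by omega)]
  refine Finset.sum_congr rfl fun a' ha' => ?_
  have ha : a' ≤ β := by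
    have := Finset.mem_range.1 ha'
    omega
  rw [s1_comm (MW t (k - a') m (β - a'))]
  refine s1_congr fun x' hx' => ?_
  rw [← TwoDec_fl]
  refine s1_congr fun w hw => ?_
  rw [fl_append]
  have h1 : NR t m (fl t w ++ fl t x') ↔ NR t m (fl t w) := by
    have key : ∀ i, i ≤ m → (Rn t i (fl t w ++ fl t x') ↔ Rn t i (fl t w)) := fun i hi =>
      Rn_tail_iff (fl_WB hw.1) (fl_BT hx') (by omega)
    unfold NR
    constructor
    · intro hN i h1 h2 hc
      exact hN i h1 h2 ((key i h2).2 hc)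
    · intro hN i h1 h2 hc
      exact hN i h1 h2 ((key i h2).1 hc)
  by_cases h2 : NR t m (fl t w)
  · rw [if_pos (h1.2 h2), if_pos h2]
  · rw [if_neg (fun hc => h2 (h1.1 hc)), if_neg h2]

theorem two_dec {k α β : ℕ} (h : α + β ≤ k) (F : Wd → ℝ≥0∞) : sm t k F =
    ∑ a ∈ range (α + 1), ∑ a' ∈ range (β + 1), s1 t (CB t a) (fun x =>
      s1 t (MW t (k - a - a') (α - a) (β - a')) (fun M => s1 t (CB t a') (fun x' => F (x ++ (M ++ fl t x'))))) := by
  rw [own_dec (show α ≤ k by omega)]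
  refine Finset.sum_congr rfl fun a ha => ?_
  have ha' : a ≤ α := by
    have := Finset.mem_range.1 ha
    omega
  rw [← s1_sum]
  refine s1_congr fun x _ => ?_
  exact TwoDec_in (β := β) (by omega) (fun B => F (x ++ B))

private theorem TwoDec_key {a n i : ℕ} {x w u v : Wd} (hx : x ∈ CB t a) (hw : Ri w) (hN : NR t (n - a) w)
    (hi : i ≤ n) (h : x ++ w = u ++ v) (hu : u ∈ CB t i) (hv : Ri v) :
    ∃ v0 : Wd, x = u ++ v0 ∧ Ri v0 := by
  have hia : i ≤ a := by
    by_contra hc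
    have e : i = a + (i - a) := by omega
    have g1 : Rn t (a + (i - a)) (x ++ w) := by
      rw [← e]
      exact ⟨u, v, h, hu, hv⟩
    exact hN (i - a) (by omega) (by omega) ((Rn_append hx hw).1 g1)
  rcases List.append_eq_append_iff.1 h with ⟨c, hc, hc'⟩ | ⟨c, hc, hc'⟩
  · by_cases hcn : c = []
    · subst hcn
      refine ⟨[], ?_, Ri_nil⟩
      rw [hc]
      simp
    · exfalso
      have g1 := hu.2.2.1 x c hc hcn
      have g2 : u.sum.1 = (i : ℤ) := hu.2.2.2
      have g3 : x.sum.1 = (a : ℤ) := hx.2.2.2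
      rw [hc, fst_sum_append, g3] at g2
      omega
  · refine ⟨c, hc, fun p q hpq => ?_⟩
    refine hv p (q ++ w) ?_
    rw [hc', hpq, List.append_assoc]

private theorem TwoDec_conv {a i : ℕ} {x w u v : Wd} (hx : x ∈ CB t a) (hw : Ri w) (h : x = u ++ v)
    (hu : u ∈ CB t i) (hv : Ri v) : Ri (v ++ w) :=
  Ri_append (CB_split hx h hu hv).2 hw

private theorem TwoDec_pos1 {a n : ℕ} {x w : Wd} (Y : Wd) (hx : x ∈ CB t a) (hw : Ri w) (hN : NR t (n - a) w) :
    PosN t n (x ++ w) Y ↔ PosN t n x Y := by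
  constructor
  · intro h i h1 hi u v u' v' e e' hu hu' hv hv'
    refine h i h1 hi u (v ++ w) u' v' ?_ e' hu hu' (TwoDec_conv hx hw e hu hv) hv'
    rw [e, List.append_assoc]
  · intro h i h1 hi u v u' v' e e' hu hu' hv hv'
    obtain ⟨v0, h0, h2⟩ := TwoDec_key hx hw hN hi e hu hv
    exact h i h1 hi u v0 u' v' h0 e' hu hu' h2 hv'

private theorem TwoDec_pos2 {a n : ℕ} {x w : Wd} (Y : Wd) (hx : x ∈ CB t a) (hw : Ri w) (hN : NR t (n - a) w) :
    PosN t n Y (x ++ w) ↔ PosN t n Y x := by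
  constructor
  · intro h i h1 hi u v u' v' e e' hu hu' hv hv'
    refine h i h1 hi u v u' (v' ++ w) e ?_ hu hu' hv (TwoDec_conv hx hw e' hu' hv')
    rw [e', List.append_assoc]
  · intro h i h1 hi u v u' v' e e' hu hu' hv hv'
    obtain ⟨v0, h0, h2⟩ := TwoDec_key hx hw hN hi e' hu' hv'
    exact h i h1 hi u v u' v0 e h0 hu hu' hv h2

theorem Sg_near_left {a n : ℕ} {x w : Wd} (Y : Wd) (ha : a ≤ n) (hx : x ∈ CB t a) (hw : Ri w) (hN : NR t (n - a) w) :
    Sg t n (x ++ w) Y ↔ Sg t n x Y := by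
  unfold Sg
  rw [TwoDec_pos1 Y hx hw hN, TwoDec_pos2 Y hx hw hN]

theorem Sg_near_right {a n : ℕ} {x w : Wd} (Y : Wd) (ha : a ≤ n) (hx : x ∈ CB t a) (hw : Ri w) (hN : NR t (n - a) w) :
    Sg t n Y (x ++ w) ↔ Sg t n Y x := by
  unfold Sg
  rw [TwoDec_pos1 Y hx hw hN, TwoDec_pos2 Y hx hw hN]

theorem Sg_cut {a n : ℕ} {x : Wd} (Y : Wd) (ha : a ≤ n) (hx : x ∈ CB t a) : Sg t n x Y ↔ Sg t a x Y := by
  have h1 : PosN t n x Y ↔ PosN t a x Y := by
    constructor
    · intro h i h1 hi u v u' v' e e' hu hu' hv hv'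
      exact h i h1 (by omega) u v u' v' e e' hu hu' hv hv'
    · intro h i h1 hi u v u' v' e e' hu hu' hv hv'
      exact h i h1 (CB_split hx e hu hv).1 u v u' v' e e' hu hu' hv hv'
  have h2 : PosN t n Y x ↔ PosN t a Y x := by
    constructor
    · intro h i h1 hi u v u' v' e e' hu hu' hv hv'
      exact h i h1 (by omega) u v u' v' e e' hu hu' hv hv'
    · intro h i h1 hi u v u' v' e e' hu hu' hv hv'
      exact h i h1 (CB_split hx e' hu' hv').1 u v u' v' e e' hu hu' hv hv'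
  unfold Sg
  rw [h1, h2]

end Pool.Agent.ZLF
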